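import Pool.Agent.SpeedFP.Perms

/-!
Abstract groups with elements `t i j`, `s i` satisfying the relations of the four-ray group:
the elements attached to the points of the rays, the star relations, and faithfulness of the
action on the four-ray set.
-/

set_option autoImplicit false

namespace Pool.SpeedFP

/-- The relations imposed on the generators `t i j` and `s i`. -/
structure HRel {G : Type*} [Group G] (t : Fin 4 → Fin 4 → G) (s : Fin 4 → G) : Prop where
  tii : ∀ i, t i i = 1
  tinv : ∀ i j, t j i = (t i j)⁻¹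
  tC : ∀ i j m, i ≠ j → i ≠ m → j ≠ m → t i j * t m i = t m j
  tD : ∀ i j m l, i ≠ m → i ≠ l → j ≠ m → j ≠ l → t i j * t m l = t m l * t i j
  tE : ∀ i j, t i j * s i * (t i j)⁻¹ = s j
  tF : ∀ i m l, i ≠ m → i ≠ l → t m l * s i = s i * t m l
  s1 : ∀ i, s i * s i = 1
  s2 : ∀ i j, i ≠ j → s i * s j * s i = s j * s i * s j
  s3 : ∀ i j m, i ≠ j → i ≠ m → j ≠ m → (s i * s j * s i) * s m = s m * (s i * s j * s i)
  tK : ∀ i j m, i ≠ j → i ≠ m → j ≠ m → t i j * t i m = (s j * s m * s j) * t i m * t i j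

theorem hrel_perm : HRel T Sw where
  tii := T_self
  tinv := T_inv
  tC := fun _ _ _ h1 h2 h3 => T_C h1 h2 h3
  tD := fun _ _ _ _ h1 h2 h3 h4 => T_D h1 h2 h3 h4
  tE := T_E
  tF := fun _ _ _ h1 h2 => T_F h1 h2
  s1 := Sw_mul_self
  s2 := fun _ _ h => Sw_S2 h
  s3 := fun _ _ _ h1 h2 h3 => Sw_S3 h1 h2 h3
  tK := fun _ _ _ h1 h2 h3 => T_K h1 h2 h3

theorem HRel.map {G K : Type*} [Group G] [Group K] {t : Fin 4 → Fin 4 → G} {s : Fin 4 → G}
    (h : HRel t s) (f : G →* K) : HRel (fun i j => f (t i j)) (fun i => f (s i)) where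
  tii := fun i => by rw [h.tii, map_one]
  tinv := fun i j => by rw [h.tinv, map_inv]
  tC := fun i j m h1 h2 h3 => by rw [← map_mul, h.tC i j m h1 h2 h3]
  tD := fun i j m l h1 h2 h3 h4 => by rw [← map_mul, h.tD i j m l h1 h2 h3 h4, map_mul]
  tE := fun i j => by rw [← map_inv, ← map_mul, ← map_mul, h.tE]
  tF := fun i m l h1 h2 => by rw [← map_mul, h.tF i m l h1 h2, map_mul]
  s1 := fun i => by rw [← map_mul, h.s1, map_one]
  s2 := fun i j hij => by simp only [← map_mul]; rw [h.s2 i j hij]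
  s3 := fun i j m h1 h2 h3 => by simp only [← map_mul]; rw [h.s3 i j m h1 h2 h3]
  tK := fun i j m h1 h2 h3 => by simp only [← map_mul]; rw [h.tK i j m h1 h2 h3]

section
variable {G : Type*} [Group G] {t : Fin 4 → Fin 4 → G} {s : Fin 4 → G}

/-- The involution attached to the point `(i, k)`. -/
def sx (t : Fin 4 → Fin 4 → G) (s : Fin 4 → G) (i : Fin 4) : ℕ → G
  | 0 => s i
  | k + 1 => (t i (i + 1))⁻¹ * sx t s i k * t i (i + 1)

theorem add_one_ne (i : Fin 4) : i ≠ i + 1 := by revert i; decide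

theorem exists_fresh (i m l : Fin 4) : ∃ j : Fin 4, j ≠ i ∧ j ≠ m ∧ j ≠ l := by
  revert i m l; decide

/-- Independence of the auxiliary ray, given commutation one level below. -/
theorem sx_indep (h : HRel t s) (k : ℕ)
    (hk : ∀ i m l, i ≠ m → i ≠ l → t m l * sx t s i k = sx t s i k * t m l)
    (i j : Fin 4) (hij : i ≠ j) :
    (t i j)⁻¹ * sx t s i k * t i j = sx t s i (k + 1) := by
  show _ = (t i (i + 1))⁻¹ * sx t s i k * t i (i + 1)
  by_cases hj : j = i + 1
  · rw [hj]
  have e1 : t i j * t (i + 1) i = t (i + 1) j := h.tC i j (i + 1) hij (add_one_ne i) hj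
  have e2 := hk i (i + 1) j (add_one_ne i) hij
  rw [← e1] at e2
  rw [h.tinv i (i + 1)] at e2
  calc (t i j)⁻¹ * sx t s i k * t i j
      = (t i j)⁻¹ * (sx t s i k * (t i j * (t i (i + 1))⁻¹)) * t i (i + 1) := by group
    _ = (t i j)⁻¹ * (t i j * (t i (i + 1))⁻¹ * sx t s i k) * t i (i + 1) := by rw [e2]
    _ = (t i (i + 1))⁻¹ * sx t s i k * t i (i + 1) := by group

theorem sx_comm (h : HRel t s) (k : ℕ) :
    ∀ i m l, i ≠ m → i ≠ l → t m l * sx t s i k = sx t s i k * t m l := by
  induction k with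
  | zero => exact fun i m l h1 h2 => h.tF i m l h1 h2
  | succ k ih =>
    intro i m l h1 h2
    obtain ⟨j, hj1, hj2, hj3⟩ := exists_fresh i m l
    rw [← sx_indep h k ih i j (Ne.symm hj1)]
    have e1 : t i j * t m l = t m l * t i j := h.tD i j m l h1 h2 hj2 hj3
    have e2 := ih i m l h1 h2
    have e3 : t m l * (t i j)⁻¹ = (t i j)⁻¹ * t m l := by
      rw [mul_inv_eq_iff_eq_mul, mul_assoc, ← e1]; group
    calc t m l * ((t i j)⁻¹ * sx t s i k * t i j)
        = (t m l * (t i j)⁻¹) * sx t s i k * t i j := by group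
      _ = (t i j)⁻¹ * (t m l * sx t s i k) * t i j := by rw [e3]; group
      _ = (t i j)⁻¹ * sx t s i k * (t m l * t i j) := by rw [e2]; group
      _ = (t i j)⁻¹ * sx t s i k * t i j * t m l := by rw [← e1]; group

/-- The involution attached to a point of the rays. -/
def sp (t : Fin 4 → Fin 4 → G) (s : Fin 4 → G) (x : Y) : G := sx t s x.1 x.2

theorem sp_zero (i : Fin 4) : sp t s (i, 0) = s i := rfl

theorem conj_sp (h : HRel t s) (i j : Fin 4) (x : Y) :
    t i j * sp t s x * (t i j)⁻¹ = sp t s (Yf i j x) := by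
  by_cases hij : i = j
  · subst hij; rw [h.tii, Yf_self]; group
  obtain ⟨a, k⟩ := x
  unfold sp
  by_cases ha : a = i
  · subst ha
    cases k with
    | zero => rw [Yf_src_zero hij]; exact h.tE _ _
    | succ k =>
      rw [Yf_src_succ hij]
      show t a j * sx t s a (k + 1) * (t a j)⁻¹ = sx t s a k
      rw [← sx_indep h k (sx_comm h k) a j hij]; group
  by_cases hb : a = j
  · subst hb
    rw [Yf_tgt hij]
    show t i a * sx t s a k * (t i a)⁻¹ = sx t s a (k + 1)
    rw [← sx_indep h k (sx_comm h k) a i ha, h.tinv i a]; group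
  · rw [Yf_other ha hb]
    show t i j * sx t s a k * (t i j)⁻¹ = sx t s a k
    rw [sx_comm h k a i j ha hb]; group

/-- Descent: a relation between three distinct points that is invariant under the moves and holds
for heads of rays holds everywhere. -/
theorem descend3 (Q : Y → Y → Y → Prop)
    (hinv : ∀ i j x y z, Q (Yf i j x) (Yf i j y) (Yf i j z) → Q x y z)
    (h0 : ∀ i j m, i ≠ j → i ≠ m → j ≠ m → Q (i, 0) (j, 0) (m, 0)) :
    ∀ x y z, x ≠ y → x ≠ z → y ≠ z → Q x y z := by
  have inj : ∀ i j : Fin 4, ∀ x y : Y, x ≠ y → Yf i j x ≠ Yf i j y :=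
    fun i j x y hxy e => hxy ((YT i j).injective e)
  have key : ∀ N : ℕ, ∀ x y z : Y, x.2 + y.2 + z.2 ≤ N → x ≠ y → x ≠ z → y ≠ z → Q x y z := by
    intro N
    induction N with
    | zero =>
      rintro ⟨a, k⟩ ⟨b, l⟩ ⟨c, m⟩ hN h1 h2 h3
      simp only [nonpos_iff_eq_zero, Nat.add_eq_zero_iff] at hN
      obtain ⟨⟨rfl, rfl⟩, rfl⟩ := hN
      exact h0 a b c (by rintro rfl; exact h1 rfl) (by rintro rfl; exact h2 rfl)
        (by rintro rfl; exact h3 rfl)
    | succ N ih =>
      rintro ⟨a, k⟩ ⟨b, l⟩ ⟨c, m⟩ hN h1 h2 h3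
      -- choose a ray whose point has positive height
      have hdec : ∀ (i j : Fin 4), i ≠ j → ∀ (p : Fin 4) (q : ℕ), p ≠ j →
          (Yf i j (p, q)).2 ≤ q := by
        intro i j hij p q hp
        by_cases hpi : p = i
        · subst hpi
          cases q with
          | zero => rw [Yf_src_zero hij]
          | succ q => rw [Yf_src_succ hij]; exact Nat.le_succ q
        · rw [Yf_other hpi hp]
      have hstr : ∀ (i j : Fin 4), i ≠ j → ∀ (q : ℕ), 0 < q →
          (Yf i j (i, q)).2 + 1 ≤ q := by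
        intro i j hij q hq
        obtain ⟨q, rfl⟩ := Nat.exists_eq_succ_of_ne_zero hq.ne'
        rw [Nat.succ_eq_add_one, Yf_src_succ hij]
      obtain ⟨j, hj1, hj2, hj3⟩ := exists_fresh a b c
      simp only at hN
      rcases Nat.eq_zero_or_pos k with hk | hk
      · rcases Nat.eq_zero_or_pos l with hl | hl
        · rcases Nat.eq_zero_or_pos m with hm | hm
          · subst hk; subst hl; subst hm
            exact ih _ _ _ (by simp) h1 h2 h3
          · refine hinv c j _ _ _ (ih _ _ _ ?_ (inj _ _ _ _ h1) (inj _ _ _ _ h2)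
              (inj _ _ _ _ h3))
            have e1 := hdec c j (Ne.symm hj3) a k (Ne.symm hj1)
            have e2 := hdec c j (Ne.symm hj3) b l (Ne.symm hj2)
            have e3 := hstr c j (Ne.symm hj3) m hm
            omega
        · refine hinv b j _ _ _ (ih _ _ _ ?_ (inj _ _ _ _ h1) (inj _ _ _ _ h2)
              (inj _ _ _ _ h3))
          have e1 := hdec b j (Ne.symm hj2) a k (Ne.symm hj1)
          have e2 := hstr b j (Ne.symm hj2) l hl
          have e3 := hdec b j (Ne.symm hj2) c m (Ne.symm hj3)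
          omega
      · refine hinv a j _ _ _ (ih _ _ _ ?_ (inj _ _ _ _ h1) (inj _ _ _ _ h2)
              (inj _ _ _ _ h3))
        have e1 := hstr a j (Ne.symm hj1) k hk
        have e2 := hdec a j (Ne.symm hj1) b l (Ne.symm hj2)
        have e3 := hdec a j (Ne.symm hj1) c m (Ne.symm hj3)
        omega
  intro x y z
  exact key _ x y z le_rfl

theorem exists_third (x y : Y) : ∃ z : Y, x ≠ z ∧ y ≠ z := by
  refine ⟨(x.1, x.2 + y.2 + 1), ?_, ?_⟩
  · intro e
    have := congrArg Prod.snd e
    simp only at this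
    omega
  · intro e
    have := congrArg Prod.snd e
    simp only at this
    omega

theorem sp_mul_self (h : HRel t s) (x : Y) : sp t s x * sp t s x = 1 := by
  obtain ⟨y, hy, -⟩ := exists_third x x
  obtain ⟨z, hz1, hz2⟩ := exists_third x y
  refine descend3 (fun x _ _ => sp t s x * sp t s x = 1) ?_ ?_ x y z hy hz1 hz2
  · intro i j x _ _ hx
    rw [← conj_sp h i j] at hx
    have : t i j * (sp t s x * sp t s x) * (t i j)⁻¹ = 1 := by rw [← hx]; group
    rwa [conj_eq_one_iff] at this
  · intro i _ _ _ _ _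
    exact h.s1 i

theorem sp_inv (h : HRel t s) (x : Y) : (sp t s x)⁻¹ = sp t s x := by
  rw [inv_eq_iff_mul_eq_one, sp_mul_self h]

theorem sp_braid (h : HRel t s) {x y : Y} (hxy : x ≠ y) :
    sp t s x * sp t s y * sp t s x = sp t s y * sp t s x * sp t s y := by
  obtain ⟨z, hz1, hz2⟩ := exists_third x y
  refine descend3 (fun x y _ => sp t s x * sp t s y * sp t s x = sp t s y * sp t s x * sp t s y)
    ?_ ?_ x y z hxy hz1 hz2
  · intro i j x y _ hx
    simp only [← conj_sp h i j] at hx
    have : t i j * (sp t s x * sp t s y * sp t s x) * (t i j)⁻¹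
        = t i j * (sp t s y * sp t s x * sp t s y) * (t i j)⁻¹ := by
      convert hx using 1 <;> group
    simpa using this
  · intro i j _ hij _ _
    exact h.s2 i j hij

theorem sp_star (h : HRel t s) {x y z : Y} (hxy : x ≠ y) (hxz : x ≠ z) (hyz : y ≠ z) :
    (sp t s x * sp t s y * sp t s x) * sp t s z = sp t s z * (sp t s x * sp t s y * sp t s x) := by
  refine descend3 (fun x y z => (sp t s x * sp t s y * sp t s x) * sp t s z
      = sp t s z * (sp t s x * sp t s y * sp t s x)) ?_ ?_ x y z hxy hxz hyz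
  · intro i j x y z hx
    simp only [← conj_sp h i j] at hx
    have : t i j * ((sp t s x * sp t s y * sp t s x) * sp t s z) * (t i j)⁻¹
        = t i j * (sp t s z * (sp t s x * sp t s y * sp t s x)) * (t i j)⁻¹ := by
      convert hx using 1 <;> group
    simpa using this
  · intro i j m h1 h2 h3
    exact h.s3 i j m h1 h2 h3

end

end Pool.SpeedFP
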