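import Mathlib

/-!
Word length of a group element with respect to a homomorphism from a free group.
-/

set_option autoImplicit false

namespace Pool.SpeedFP

/-- Word length of `g` with respect to a homomorphism from a free group. -/
noncomputable def wl {α : Type*} [DecidableEq α] {G : Type*} [Group G]
    (φ : FreeGroup α →* G) (g : G) : ℕ :=
  sInf {k : ℕ | ∃ w : FreeGroup α, φ w = g ∧ w.toWord.length = k}

section
variable {α : Type*} [DecidableEq α] {G : Type*} [Group G] {φ : FreeGroup α →* G}

theorem wl_le {w : FreeGroup α} {g : G} (h : φ w = g) : wl φ g ≤ w.norm :=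
  Nat.sInf_le ⟨w, h, rfl⟩

theorem exists_wl (hφ : Function.Surjective φ) (g : G) :
    ∃ w : FreeGroup α, φ w = g ∧ w.norm = wl φ g := by
  obtain ⟨w, hw⟩ := hφ g
  have hne : {k : ℕ | ∃ w : FreeGroup α, φ w = g ∧ w.toWord.length = k}.Nonempty :=
    ⟨w.norm, w, hw, rfl⟩
  obtain ⟨w', h1, h2⟩ := Nat.sInf_mem hne
  exact ⟨w', h1, h2⟩

theorem wl_one : wl φ (1 : G) = 0 := by
  have := wl_le (φ := φ) (w := 1) (g := 1) (map_one φ)
  rw [FreeGroup.norm_one] at this
  omega

theorem wl_of_le (a : α) : wl φ (φ (FreeGroup.of a)) ≤ 1 := by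
  have := wl_le (φ := φ) (w := FreeGroup.of a) (g := φ (FreeGroup.of a)) rfl
  rwa [FreeGroup.norm_of] at this

theorem wl_mul_le (hφ : Function.Surjective φ) (g h : G) : wl φ (g * h) ≤ wl φ g + wl φ h := by
  obtain ⟨w, h1, h2⟩ := exists_wl hφ g
  obtain ⟨v, h3, h4⟩ := exists_wl hφ h
  have := wl_le (φ := φ) (w := w * v) (g := g * h) (by rw [map_mul, h1, h3])
  have h5 := FreeGroup.norm_mul_le w v
  omega

theorem wl_inv_le (hφ : Function.Surjective φ) (g : G) : wl φ g⁻¹ ≤ wl φ g := by
  obtain ⟨w, h1, h2⟩ := exists_wl hφ g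
  have := wl_le (φ := φ) (w := w⁻¹) (g := g⁻¹) (by rw [map_inv, h1])
  rw [FreeGroup.norm_inv_eq] at this
  omega

theorem wl_prod_le (hφ : Function.Surjective φ) (l : List G) (C : ℕ)
    (hl : ∀ x ∈ l, wl φ x ≤ C) : wl φ l.prod ≤ C * l.length := by
  induction l with
  | nil => simp [wl_one]
  | cons a l ih =>
    have h1 := ih (fun x hx => hl x (List.mem_cons_of_mem _ hx))
    have h2 := hl a List.mem_cons_self
    have h3 := wl_mul_le hφ a l.prod
    rw [List.prod_cons, List.length_cons]
    nlinarith

/-- Induction principle along reduced words: any element of the free group is a product of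
`norm` many letters. -/
theorem free_induction (P : FreeGroup α → ℕ → Prop) (h1 : P 1 0)
    (hmul : ∀ (a : α) (b : Bool) (w : FreeGroup α) (n : ℕ), P w n →
      P ((if b then FreeGroup.of a else (FreeGroup.of a)⁻¹) * w) (n + 1)) (w : FreeGroup α) :
    P w w.norm := by
  have key : ∀ L : List (α × Bool), P (FreeGroup.mk L) L.length := by
    intro L
    induction L with
    | nil => simpa [FreeGroup.one_eq_mk] using h1
    | cons p L ih =>
      obtain ⟨a, b⟩ := p
      have := hmul a b _ _ ih
      have e : (if b then FreeGroup.of a else (FreeGroup.of a)⁻¹) * FreeGroup.mk L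
          = FreeGroup.mk ((a, b) :: L) := by
        cases b <;> simp [FreeGroup.of, FreeGroup.inv_mk, FreeGroup.invRev, FreeGroup.mul_mk]
      rw [e] at this
      simpa using this
  have := key w.toWord
  rwa [FreeGroup.mk_toWord] at this

/-- A function that increases by at most one under left multiplication by letters is bounded by
the word length. -/
theorem le_wl (hφ : Function.Surjective φ) (ℓ : G → ℝ) (h1 : ℓ 1 ≤ 0)
    (hstep : ∀ (a : α) (g : G), ℓ (φ (FreeGroup.of a) * g) ≤ ℓ g + 1 ∧
      ℓ ((φ (FreeGroup.of a))⁻¹ * g) ≤ ℓ g + 1) (g : G) : ℓ g ≤ wl φ g := by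
  obtain ⟨w, hw, hn⟩ := exists_wl hφ g
  rw [← hn, ← hw]
  refine free_induction (fun w n => ℓ (φ w) ≤ n) (by simpa using h1) ?_ w
  intro a b w n ih
  cases b
  · have := (hstep a (φ w)).2
    simp only [Bool.false_eq_true, if_false, map_mul, map_inv]
    push_cast
    linarith
  · have := (hstep a (φ w)).1
    simp only [if_true, map_mul]
    push_cast
    linarith

/-- Homomorphisms that map generators to elements of word length at most one do not increase the
word length. -/
theorem wl_map_le {β : Type*} [DecidableEq β] {K : Type*} [Group K] {ψ : FreeGroup β →* K}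
    (hφ : Function.Surjective φ) (hψ : Function.Surjective ψ) (f : G →* K)
    (hf : ∀ a : α, wl ψ (f (φ (FreeGroup.of a))) ≤ 1) (g : G) : wl ψ (f g) ≤ wl φ g := by
  obtain ⟨w, hw, hn⟩ := exists_wl hφ g
  rw [← hn, ← hw]
  refine free_induction (fun w n => wl ψ (f (φ w)) ≤ n) (by simp [wl_one]) ?_ w
  intro a b w n ih
  cases b
  · have h1 := wl_mul_le hψ (f (φ (FreeGroup.of a)))⁻¹ (f (φ w))
    have h2 := wl_inv_le hψ (f (φ (FreeGroup.of a)))
    have h3 := hf a
    simp only [Bool.false_eq_true, if_false, map_mul, map_inv]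
    omega
  · have h1 := wl_mul_le hψ (f (φ (FreeGroup.of a))) (f (φ w))
    have h3 := hf a
    simp only [if_true, map_mul]
    omega

end

end Pool.SpeedFP
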