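import Pool.Agent.SpeedFP.Upper
import Pool.Agent.SpeedFP.Words

/-!
The ambient permutational wreath product `(X → A) ⋊ Perm X` and the lower bound for the word
length it gives.
-/

set_option autoImplicit false

namespace Pool.SpeedFP

section
variable (A : Type*) [Group A]

/-- Permutations act on configurations. -/
def act : Equiv.Perm X →* MulAut (X → A) where
  toFun σ :=
    { toFun := fun f x => f (σ⁻¹ x)
      invFun := fun f x => f (σ x)
      left_inv := fun f => by funext x; simp
      right_inv := fun f => by funext x; simp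
      map_mul' := fun _ _ => rfl }
  map_one' := rfl
  map_mul' σ τ := by
    ext f x
    rfl

/-- The ambient group. -/
abbrev Amb : Type _ := (X → A) ⋊[act A] Equiv.Perm X

/-- Lamp letters in the ambient group. -/
def aA : A →* Amb A := SemidirectProduct.inl.comp (MonoidHom.mulSingle (fun _ : X => A) none)

/-- Moving letters in the ambient group. -/
def tA (i j : Fin 4) : Amb A := SemidirectProduct.inr (T i j)

/-- Moving letters in the ambient group. -/
def sA (i : Fin 4) : Amb A := SemidirectProduct.inr (Sw i)

end

section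
variable {A : Type*} [Group A]

theorem act_apply (σ : Equiv.Perm X) (f : X → A) (x : X) : act A σ f x = f (σ⁻¹ x) := rfl

theorem act_single (σ : Equiv.Perm X) (p : X) (x : A) :
    act A σ (Pi.mulSingle p x) = Pi.mulSingle (σ p) x := by
  funext y
  rw [act_apply]
  by_cases h : y = σ p
  · subst h
    rw [inv_app, Pi.mulSingle_eq_same, Pi.mulSingle_eq_same]
  · rw [Pi.mulSingle_eq_of_ne h, Pi.mulSingle_eq_of_ne]
    rintro rfl
    exact h (app_inv _ _).symm

theorem inr_inl_single (σ : Equiv.Perm X) (p : X) (x : A) :
    (SemidirectProduct.inr σ : Amb A) * SemidirectProduct.inl (Pi.mulSingle p x)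
      = SemidirectProduct.inl (Pi.mulSingle (σ p) x) * SemidirectProduct.inr σ := by
  rw [← act_single, SemidirectProduct.inl_aut]
  rw [mul_assoc, ← map_mul, inv_mul_cancel, map_one, mul_one]

theorem hrel_amb : HRel (tA A) (sA A) := hrel_perm.map SemidirectProduct.inr

theorem std_amb : Std (tA A) (sA A) (SemidirectProduct.rightHom : Amb A →* Equiv.Perm X) where
  t := fun _ _ => SemidirectProduct.rightHom_inr _
  s := fun _ => SemidirectProduct.rightHom_inr _

theorem aA_apply (x : A) : aA A x = SemidirectProduct.inl (Pi.mulSingle none x) := rfl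

theorem lrel_amb : LRel (tA A) (sA A) (aA A) where
  L1 := fun x i j => by
    rw [aA_apply]
    unfold tA
    rw [inr_inl_single, T_none]
  L2 := fun x i j hij => by
    rw [aA_apply]
    unfold sA
    rw [← map_mul, ← map_mul, inr_inl_single, Sw_conj hij,
      Equiv.swap_apply_of_ne_of_ne (by simp) (by simp)]
  L3 := fun x y i => by
    rw [aA_apply, aA_apply]
    unfold sA
    have e : (SemidirectProduct.inr (Sw i) : Amb A) * SemidirectProduct.inl (Pi.mulSingle none y)
        * SemidirectProduct.inr (Sw i) = SemidirectProduct.inl (Pi.mulSingle (some (i, 0)) y) := by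
      rw [inr_inl_single, Sw_none, mul_assoc, ← map_mul, Sw_mul_self, map_one, mul_one]
    have c : (Pi.mulSingle (some (i, 0)) y : X → A) * Pi.mulSingle none x
        = Pi.mulSingle none x * Pi.mulSingle (some (i, 0)) y := by
      funext p
      simp only [Pi.mul_apply]
      by_cases hp : p = none
      · subst hp
        rw [Pi.mulSingle_eq_same, Pi.mulSingle_eq_of_ne (by simp), one_mul, mul_one]
      · rw [Pi.mulSingle_eq_of_ne hp, one_mul, mul_one]
    rw [e, ← map_mul, ← map_mul, c]

theorem W_left (u : List (Lt A)) : (W (tA A) (sA A) (aA A) u).left = cfg u := by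
  induction u with
  | nil => rfl
  | cons w u ih =>
    have e : W (tA A) (sA A) (aA A) (w :: u)
        = evl (tA A) (sA A) (aA A) w * W (tA A) (sA A) (aA A) u := by simp [W]
    rw [e, SemidirectProduct.mul_left, ih]
    rcases w with x | c
    · funext p
      show (Pi.mulSingle none x : X → A) p * cfg u p = if p = none then x * cfg u p else cfg u p
      by_cases hp : p = none
      · subst hp; rw [if_pos rfl, Pi.mulSingle_eq_same]
      · rw [if_neg hp, Pi.mulSingle_eq_of_ne hp, one_mul]
    · funext p
      rcases c with ⟨i, j⟩ | i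
      · show (1 : A) * cfg u ((T i j)⁻¹ p) = cfg u ((T i j)⁻¹ p)
        rw [one_mul]
      · show (1 : A) * cfg u ((Sw i)⁻¹ p) = cfg u ((Sw i)⁻¹ p)
        rw [one_mul]

theorem W_map {G : Type*} [Group G] {t : Fin 4 → Fin 4 → G} {s : Fin 4 → G} {a : A →* G}
    (Φ : G →* Amb A) (ht : ∀ i j, Φ (t i j) = tA A i j) (hs : ∀ i, Φ (s i) = sA A i)
    (ha : ∀ x, Φ (a x) = aA A x) (u : List (Lt A)) :
    Φ (W t s a u) = W (tA A) (sA A) (aA A) u := by
  unfold W
  rw [map_list_prod, List.map_map]
  congr 1
  refine List.map_congr_left ?_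
  intro w _
  rcases w with x | ⟨i, j⟩ | i
  · exact ha x
  · exact ht i j
  · exact hs i

/-- Lower bound for the word length. -/
theorem lower {α : Type*} [DecidableEq α] {G : Type*} [Group G] {φ : FreeGroup α →* G}
    (hφ : Function.Surjective φ) (Φ : G →* Amb A) {lA : A → ℕ}
    (l1 : lA 1 = 0) (lmul : ∀ x y, lA (x * y) ≤ lA x + lA y) (linv : ∀ x, lA x⁻¹ ≤ lA x)
    (hgen : ∀ k : α, (∃ x : A, lA x ≤ 1 ∧ Φ (φ (FreeGroup.of k)) = aA A x) ∨
      ∃ σ : Equiv.Perm X, Φ (φ (FreeGroup.of k)) = SemidirectProduct.inr σ) (g : G)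
    (B : Finset X) : ∑ q ∈ B, lA ((Φ g).left q) ≤ wl φ g := by
  classical
  obtain ⟨w, hw, hn⟩ := exists_wl hφ g
  rw [← hn, ← hw]
  have stepA : ∀ (x : A) (v : Amb A), lA x ≤ 1 → ∀ B : Finset X,
      ∑ q ∈ B, lA ((aA A x * v).left q) ≤ ∑ q ∈ B, lA (v.left q) + 1 := by
    intro x v hx B
    have e : ∀ q, (aA A x * v).left q = if q = none then x * v.left q else v.left q := by
      intro q
      show (Pi.mulSingle none x : X → A) q * v.left q = _
      by_cases hq : q = none
      · subst hq; rw [if_pos rfl, Pi.mulSingle_eq_same]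
      · rw [if_neg hq, Pi.mulSingle_eq_of_ne hq, one_mul]
    calc ∑ q ∈ B, lA ((aA A x * v).left q)
        ≤ ∑ q ∈ B, (lA (v.left q) + if q = none then 1 else 0) := by
          refine Finset.sum_le_sum ?_
          intro q _
          rw [e q]
          split_ifs
          · have := lmul x (v.left q)
            omega
          · omega
      _ = ∑ q ∈ B, lA (v.left q) + ∑ q ∈ B, (if q = none then 1 else 0) := Finset.sum_add_distrib
      _ ≤ _ := by
          rw [Finset.sum_ite_eq']
          split_ifs <;> omega
  have stepS : ∀ (σ : Equiv.Perm X) (v : Amb A) (B : Finset X),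
      ∑ q ∈ B, lA ((SemidirectProduct.inr σ * v).left q)
        = ∑ q ∈ B.image (σ⁻¹ : Equiv.Perm X), lA (v.left q) := by
    intro σ v B
    rw [Finset.sum_image (fun x _ y _ h => (Equiv.injective _) h)]
    refine Finset.sum_congr rfl ?_
    intro q _
    show lA ((1 : A) * v.left (σ⁻¹ q)) = _
    rw [one_mul]
  have key : ∀ B : Finset X, ∑ q ∈ B, lA ((Φ (φ w)).left q) ≤ w.norm := by
    refine free_induction (fun w n => ∀ B : Finset X, ∑ q ∈ B, lA ((Φ (φ w)).left q) ≤ n) ?_ ?_ w
    · intro B
      refine (Finset.sum_eq_zero ?_).le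
      intro q _
      rw [map_one, map_one]
      exact l1
    · intro k b w n ih B
      rcases hgen k with ⟨x, hx, hk⟩ | ⟨σ, hk⟩
      · cases b
        · simp only [Bool.false_eq_true, if_false, map_mul, map_inv]
          rw [hk, ← map_inv]
          exact (stepA x⁻¹ _ ((linv x).trans hx) B).trans (Nat.add_le_add_right (ih B) 1)
        · simp only [if_true, map_mul]
          rw [hk]
          exact (stepA x _ hx B).trans (Nat.add_le_add_right (ih B) 1)
      · cases b
        · simp only [Bool.false_eq_true, if_false, map_mul, map_inv]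
          rw [hk, ← map_inv, stepS]
          exact (ih _).trans (Nat.le_succ n)
        · simp only [if_true, map_mul]
          rw [hk, stepS]
          exact (ih _).trans (Nat.le_succ n)
  exact key B

end

end Pool.SpeedFP
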