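import Pool.Agent.SpeedFP.Measure

/-!
Asymptotics of the expected word length.
-/

set_option autoImplicit false
set_option linter.unusedSectionVars false

namespace Pool.SpeedFP

open Filter Topology

theorem affine_log_le (c c' δ : ℝ) (hδ : 0 < δ) :
    ∀ᶠ n : ℕ in atTop, c + c' * Real.log n ≤ (n : ℝ) ^ δ := by
  have h1 : (fun _ : ℝ => c) =o[atTop] fun x : ℝ => x ^ δ := by
    rw [Asymptotics.isLittleO_const_left]
    exact Or.inr (tendsto_norm_atTop_atTop.comp (tendsto_rpow_atTop hδ))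
  have h2 : (fun x : ℝ => c' * Real.log x) =o[atTop] fun x : ℝ => x ^ δ :=
    (isLittleO_log_rpow_atTop hδ).const_mul_left c'
  have h3 := (h1.add h2).bound (show (0 : ℝ) < 1 by norm_num)
  have h4 := tendsto_natCast_atTop_atTop (R := ℝ) |>.eventually h3
  filter_upwards [h4, eventually_ge_atTop 0] with n hn _
  have h5 : (0 : ℝ) ≤ (n : ℝ) ^ δ := Real.rpow_nonneg (Nat.cast_nonneg n) δ
  rw [Real.norm_eq_abs, Real.norm_eq_abs, one_mul, abs_of_nonneg h5] at hn
  exact (le_abs_self _).trans hn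

theorem log_ratio (E : ℕ → ℝ) (γ : ℝ)
    (h : ∀ δ : ℝ, 0 < δ → ∀ᶠ n : ℕ in atTop, (n : ℝ) ^ (γ - δ) ≤ E n ∧ E n ≤ (n : ℝ) ^ (γ + δ)) :
    Tendsto (fun n : ℕ => Real.log (E n) / Real.log (n : ℝ)) atTop (𝓝 γ) := by
  rw [Metric.tendsto_nhds]
  intro ε hε
  filter_upwards [h (ε / 2) (by linarith), eventually_ge_atTop 2] with n hn h2
  have hn1 : (1 : ℝ) < n := by exact_mod_cast h2
  have hn0 : (0 : ℝ) < n := by linarith
  have hl : 0 < Real.log n := Real.log_pos hn1
  have hp : 0 < (n : ℝ) ^ (γ - ε / 2) := Real.rpow_pos_of_pos hn0 _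
  have h3 := Real.log_le_log hp hn.1
  have h4 := Real.log_le_log (hp.trans_le hn.1) hn.2
  rw [Real.log_rpow hn0] at h3 h4
  rw [Real.dist_eq, abs_lt]
  constructor
  · rw [lt_sub_iff_add_lt, lt_div_iff₀ hl]
    nlinarith
  · rw [sub_lt_iff_lt_add, div_lt_iff₀ hl]
    nlinarith

theorem Lg_le (n : ℕ) (hn : 1 ≤ n) : Lg n ≤ (Real.log 16 + 1 / 2) + Real.log n := by
  unfold Lg
  have hn0 : (1 : ℝ) ≤ n := by exact_mod_cast hn
  have : Real.log (8 * ((n : ℝ) + 1)) ≤ Real.log (16 * n) :=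
    Real.log_le_log (by positivity) (by linarith)
  rw [Real.log_mul (show (16 : ℝ) ≠ 0 by norm_num) (show (n : ℝ) ≠ 0 by positivity)] at this
  linarith

theorem Lg_nonneg (n : ℕ) : 0 ≤ Lg n := by
  unfold Lg
  have : 0 ≤ Real.log (8 * ((n : ℝ) + 1)) := by
    refine Real.log_nonneg ?_
    have : (0 : ℝ) ≤ n := Nat.cast_nonneg n
    linarith
  linarith

theorem lg_le (n : ℕ) (hn : 1 ≤ n) :
    (lg (2 * n + 1) : ℝ) ≤ (Real.log 308 / Real.log 2 + 2) + (1 / Real.log 2) * Real.log n := by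
  have hn0 : (1 : ℝ) ≤ n := by exact_mod_cast hn
  have hl2 : 0 < Real.log 2 := Real.log_pos (by norm_num)
  unfold lg
  rw [← Real.natCeil_logb_natCast]
  push_cast
  have h0 : 0 ≤ Real.logb 2 (100 * (2 * (n : ℝ) + 1) + 8) := by
    refine Real.logb_nonneg (by norm_num) ?_
    linarith
  have h1 := (Nat.ceil_lt_add_one h0).le
  have h2 : Real.logb 2 (100 * (2 * (n : ℝ) + 1) + 8)
      ≤ (Real.log 308 + Real.log n) / Real.log 2 := by
    unfold Real.logb
    refine div_le_div_of_nonneg_right ?_ hl2.le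
    rw [← Real.log_mul (by norm_num) (by positivity)]
    exact Real.log_le_log (by positivity) (by linarith)
  have h3 : (Real.log 308 + Real.log n) / Real.log 2
      = Real.log 308 / Real.log 2 + (1 / Real.log 2) * Real.log n := by
    field_simp
  linarith

section
variable {n : ℕ} {rels : Finset (FreeGroup (Fin n))} {S : Finset (LA n rels)} {μ : LA n rels → ℝ}

theorem sqrt_rpow (m : ℕ) (x : ℝ) : (Real.sqrt m) ^ x = (m : ℝ) ^ (x / 2) := by
  rw [Real.sqrt_eq_rpow, ← Real.rpow_mul (Nat.cast_nonneg m)]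
  congr 1
  ring

theorem eA_zero : eA S μ 0 = 0 := by
  show ((wA (1 : LA n rels) : ℕ) : ℝ) = 0
  unfold wA
  rw [wl_one]
  simp

theorem upper_main (hμ : ∀ g, 0 ≤ μ g) (h1 : ∑ g ∈ S, μ g = 1) (C η : ℝ) (hC : 0 ≤ C)
    (hη0 : 0 < η) (hη1 : η ≤ 1) (ha : ∀ j : ℕ, 1 ≤ j → eA S μ j ≤ C * (j : ℝ) ^ η)
    (m : ℕ) (hm : 1 ≤ m) :
    Tt S μ m (eA S μ) ≤ (m : ℝ) ^ ((1 + η) / 2) * (C * (4 * Lg m + 6)) := by
  have hm1 : (1 : ℝ) ≤ m := by exact_mod_cast hm
  have hm0 : (0 : ℝ) < m := by linarith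
  set lam := Real.sqrt m with hlam
  have hl0 : 0 < lam := Real.sqrt_pos.2 hm0
  have hl1 : 1 ≤ lam := by
    rw [hlam]; exact Real.one_le_sqrt.2 hm1
  have hlsq : lam ^ (2 : ℕ) = m := Real.sq_sqrt hm0.le
  have hpt : ∀ j : ℕ, eA S μ j ≤ (C * lam ^ η) * (if j = 0 then 0 else 1)
      + (C * lam ^ (η - 1)) * (j : ℝ) := by
    intro j
    by_cases hj : j = 0
    · subst hj
      rw [eA_zero]
      simp
    · rw [if_neg hj]
      have hj1 : 1 ≤ j := Nat.one_le_iff_ne_zero.2 hj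
      have hj0 : (0 : ℝ) < j := by exact_mod_cast hj1
      refine (ha j hj1).trans ?_
      have : (j : ℝ) ^ η ≤ lam ^ η + lam ^ (η - 1) * j := by
        rcases le_total (j : ℝ) lam with h | h
        · have e1 := Real.rpow_le_rpow hj0.le h hη0.le
          have e2 : 0 ≤ lam ^ (η - 1) * j := by positivity
          linarith
        · have e1 : (j : ℝ) ^ (η - 1) ≤ lam ^ (η - 1) :=
            Real.rpow_le_rpow_of_nonpos hl0 h (by linarith)
          have e2 : (j : ℝ) ^ η = (j : ℝ) ^ (η - 1) * j := by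
            rw [← Real.rpow_add_one hj0.ne']; congr 1; ring
          rw [e2]
          have e3 := mul_le_mul_of_nonneg_right e1 hj0.le
          have e4 : 0 ≤ lam ^ η := by positivity
          linarith
      have := mul_le_mul_of_nonneg_left this hC
      linarith
  have h2 := Tt_mono (S := S) hμ m _ _ hpt
  rw [Tt_add, Tt_smul, Tt_smul, Tt_id hμ h1] at h2
  have h3 := Tt_ind (S := S) hμ h1 m hm
  have e1 : lam ^ η * lam = lam ^ (1 + η) := by
    rw [← Real.rpow_add_one hl0.ne']; congr 1; ring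
  have e2 : lam ^ (η - 1) * m = lam ^ (1 + η) := by
    rw [← hlsq, ← Real.rpow_natCast, ← Real.rpow_add hl0]; congr 1; push_cast; ring
  have e3 : lam ^ (1 + η) = (m : ℝ) ^ ((1 + η) / 2) := sqrt_rpow m (1 + η)
  have h4 : (C * lam ^ η) * Tt S μ m (fun j => if j = 0 then 0 else 1)
      ≤ (C * lam ^ η) * (4 * (lam * Lg m) + 5) := mul_le_mul_of_nonneg_left h3 (by positivity)
  have h5 : (C * lam ^ η) * (4 * (lam * Lg m) + 5) + (C * lam ^ (η - 1)) * ((m : ℝ) / 2)
      ≤ lam ^ (1 + η) * (C * (4 * Lg m + 6)) := by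
    have e4 : (C * lam ^ η) * (4 * (lam * Lg m) + 5) = C * (lam ^ η * lam) * (4 * Lg m)
        + 5 * (C * lam ^ η) := by ring
    have e5 : (C * lam ^ (η - 1)) * ((m : ℝ) / 2) = C * (lam ^ (η - 1) * m) / 2 := by ring
    rw [e4, e5, e1, e2]
    have e6 : lam ^ η ≤ lam ^ (1 + η) := Real.rpow_le_rpow_of_exponent_le hl1 (by linarith)
    have e7 := mul_le_mul_of_nonneg_left e6 hC
    have e8 : 0 ≤ C * lam ^ (1 + η) := by positivity
    nlinarith
  rw [← e3]
  linarith

theorem lower_main (hμ : ∀ g, 0 ≤ μ g) (h1 : ∑ g ∈ S, μ g = 1) (C β : ℝ) (hC : 0 ≤ C)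
    (hβ1 : β ≤ 1) (ha : ∀ j : ℕ, 1 ≤ j → (j : ℝ) ^ β - C ≤ eA S μ j)
    (m : ℕ) (hm : 1 ≤ m) :
    (336 : ℝ) ^ (β - 1) / 4 * (m : ℝ) ^ ((1 + β) / 2)
      - C * (4 * (Real.sqrt m * Lg m) + 5) ≤ Tt S μ m (eA S μ) := by
  have hm1 : (1 : ℝ) ≤ m := by exact_mod_cast hm
  have hm0 : (0 : ℝ) < m := by linarith
  set M := Nat.sqrt m + 1 with hM
  have hM1 : 1 ≤ M := by omega
  have hMm : m ≤ M * M := by
    have := Nat.lt_succ_sqrt m
    exact this.le
  have hs1 : 1 ≤ Real.sqrt m := Real.one_le_sqrt.2 hm1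
  have hM2 : (M : ℝ) ≤ 2 * Real.sqrt m := by
    have : (Nat.sqrt m : ℝ) ≤ Real.sqrt m := Real.nat_sqrt_le_real_sqrt
    rw [hM]; push_cast; linarith
  have hM0 : (0 : ℝ) < M := by exact_mod_cast hM1
  set lam : ℝ := 168 * M with hlam
  have hl0 : 0 < lam := by positivity
  have hpt : ∀ j : ℕ, (lam ^ (β - 1)) * (j : ℝ) + ((-lam ^ (β - 2)) * (j : ℝ) ^ 2
      + (-C) * (if j = 0 then 0 else 1)) ≤ eA S μ j := by
    intro j
    by_cases hj : j = 0
    · subst hj
      rw [eA_zero]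
      simp
    · rw [if_neg hj]
      have hj1 : 1 ≤ j := Nat.one_le_iff_ne_zero.2 hj
      have hj0 : (0 : ℝ) < j := by exact_mod_cast hj1
      refine le_trans ?_ (ha j hj1)
      have e1 : lam ^ (β - 1) = lam ^ (β - 2) * lam := by
        rw [← Real.rpow_add_one hl0.ne']; congr 1; ring
      have key : lam ^ (β - 1) * j - lam ^ (β - 2) * (j : ℝ) ^ 2 ≤ (j : ℝ) ^ β := by
        rcases le_total (j : ℝ) lam with h | h
        · have e2 : lam ^ (β - 1) ≤ (j : ℝ) ^ (β - 1) :=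
            Real.rpow_le_rpow_of_nonpos hj0 h (by linarith)
          have e3 : (j : ℝ) ^ β = (j : ℝ) ^ (β - 1) * j := by
            rw [← Real.rpow_add_one hj0.ne']; congr 1; ring
          rw [e3]
          have e4 := mul_le_mul_of_nonneg_right e2 hj0.le
          have e5 : 0 ≤ lam ^ (β - 2) * (j : ℝ) ^ 2 := by positivity
          linarith
        · rw [e1]
          have e2 : lam ^ (β - 2) * lam * j - lam ^ (β - 2) * (j : ℝ) ^ 2
              = (lam ^ (β - 2) * j) * (lam - j) := by ring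
          rw [e2]
          have e3 : (lam ^ (β - 2) * j) * (lam - j) ≤ 0 :=
            mul_nonpos_of_nonneg_of_nonpos (by positivity) (by linarith)
          have e4 : 0 ≤ (j : ℝ) ^ β := by positivity
          linarith
      linarith
  have h2 := Tt_mono (S := S) hμ m _ _ hpt
  rw [Tt_add, Tt_add, Tt_smul, Tt_smul, Tt_smul, Tt_id hμ h1] at h2
  have h3 := Tt_ind (S := S) hμ h1 m hm
  have h4 := Tt_sq (S := S) hμ h1 m M hM1 hMm
  have h5 : C * Tt S μ m (fun j => if j = 0 then 0 else 1)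
      ≤ C * (4 * (Real.sqrt m * Lg m) + 5) := mul_le_mul_of_nonneg_left h3 hC
  have h6 : lam ^ (β - 2) * Tt S μ m (fun j => (j : ℝ) ^ 2) ≤ lam ^ (β - 2) * (42 * m * M) :=
    mul_le_mul_of_nonneg_left h4 (by positivity)
  have h7 : lam ^ (β - 2) * (42 * m * M) = lam ^ (β - 1) * (m / 4) := by
    have e1 : lam ^ (β - 1) = lam ^ (β - 2) * lam := by
      rw [← Real.rpow_add_one hl0.ne']; congr 1; ring
    rw [e1, hlam]; ring
  have h8 : (336 : ℝ) ^ (β - 1) / 4 * (m : ℝ) ^ ((1 + β) / 2) ≤ lam ^ (β - 1) * (m / 4) := by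
    have e1 : (336 * Real.sqrt m) ^ (β - 1) ≤ lam ^ (β - 1) :=
      Real.rpow_le_rpow_of_nonpos hl0 (by rw [hlam]; linarith) (by linarith)
    rw [Real.mul_rpow (by norm_num) (by positivity), sqrt_rpow] at e1
    have e2 : (m : ℝ) ^ ((1 + β) / 2) = (m : ℝ) ^ ((β - 1) / 2) * m := by
      rw [← Real.rpow_add_one hm0.ne']; congr 1; ring
    rw [e2]
    have e3 := mul_le_mul_of_nonneg_right e1 (show (0 : ℝ) ≤ (m : ℝ) / 4 by positivity)
    linarith
  linarith

/-- Main asymptotic statement. -/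
theorem main_asym (hμ : ∀ g, 0 ≤ μ g) (h1 : ∑ g ∈ S, μ g = 1) (β : ℝ) (hβ : 0 < β)
    (hlim : Tendsto (fun j : ℕ => Real.log (eA S μ j) / Real.log (j : ℝ)) atTop (𝓝 β)) :
    Tendsto (fun m : ℕ => Real.log (eG S μ m) / Real.log (m : ℝ)) atTop (𝓝 ((1 + β) / 2)) := by
  have hapos : ∀ j, 0 ≤ eA S μ j := fun j =>
    Eg_nonneg S μ hμ j _ (fun g => Nat.cast_nonneg _)
  -- linear bound
  obtain ⟨C0, hC0⟩ : ∃ C0 : ℕ, ∀ j : ℕ, eA S μ j ≤ C0 * j := by
    refine ⟨S.sup wA, ?_⟩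
    intro j
    have := Eg_le_linear S μ hμ h1 (wA (n := n) (rels := rels)) (wl_mul_le surjA) (S.sup wA)
      (fun g hg => Finset.le_sup (f := wA) hg) j (fun g => (wA g : ℝ)) 0 (fun g => by simp)
    have e : wA (1 : LA n rels) = 0 := wl_one
    rw [e] at this
    simpa [eA] using this
  have hlt := fun (ε : ℝ) (hε : 0 < ε) => (Metric.tendsto_nhds.1 hlim) ε hε
  -- eventual power bounds for `a`
  have hlow : ∀ b : ℝ, 0 < b → b < β → ∀ᶠ j : ℕ in atTop, (j : ℝ) ^ b ≤ eA S μ j := by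
    intro b hb0 hb
    filter_upwards [hlt (β - b) (by linarith), eventually_ge_atTop 2] with j hj h2
    have hj1 : (1 : ℝ) < j := by exact_mod_cast h2
    have hj0 : (0 : ℝ) < j := by linarith
    have hl : 0 < Real.log j := Real.log_pos hj1
    rw [Real.dist_eq, abs_lt] at hj
    have h3 : b < Real.log (eA S μ j) / Real.log j := by linarith [hj.1]
    rw [lt_div_iff₀ hl] at h3
    have h4 : 0 < Real.log (eA S μ j) := lt_trans (by positivity) h3
    have h5 : 0 < eA S μ j := by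
      rcases (hapos j).lt_or_eq with h | h
      · exact h
      · rw [← h, Real.log_zero] at h4
        exact absurd h4 (lt_irrefl _)
    rw [← Real.log_rpow hj0] at h3
    exact ((Real.log_lt_log_iff (Real.rpow_pos_of_pos hj0 _) h5).1 h3).le
  have hupp : ∀ b : ℝ, β < b → ∀ᶠ j : ℕ in atTop, eA S μ j ≤ (j : ℝ) ^ b := by
    intro b hb
    filter_upwards [hlt (b - β) (by linarith), eventually_ge_atTop 2] with j hj h2
    have hj1 : (1 : ℝ) < j := by exact_mod_cast h2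
    have hj0 : (0 : ℝ) < j := by linarith
    have hl : 0 < Real.log j := Real.log_pos hj1
    rw [Real.dist_eq, abs_lt] at hj
    have h3 : Real.log (eA S μ j) / Real.log j < b := by linarith [hj.2]
    rw [div_lt_iff₀ hl, ← Real.log_rpow hj0] at h3
    rcases (hapos j).lt_or_eq with h | h
    · exact ((Real.log_lt_log_iff h (Real.rpow_pos_of_pos hj0 _)).1 h3).le
    · rw [← h]; positivity
  -- `β ≤ 1`
  have hβ1 : β ≤ 1 := by
    by_contra hcon
    push Not at hcon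
    have h2 := hlow ((1 + β) / 2) (by linarith) (by linarith)
    have h3 := affine_log_le (C0 + 1) 0 ((β - 1) / 2) (by linarith)
    obtain ⟨j, ⟨hj2, hj3⟩, hj4⟩ := ((h2.and h3).and (eventually_ge_atTop 1)).exists
    have hj1 : (1 : ℝ) ≤ j := by exact_mod_cast hj4
    have hj0 : (0 : ℝ) < j := by linarith
    have e1 : (j : ℝ) ^ ((1 + β) / 2) = (j : ℝ) ^ ((β - 1) / 2) * j := by
      rw [← Real.rpow_add_one hj0.ne']; congr 1; ring
    have e2 := hC0 j
    rw [e1] at hj2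
    rw [zero_mul, add_zero] at hj3
    nlinarith
  refine log_ratio _ _ ?_
  intro δ hδ
  -- lower bound
  have hL : ∀ᶠ m : ℕ in atTop, (m : ℝ) ^ ((1 + β) / 2 - δ) ≤ eG S μ m := by
    set b := max (β / 2) (β - δ) with hb
    have hb0 : 0 < b := lt_of_lt_of_le (by linarith) (le_max_left _ _)
    have hbβ : b < β := max_lt (by linarith) (by linarith)
    have hb1 : b ≤ 1 := by linarith
    obtain ⟨j0, hj0⟩ := eventually_atTop.1 (hlow b hb0 hbβ)
    set C : ℝ := (j0 : ℝ) ^ b with hC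
    have hC0' : 0 ≤ C := by positivity
    have ha : ∀ j : ℕ, 1 ≤ j → (j : ℝ) ^ b - C ≤ eA S μ j := by
      intro j hj
      rcases le_total j0 j with h | h
      · linarith [hj0 j h]
      · have : (j : ℝ) ^ b ≤ (j0 : ℝ) ^ b :=
          Real.rpow_le_rpow (Nat.cast_nonneg j) (by exact_mod_cast h) hb0.le
        linarith [hapos j]
    set κ : ℝ := (336 : ℝ) ^ (b - 1) with hκ
    have hκ0 : 0 < κ := by positivity
    have ev1 := affine_log_le ((8 / κ) * (C * (4 * (Real.log 16 + 1 / 2) + 5)))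
      ((8 / κ) * (C * 4)) (b / 2) (by linarith)
    have ev2 := affine_log_le (8 / κ) 0 (δ / 2) (by linarith)
    filter_upwards [ev1, ev2, eventually_ge_atTop 1] with m h2 h3 hm
    have hm1 : (1 : ℝ) ≤ m := by exact_mod_cast hm
    have hm0 : (0 : ℝ) < m := by linarith
    refine le_trans ?_ (eG_lower hμ h1 m)
    refine le_trans ?_ (lower_main hμ h1 C b hC0' hb1 ha m hm)
    rw [← hκ]
    have hs1 : 1 ≤ Real.sqrt m := Real.one_le_sqrt.2 hm1
    have e1 : C * (4 * (Real.sqrt m * Lg m) + 5) ≤ κ / 8 * (m : ℝ) ^ ((1 + b) / 2) := by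
      have e2 := Lg_le m hm
      have e3 : C * (4 * (Real.sqrt m * Lg m) + 5)
          ≤ Real.sqrt m * (C * (4 * (Real.log 16 + 1 / 2) + 5) + C * 4 * Real.log m) := by
        have e4 : 4 * (Real.sqrt m * Lg m) + 5 ≤ Real.sqrt m * (4 * Lg m + 5) := by nlinarith
        have e5 : Real.sqrt m * (4 * Lg m + 5)
            ≤ Real.sqrt m * (4 * ((Real.log 16 + 1 / 2) + Real.log m) + 5) :=
          mul_le_mul_of_nonneg_left (by linarith) (by positivity)
        have e6 := mul_le_mul_of_nonneg_left (e4.trans e5) hC0'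
        linarith
      refine e3.trans ?_
      have e7 : C * (4 * (Real.log 16 + 1 / 2) + 5) + C * 4 * Real.log m
          ≤ κ / 8 * (m : ℝ) ^ (b / 2) := by
        have e8 := mul_le_mul_of_nonneg_left h2 (show 0 ≤ κ / 8 by positivity)
        have e9 : κ / 8 * (8 / κ * (C * (4 * (Real.log 16 + 1 / 2) + 5))
            + 8 / κ * (C * 4) * Real.log m)
            = C * (4 * (Real.log 16 + 1 / 2) + 5) + C * 4 * Real.log m := by
          field_simp
        rwa [e9] at e8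
      have e10 := mul_le_mul_of_nonneg_left e7 (show 0 ≤ Real.sqrt m by positivity)
      refine e10.trans (le_of_eq ?_)
      rw [Real.sqrt_eq_rpow]
      have : (m : ℝ) ^ ((1 + b) / 2) = (m : ℝ) ^ ((1 : ℝ) / 2) * (m : ℝ) ^ (b / 2) := by
        rw [← Real.rpow_add hm0]; congr 1; ring
      rw [this]; ring
    have e11 : (m : ℝ) ^ ((1 + β) / 2 - δ) ≤ κ / 8 * (m : ℝ) ^ ((1 + b) / 2) := by
      rw [zero_mul, add_zero] at h3
      have e12 : 1 ≤ κ / 8 * (m : ℝ) ^ (δ / 2) := by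
        have := mul_le_mul_of_nonneg_left h3 (show 0 ≤ κ / 8 by positivity)
        have e13 : κ / 8 * (8 / κ) = 1 := by field_simp
        rwa [e13] at this
      have e14 : (m : ℝ) ^ ((1 + β) / 2 - δ) ≤ (m : ℝ) ^ ((1 + b) / 2 - δ / 2) := by
        refine Real.rpow_le_rpow_of_exponent_le hm1 ?_
        have : β - δ ≤ b := le_max_right _ _
        linarith
      refine e14.trans ?_
      have e15 : 0 ≤ (m : ℝ) ^ ((1 + b) / 2 - δ / 2) := by positivity
      calc (m : ℝ) ^ ((1 + b) / 2 - δ / 2)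
          ≤ (m : ℝ) ^ ((1 + b) / 2 - δ / 2) * (κ / 8 * (m : ℝ) ^ (δ / 2)) :=
            le_mul_of_one_le_right e15 e12
        _ = κ / 8 * ((m : ℝ) ^ ((1 + b) / 2 - δ / 2) * (m : ℝ) ^ (δ / 2)) := by ring
        _ = κ / 8 * (m : ℝ) ^ ((1 + b) / 2) := by
            rw [← Real.rpow_add hm0]; congr 2; ring
    linarith
  -- upper bound
  have hU : ∀ᶠ m : ℕ in atTop, eG S μ m ≤ (m : ℝ) ^ ((1 + β) / 2 + δ) := by
    obtain ⟨η, C, hη0, hη1, hηβ, hC, ha⟩ : ∃ η C : ℝ, 0 < η ∧ η ≤ 1 ∧ η ≤ β + δ ∧ 0 ≤ C ∧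
        ∀ j : ℕ, 1 ≤ j → eA S μ j ≤ C * (j : ℝ) ^ η := by
      by_cases hc : β + δ ≤ 1
      · obtain ⟨j0, hj0⟩ := eventually_atTop.1 (hupp (β + δ) (by linarith))
        refine ⟨β + δ, max 1 (C0 * j0), by linarith, hc, le_rfl, by positivity, ?_⟩
        intro j hj
        have hj1 : (1 : ℝ) ≤ j := by exact_mod_cast hj
        have hp : 1 ≤ (j : ℝ) ^ (β + δ) := Real.one_le_rpow hj1 (by linarith)
        rcases le_total j0 j with h | h
        · refine (hj0 j h).trans ?_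
          exact le_mul_of_one_le_left (by positivity) (le_max_left _ _)
        · have e1 : (C0 : ℝ) * j ≤ C0 * j0 :=
            mul_le_mul_of_nonneg_left (by exact_mod_cast h) (Nat.cast_nonneg _)
          have e2 : (C0 : ℝ) * j0 ≤ max 1 (C0 * j0 : ℝ) := le_max_right _ _
          have e3 : 0 ≤ max 1 (C0 * j0 : ℝ) := by positivity
          calc eA S μ j ≤ C0 * j := hC0 j
            _ ≤ max 1 (C0 * j0 : ℝ) := e1.trans e2
            _ ≤ max 1 (C0 * j0 : ℝ) * (j : ℝ) ^ (β + δ) := le_mul_of_one_le_right e3 hp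
      · refine ⟨1, C0, one_pos, le_rfl, by linarith, Nat.cast_nonneg _, ?_⟩
        intro j _
        rw [Real.rpow_one]
        exact hC0 j
    have hl2 : 0 < Real.log 2 := Real.log_pos (by norm_num)
    have ev1 := affine_log_le (4 * (Real.log 16 + 1 / 2) + 6) 4 (δ / 4) (by linarith)
    have ev2 := affine_log_le (C + 2016 * (Real.log 308 / Real.log 2 + 2))
      (2016 * (1 / Real.log 2)) (δ / 4) (by linarith)
    filter_upwards [ev1, ev2, eventually_ge_atTop 1] with m h2 h3 hm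
    have hm1 : (1 : ℝ) ≤ m := by exact_mod_cast hm
    have hm0 : (0 : ℝ) < m := by linarith
    have hs1 : 1 ≤ Real.sqrt m := Real.one_le_sqrt.2 hm1
    have e1 := eG_upper hμ h1 m hm
    have e2 := upper_main hμ h1 C η hC hη0 hη1 ha m hm
    have e3 := Lg_le m hm
    have e4 := lg_le m hm
    have e5 := Lg_nonneg m
    set P := (m : ℝ) ^ ((1 + η) / 2) with hP
    have hsP : Real.sqrt m ≤ P := by
      rw [Real.sqrt_eq_rpow, hP]
      exact Real.rpow_le_rpow_of_exponent_le hm1 (by linarith)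
    have hP0 : 0 ≤ P := by positivity
    set ℓ : ℝ := (lg (2 * m + 1) : ℝ) with hℓ
    have hℓ0 : 0 ≤ ℓ := Nat.cast_nonneg _
    have e6 : (2016 * ℓ) * (Real.sqrt m * Lg m + 1) ≤ P * ((2016 * ℓ) * (4 * Lg m + 6)) := by
      have e7 : Real.sqrt m * Lg m + 1 ≤ P * (4 * Lg m + 6) := by nlinarith
      have := mul_le_mul_of_nonneg_left e7 (show 0 ≤ 2016 * ℓ by positivity)
      linarith
    have e8 : eG S μ m ≤ P * ((C + 2016 * ℓ) * (4 * Lg m + 6)) := by linarith
    have e9 : 4 * Lg m + 6 ≤ (m : ℝ) ^ (δ / 4) := by linarith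
    have e10 : C + 2016 * ℓ ≤ (m : ℝ) ^ (δ / 4) := by linarith
    have e11 : (C + 2016 * ℓ) * (4 * Lg m + 6) ≤ (m : ℝ) ^ (δ / 4) * (m : ℝ) ^ (δ / 4) :=
      mul_le_mul e10 e9 (by positivity) (by positivity)
    rw [← Real.rpow_add hm0] at e11
    have e12 := mul_le_mul_of_nonneg_left e11 hP0
    rw [hP, ← Real.rpow_add hm0] at e12
    refine (e8.trans e12).trans ?_
    exact Real.rpow_le_rpow_of_exponent_le hm1 (by linarith)
  exact hL.and hU

end

end Pool.SpeedFP
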