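import Pool.Agent.SpeedFP.Asym

/-!
The base case: simple random walk on the integers, presented as the free group of rank one.
-/

set_option autoImplicit false
set_option linter.unusedSectionVars false

namespace Pool.SpeedFP

open Filter Topology

/-- Simple random walk on the integers. -/
noncomputable def EZ : ℕ → (ℤ → ℝ) → ℝ
  | 0, F => F 0
  | n + 1, F => 1 / 2 * EZ n (fun s => F (1 + s)) + 1 / 2 * EZ n (fun s => F (-1 + s))

theorem EZ_mono (n : ℕ) : ∀ F H : ℤ → ℝ, (∀ s, F s ≤ H s) → EZ n F ≤ EZ n H := by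
  induction n with
  | zero => intro F H h; exact h 0
  | succ n ih =>
    intro F H h
    have h1 := ih (fun s => F (1 + s)) (fun s => H (1 + s)) (fun s => h _)
    have h2 := ih (fun s => F (-1 + s)) (fun s => H (-1 + s)) (fun s => h _)
    simp only [EZ]
    linarith

theorem EZ_lin (n : ℕ) (a b : ℝ) : ∀ F H : ℤ → ℝ,
    EZ n (fun s => a * F s + b * H s) = a * EZ n F + b * EZ n H := by
  induction n with
  | zero => intro F H; rfl
  | succ n ih =>
    intro F H
    simp only [EZ]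
    rw [ih (fun s => F (1 + s)) (fun s => H (1 + s)),
      ih (fun s => F (-1 + s)) (fun s => H (-1 + s))]
    ring

theorem EZ_const (n : ℕ) (c : ℝ) : EZ n (fun _ => c) = c := by
  induction n with
  | zero => rfl
  | succ n ih => simp only [EZ]; rw [ih]; ring

theorem EZ_sq (n : ℕ) : ∀ x : ℤ, EZ n (fun s => ((x + s : ℤ) : ℝ) ^ 2) = (x : ℝ) ^ 2 + n := by
  induction n with
  | zero => intro x; simp [EZ]
  | succ n ih =>
    intro x
    simp only [EZ]
    have e1 : (fun s : ℤ => ((x + (1 + s) : ℤ) : ℝ) ^ 2) = fun s => (((x + 1) + s : ℤ) : ℝ) ^ 2 := by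
      funext s; congr 2; ring
    have e2 : (fun s : ℤ => ((x + (-1 + s) : ℤ) : ℝ) ^ 2)
        = fun s => (((x + -1) + s : ℤ) : ℝ) ^ 2 := by
      funext s; congr 2; ring
    rw [e1, e2, ih, ih]
    push_cast
    ring

theorem EZ_four (n : ℕ) : ∀ x : ℤ, EZ n (fun s => ((x + s : ℤ) : ℝ) ^ 4)
    = (x : ℝ) ^ 4 + 6 * (x : ℝ) ^ 2 * n + 3 * (n : ℝ) ^ 2 - 2 * n := by
  induction n with
  | zero => intro x; simp [EZ]
  | succ n ih =>
    intro x
    simp only [EZ]
    have e1 : (fun s : ℤ => ((x + (1 + s) : ℤ) : ℝ) ^ 4) = fun s => (((x + 1) + s : ℤ) : ℝ) ^ 4 := by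
      funext s; congr 2; ring
    have e2 : (fun s : ℤ => ((x + (-1 + s) : ℤ) : ℝ) ^ 4)
        = fun s => (((x + -1) + s : ℤ) : ℝ) ^ 4 := by
      funext s; congr 2; ring
    rw [e1, e2, ih, ih]
    push_cast
    ring

theorem EZ_abs_upper (n : ℕ) (hn : 1 ≤ n) : EZ n (fun s => |(s : ℝ)|) ≤ Real.sqrt n := by
  have hn0 : (0 : ℝ) < n := by exact_mod_cast hn
  set lam := Real.sqrt n with hlam
  have hl0 : 0 < lam := Real.sqrt_pos.2 hn0
  have hsq : lam * lam = n := Real.mul_self_sqrt hn0.le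
  have hpt : ∀ s : ℤ, |(s : ℝ)| ≤ (1 / (2 * lam)) * ((0 + s : ℤ) : ℝ) ^ 2 + (lam / 2) * 1 := by
    intro s
    rw [zero_add]
    have h1 : (0 : ℝ) ≤ (|(s : ℝ)| - lam) ^ 2 := sq_nonneg _
    have h2 : |(s : ℝ)| ^ 2 = (s : ℝ) ^ 2 := sq_abs _
    have h3 : (1 / (2 * lam)) * (s : ℝ) ^ 2 + (lam / 2) * 1 - |(s : ℝ)|
        = (1 / (2 * lam)) * (|(s : ℝ)| - lam) ^ 2 := by
      rw [sub_sq, h2]; field_simp; ring
    have h4 : 0 ≤ (1 / (2 * lam)) * (|(s : ℝ)| - lam) ^ 2 := by positivity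
    linarith
  have h := EZ_mono n _ _ hpt
  rw [EZ_lin n (1 / (2 * lam)) (lam / 2) (fun s => ((0 + s : ℤ) : ℝ) ^ 2) (fun _ => 1),
    EZ_sq, EZ_const] at h
  have e : 1 / (2 * lam) * (((0 : ℤ) : ℝ) ^ 2 + n) + lam / 2 * 1 = lam := by
    rw [← hsq]; field_simp; push_cast; ring
  rw [e] at h
  exact h

theorem EZ_abs_lower (n : ℕ) (hn : 1 ≤ n) : Real.sqrt n / 8 ≤ EZ n (fun s => |(s : ℝ)|) := by
  have hn0 : (0 : ℝ) < n := by exact_mod_cast hn
  set r := Real.sqrt n with hr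
  have hr0 : 0 < r := Real.sqrt_pos.2 hn0
  have hsq : r * r = n := Real.mul_self_sqrt hn0.le
  have hpt : ∀ s : ℤ, (1 / (2 * r)) * ((0 + s : ℤ) : ℝ) ^ 2
      + (-(1 / (8 * r ^ 3))) * ((0 + s : ℤ) : ℝ) ^ 4 ≤ |(s : ℝ)| := by
    intro s
    rw [zero_add]
    set y := |(s : ℝ)| / (2 * r) with hy
    have hy0 : 0 ≤ y := by positivity
    have h1 : |(s : ℝ)| = 2 * r * y := by rw [hy]; field_simp
    have h2 : (s : ℝ) ^ 2 = (2 * r * y) ^ 2 := by rw [← h1, sq_abs]
    have h3 : (s : ℝ) ^ 4 = (2 * r * y) ^ 4 := by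
      have : (s : ℝ) ^ 4 = ((s : ℝ) ^ 2) ^ 2 := by ring
      rw [this, h2]; ring
    rw [h2, h3, h1]
    have h4 : 1 / (2 * r) * (2 * r * y) ^ 2 + -(1 / (8 * r ^ 3)) * (2 * r * y) ^ 4
        = 2 * r * (y ^ 2 - y ^ 4) := by field_simp; ring
    rw [h4]
    have h5 : y ^ 2 - y ^ 4 ≤ y := by
      have : y - y ^ 2 + y ^ 4 = y * (1 - y + y ^ 3) := by ring
      have h6 : 0 ≤ 1 - y + y ^ 3 := by
        nlinarith [sq_nonneg (y - 1), sq_nonneg y, mul_nonneg hy0 (sq_nonneg (y - 1))]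
      nlinarith [mul_nonneg hy0 h6]
    have := mul_le_mul_of_nonneg_left h5 (show 0 ≤ 2 * r by positivity)
    linarith
  have h := EZ_mono n _ _ hpt
  rw [EZ_lin n (1 / (2 * r)) (-(1 / (8 * r ^ 3))) (fun s => ((0 + s : ℤ) : ℝ) ^ 2)
    (fun s => ((0 + s : ℤ) : ℝ) ^ 4), EZ_sq, EZ_four] at h
  refine le_trans ?_ h
  rw [← hsq]
  push_cast
  have e : 1 / (2 * r) * (0 ^ 2 + r * r) + -(1 / (8 * r ^ 3)) * (0 ^ 4 + 6 * 0 ^ 2 * (r * r)
      + 3 * (r * r) ^ 2 - 2 * (r * r)) = r / 8 + 1 / (4 * r) := by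
    field_simp; ring
  rw [e]
  have : 0 < 1 / (4 * r) := by positivity
  linarith

/-- The infinite cyclic group, presented. -/
abbrev ZZ : Type := LA 1 ∅

/-- The generator. -/
noncomputable def zg : ZZ := PresentedGroup.of 0

/-- The degree. -/
noncomputable def deg : ZZ →* Multiplicative ℤ :=
  PresentedGroup.toGroup (f := fun _ => Multiplicative.ofAdd (1 : ℤ)) (by
    intro r hr
    simp at hr)

theorem deg_zg : deg zg = Multiplicative.ofAdd (1 : ℤ) := PresentedGroup.toGroup.of _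

/-- The degree as an integer. -/
noncomputable def dg (g : ZZ) : ℤ := Multiplicative.toAdd (deg g)

theorem dg_mul (g h : ZZ) : dg (g * h) = dg g + dg h := by
  unfold dg
  rw [map_mul, toAdd_mul]

theorem dg_one : dg 1 = 0 := by
  unfold dg
  rw [map_one, toAdd_one]

theorem dg_inv (g : ZZ) : dg g⁻¹ = -dg g := by
  unfold dg
  rw [map_inv, toAdd_inv]

theorem dg_zg : dg zg = 1 := by
  unfold dg
  rw [deg_zg]
  rfl

theorem eq_zpow (g : ZZ) : g = zg ^ dg g := by
  have h : g ∈ Subgroup.zpowers zg := by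
    refine PresentedGroup.generated_by _ _ ?_ g
    intro j
    obtain rfl : j = 0 := Subsingleton.elim _ _
    exact Subgroup.mem_zpowers zg
  obtain ⟨k, rfl⟩ := Subgroup.mem_zpowers_iff.1 h
  congr 1
  have : dg (zg ^ k) = k := by
    unfold dg
    rw [map_zpow, deg_zg, ← ofAdd_zsmul, toAdd_ofAdd]
    simp
  exact this.symm

theorem wA_eq (g : ZZ) : (wA g : ℝ) = |(dg g : ℝ)| := by
  apply le_antisymm
  · have h1 : ∀ k : ℤ, (wA (zg ^ k) : ℤ) ≤ |k| := by
      intro k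
      induction k using Int.induction_on with
      | zero =>
        rw [zpow_zero]
        unfold wA
        rw [wl_one]
        simp
      | succ n ih =>
        have h2 : wA (zg ^ ((n : ℤ) + 1)) ≤ wA (zg ^ (n : ℤ)) + wA zg := by
          rw [zpow_add, zpow_one]
          exact wl_mul_le surjA _ _
        have h3 : wA zg ≤ 1 := wl_of_le (φ := PresentedGroup.mk _) (0 : Fin 1)
        rw [abs_of_nonneg (by positivity)] at ih ⊢
        have h4 : (wA (zg ^ ((n : ℤ) + 1)) : ℤ) ≤ wA (zg ^ (n : ℤ)) + wA zg := by exact_mod_cast h2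
        have h5 : (wA zg : ℤ) ≤ 1 := by exact_mod_cast h3
        linarith
      | pred n ih =>
        have h2 : wA (zg ^ (-(n : ℤ) - 1)) ≤ wA (zg ^ (-(n : ℤ))) + wA zg⁻¹ := by
          rw [zpow_sub, zpow_one]
          exact wl_mul_le surjA _ _
        have h3 : wA zg⁻¹ ≤ wA zg := wl_inv_le surjA _
        have h3' : wA zg ≤ 1 := wl_of_le (φ := PresentedGroup.mk _) (0 : Fin 1)
        rw [abs_of_nonpos (by linarith [Int.natCast_nonneg n])] at ih ⊢
        have h4 : (wA (zg ^ (-(n : ℤ) - 1)) : ℤ) ≤ wA (zg ^ (-(n : ℤ))) + wA zg⁻¹ := by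
          exact_mod_cast h2
        have h5 : (wA zg⁻¹ : ℤ) ≤ 1 := by exact_mod_cast h3.trans h3'
        linarith
    have h2 := h1 (dg g)
    rw [← eq_zpow g] at h2
    have h3 : ((wA g : ℤ) : ℝ) ≤ ((|dg g| : ℤ) : ℝ) := by exact_mod_cast h2
    rw [Int.cast_abs] at h3
    exact_mod_cast h3
  · have := le_wl (φ := PresentedGroup.mk ((∅ : Finset (FreeGroup (Fin 1))) :
      Set (FreeGroup (Fin 1)))) surjA (fun g : ZZ => |(dg g : ℝ)|) (by
        simp [dg_one]) (by
        intro a g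
        obtain rfl : a = 0 := Subsingleton.elim _ _
        have e1 : dg (zg * g) = 1 + dg g := by rw [dg_mul, dg_zg]
        have e2 : dg (zg⁻¹ * g) = -1 + dg g := by rw [dg_mul, dg_inv, dg_zg]
        constructor
        · show |((dg (zg * g) : ℤ) : ℝ)| ≤ _
          rw [e1]
          push_cast
          refine (abs_add_le _ _).trans ?_
          rw [abs_one]
          linarith
        · show |((dg (zg⁻¹ * g) : ℤ) : ℝ)| ≤ _
          rw [e2]
          push_cast
          refine (abs_add_le _ _).trans ?_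
          rw [abs_neg, abs_one]
          linarith) g
    exact this

open scoped Classical in
/-- Step distribution. -/
noncomputable def muZ (g : ZZ) : ℝ := if g = zg ∨ g = zg⁻¹ then 1 / 2 else 0

open scoped Classical in
/-- Support. -/
noncomputable def SZ : Finset ZZ := {zg, zg⁻¹}

theorem zg_ne : zg ≠ zg⁻¹ := by
  intro h
  have := congrArg dg h
  rw [dg_inv, dg_zg] at this
  omega

theorem sum_SZ (F : ZZ → ℝ) : ∑ g ∈ SZ, muZ g * F g = 1 / 2 * F zg + 1 / 2 * F zg⁻¹ := by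
  classical
  have : (SZ : Finset ZZ) = {zg, zg⁻¹} := by
    unfold SZ
    congr
  rw [this, Finset.sum_pair zg_ne]
  unfold muZ
  rw [if_pos (Or.inl rfl), if_pos (Or.inr rfl)]

theorem Eg_Z (n : ℕ) : ∀ F : ℤ → ℝ, Eg SZ muZ n (fun g => F (dg g)) = EZ n F := by
  induction n with
  | zero =>
    intro F
    show F (dg 1) = F 0
    rw [dg_one]
  | succ n ih =>
    intro F
    show ∑ g ∈ SZ, muZ g * Eg SZ muZ n (fun h => F (dg (g * h))) = _
    rw [sum_SZ]
    simp only [EZ]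
    have e1 : (fun h => F (dg (zg * h))) = fun h => (fun s => F (1 + s)) (dg h) := by
      funext h; rw [dg_mul, dg_zg]
    have e2 : (fun h => F (dg (zg⁻¹ * h))) = fun h => (fun s => F (-1 + s)) (dg h) := by
      funext h; rw [dg_mul, dg_inv, dg_zg]
    rw [e1, e2, ih (fun s => F (1 + s)), ih (fun s => F (-1 + s))]

theorem eA_Z (n : ℕ) : eA SZ muZ n = EZ n (fun s => |(s : ℝ)|) := by
  unfold eA
  rw [← Eg_Z]
  congr 1
  funext g
  exact wA_eq g

theorem tendsto_Z :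
    Tendsto (fun m : ℕ => Real.log (eA SZ muZ m) / Real.log (m : ℝ)) atTop (𝓝 (1 / 2)) := by
  refine log_ratio _ _ ?_
  intro δ hδ
  have ev := affine_log_le 8 0 δ hδ
  filter_upwards [ev, eventually_ge_atTop 1] with m h1 hm
  have hm1 : (1 : ℝ) ≤ m := by exact_mod_cast hm
  have hm0 : (0 : ℝ) < m := by linarith
  rw [zero_mul, add_zero] at h1
  rw [eA_Z]
  constructor
  · refine le_trans ?_ (EZ_abs_lower m hm)
    rw [Real.sqrt_eq_rpow, Real.rpow_sub hm0]
    exact div_le_div_of_nonneg_left (by positivity) (by norm_num) h1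
  · refine (EZ_abs_upper m hm).trans ?_
    rw [Real.sqrt_eq_rpow]
    exact Real.rpow_le_rpow_of_exponent_le hm1 (by linarith)

end Pool.SpeedFP
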