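import Mathlib

/-!
Attained speed exponents of finitely presented groups.
-/

set_option autoImplicit false

namespace Pool.SpeedFP

/-- `β` is an attained exponent: there are a finite presentation (`n` generators, finitely many
relators `rels`) and a symmetric probability measure `μ` with finite support `S` that generates
the presented group, such that the logarithm of the expected word length (with respect to the `n`
generators) of the `m`-th position of the random walk with step distribution `μ`, divided by
`log m`, tends to `β`. -/
def Attained (β : ℝ) : Prop :=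
  ∃ (n : ℕ) (rels : Finset (FreeGroup (Fin n)))
    (μ : PresentedGroup (rels : Set (FreeGroup (Fin n))) → ℝ)
    (S : Finset (PresentedGroup (rels : Set (FreeGroup (Fin n))))),
    (∀ g, 0 ≤ μ g) ∧ (∀ g, g ∉ S → μ g = 0) ∧ (∑ g ∈ S, μ g = 1) ∧
    (∀ g, μ g⁻¹ = μ g) ∧
    Subgroup.closure {g : PresentedGroup (rels : Set (FreeGroup (Fin n))) | 0 < μ g} = ⊤ ∧
    Filter.Tendsto
      (fun m : ℕ =>
        Real.log (∑ s : Fin m → S, (∏ i, μ (s i)) *
          ((sInf {k : ℕ | ∃ w : FreeGroup (Fin n),
              PresentedGroup.mk (rels : Set (FreeGroup (Fin n))) w =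
                (List.ofFn (fun i => ((s i : PresentedGroup (rels : Set (FreeGroup (Fin n))))))).prod ∧
              w.toWord.length = k} : ℕ) : ℝ)) / Real.log (m : ℝ))
      Filter.atTop (nhds β)

end Pool.SpeedFP
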