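import Pool.Agent.SpeedFP.Final

/-!
The exponents `1 - 2 ^ (-k)` are attained on finitely presented groups.
-/

set_option autoImplicit false

namespace Pool.Agent.SpeedFP.DyadicExponentsVariant

/-- For every `k ≥ 1` the exponent `1 - 1 / 2 ^ k` is attained on a finitely presented group. -/
theorem result : ∀ k : ℕ, 1 ≤ k → Pool.SpeedFP.Attained (1 - 1 / 2 ^ k) := by
  intro k hk
  obtain ⟨j, rfl⟩ := Nat.exists_eq_add_of_le' hk
  exact Pool.SpeedFP.attained_dyadic j

end Pool.Agent.SpeedFP.DyadicExponentsVariant
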