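import Pool.Agent.SpeedFP.Algebra

/-!
Faithfulness of the action on the four-ray set of a group generated by `t i j`, `s i` subject to
the relations `HRel`.
-/

set_option autoImplicit false

namespace Pool.SpeedFP

section
variable {G : Type*} [Group G] {t : Fin 4 → Fin 4 → G} {s : Fin 4 → G}

/-- `ρ` sends the generators to the standard permutations. -/
structure Std (t : Fin 4 → Fin 4 → G) (s : Fin 4 → G) (ρ : G →* Equiv.Perm X) : Prop where
  t : ∀ i j, ρ (t i j) = T i j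
  s : ∀ i, ρ (s i) = Sw i

theorem rho_sp {ρ : G →* Equiv.Perm X} (hρ : Std t s ρ) (x : Y) :
    ρ (sp t s x) = Equiv.swap none (some x) := by
  obtain ⟨i, k⟩ := x
  induction k with
  | zero => exact hρ.s i
  | succ k ih =>
    show ρ ((t i (i + 1))⁻¹ * sx t s i k * t i (i + 1)) = _
    rw [map_mul, map_mul, map_inv, hρ.t]
    have e : ρ (sx t s i k) = Equiv.swap none (some (i, k)) := ih
    rw [e]
    have := (T i (i + 1)).symm.injective
    have e2 : Equiv.swap (none : X) (some (i, k))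
        = Equiv.swap (T i (i + 1) none) (T i (i + 1) (some (i, k + 1))) := by
      rw [T_none, T_some, Yf_src_succ (add_one_ne i)]
    rw [e2, Equiv.swap_apply_apply]
    group

/-- The subgroup generated by the involutions attached to a set of points. -/
def FY (t : Fin 4 → Fin 4 → G) (s : Fin 4 → G) (A : Set Y) : Subgroup G :=
  Subgroup.closure (sp t s '' A)

theorem sp_mem {A : Set Y} {x : Y} (hx : x ∈ A) : sp t s x ∈ FY t s A :=
  Subgroup.subset_closure ⟨x, hx, rfl⟩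

theorem FY_fix {ρ : G →* Equiv.Perm X} (hρ : Std t s ρ) {A : Set Y} {y : Y} (hy : y ∉ A)
    {g : G} (hg : g ∈ FY t s A) : ρ g (some y) = some y := by
  unfold FY at hg
  induction hg using Subgroup.closure_induction with
  | mem x hx =>
    obtain ⟨z, hz, rfl⟩ := hx
    rw [rho_sp hρ, Equiv.swap_apply_of_ne_of_ne (by simp)]
    intro e
    exact hy (by rw [Option.some_injective _ e]; exact hz)
  | one => simp
  | mul a b _ _ ha hb => rw [map_mul, Equiv.Perm.mul_apply, hb, ha]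
  | inv a _ ha => rw [map_inv, Equiv.Perm.inv_eq_iff_eq, ha]

/-- Coset decomposition. -/
theorem coset (h : HRel t s) {A : Set Y} {y : Y} (hy : y ∉ A) {g : G}
    (hg : g ∈ FY t s (insert y A)) :
    ∃ u ∈ FY t s A, g = u ∨ g = sp t s y * u ∨
      ∃ z ∈ A, g = (sp t s y * sp t s z * sp t s y) * u := by
  have ss := sp_mul_self h
  have step : ∀ x ∈ sp t s '' (insert y A), ∀ g : G,
      (∃ u ∈ FY t s A, g = u ∨ g = sp t s y * u ∨
        ∃ z ∈ A, g = (sp t s y * sp t s z * sp t s y) * u) →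
      (∃ u ∈ FY t s A, x * g = u ∨ x * g = sp t s y * u ∨
        ∃ z ∈ A, x * g = (sp t s y * sp t s z * sp t s y) * u) := by
    rintro _ ⟨a, ha, rfl⟩ g ⟨u, hu, hcase⟩
    by_cases hay : a = y
    · subst hay
      rcases hcase with rfl | rfl | ⟨z, hz, rfl⟩
      · exact ⟨g, hu, Or.inr (Or.inl rfl)⟩
      · refine ⟨u, hu, Or.inl ?_⟩
        rw [← mul_assoc, ss, one_mul]
      · have haz : a ≠ z := by rintro rfl; exact hy hz
        refine ⟨sp t s z * u, mul_mem (sp_mem hz) hu, Or.inr (Or.inr ⟨z, hz, ?_⟩)⟩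
        calc sp t s a * (sp t s a * sp t s z * sp t s a * u)
            = (sp t s a * sp t s a) * sp t s z * sp t s a * u := by group
          _ = sp t s z * sp t s a * u := by rw [ss, one_mul]
          _ = sp t s z * sp t s a * (sp t s z * sp t s z) * u := by rw [ss, mul_one]
          _ = (sp t s z * sp t s a * sp t s z) * (sp t s z * u) := by group
          _ = (sp t s a * sp t s z * sp t s a) * (sp t s z * u) := by
            rw [← sp_braid h haz]
    · have haA : a ∈ A := by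
        rcases ha with rfl | ha
        · exact absurd rfl hay
        · exact ha
      rcases hcase with rfl | rfl | ⟨z, hz, rfl⟩
      · exact ⟨sp t s a * g, mul_mem (sp_mem haA) hu, Or.inl rfl⟩
      · refine ⟨sp t s a * u, mul_mem (sp_mem haA) hu, Or.inr (Or.inr ⟨a, haA, ?_⟩)⟩
        rw [sp_braid h (Ne.symm hay)]
        calc sp t s a * (sp t s y * u) = sp t s a * sp t s y * (1 * u) := by group
          _ = sp t s a * sp t s y * ((sp t s a * sp t s a) * u) := by rw [ss]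
          _ = (sp t s a * sp t s y * sp t s a) * (sp t s a * u) := by group
      · by_cases haz : z = a
        · subst haz
          refine ⟨sp t s z * u, mul_mem (sp_mem haA) hu, Or.inr (Or.inl ?_)⟩
          rw [sp_braid h (Ne.symm hay)]
          calc sp t s z * (sp t s z * sp t s y * sp t s z * u)
              = (sp t s z * sp t s z) * sp t s y * (sp t s z * u) := by group
            _ = sp t s y * (sp t s z * u) := by rw [ss, one_mul]
        · refine ⟨sp t s a * u, mul_mem (sp_mem haA) hu, Or.inr (Or.inr ⟨z, hz, ?_⟩)⟩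
          have hyz : y ≠ z := by rintro rfl; exact hy hz
          calc sp t s a * (sp t s y * sp t s z * sp t s y * u)
              = (sp t s a * (sp t s y * sp t s z * sp t s y)) * u := by group
            _ = ((sp t s y * sp t s z * sp t s y) * sp t s a) * u := by
              rw [← sp_star h hyz (Ne.symm hay) haz]
            _ = sp t s y * sp t s z * sp t s y * (sp t s a * u) := by group
  unfold FY at hg
  induction hg using Subgroup.closure_induction_left with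
  | one => exact ⟨1, one_mem _, Or.inl rfl⟩
  | mul_left x hx g _ ih => exact step x hx g ih
  | inv_mul_cancel x hx g _ ih =>
    obtain ⟨a, ha, rfl⟩ := hx
    rw [sp_inv h]
    exact step _ ⟨a, ha, rfl⟩ g ih

theorem FY_inj (h : HRel t s) {ρ : G →* Equiv.Perm X} (hρ : Std t s ρ) (A : Finset Y) :
    ∀ g ∈ FY t s (A : Set Y), ρ g = 1 → g = 1 := by
  classical
  induction A using Finset.induction_on with
  | empty =>
    intro g hg _
    unfold FY at hg
    simpa using hg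
  | insert y A hy ih =>
    intro g hg h1
    rw [Finset.coe_insert] at hg
    have hy' : y ∉ (A : Set Y) := by simpa using hy
    obtain ⟨u, hu, hcase⟩ := coset h hy' hg
    have hfix := FY_fix hρ hy' hu
    have hg1 : ρ g (some y) = some y := by rw [h1]; rfl
    rcases hcase with rfl | rfl | ⟨z, hz, rfl⟩
    · exact ih g hu h1
    · rw [map_mul, Equiv.Perm.mul_apply, hfix, rho_sp hρ, Equiv.swap_apply_right] at hg1
      exact absurd hg1 (by simp)
    · have hyz : y ≠ z := by rintro rfl; exact hy' hz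
      rw [map_mul, Equiv.Perm.mul_apply, hfix, map_mul, map_mul, rho_sp hρ, rho_sp hρ,
        Equiv.Perm.mul_apply, Equiv.Perm.mul_apply, Equiv.swap_apply_right,
        Equiv.swap_apply_left, Equiv.swap_apply_of_ne_of_ne (by simp)
          (by simpa using (Ne.symm hyz))] at hg1
      exact absurd (Option.some_injective _ hg1).symm hyz

/-- The subgroup generated by all involutions. -/
def FF (t : Fin 4 → Fin 4 → G) (s : Fin 4 → G) : Subgroup G := FY t s Set.univ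

theorem FF_finite {g : G} (hg : g ∈ FF t s) : ∃ A : Finset Y, g ∈ FY t s (A : Set Y) := by
  classical
  unfold FF FY at hg
  have mono : ∀ A B : Finset Y, A ⊆ B → FY t s (A : Set Y) ≤ FY t s (B : Set Y) := fun A B hAB =>
    Subgroup.closure_mono (Set.image_mono (by simpa using hAB))
  induction hg using Subgroup.closure_induction with
  | mem x hx =>
    obtain ⟨z, _, rfl⟩ := hx
    exact ⟨{z}, sp_mem (by simp)⟩
  | one => exact ⟨∅, one_mem _⟩
  | mul a b _ _ ha hb =>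
    obtain ⟨A, hA⟩ := ha
    obtain ⟨B, hB⟩ := hb
    exact ⟨A ∪ B, mul_mem (mono _ _ Finset.subset_union_left hA)
      (mono _ _ Finset.subset_union_right hB)⟩
  | inv a _ ha =>
    obtain ⟨A, hA⟩ := ha
    exact ⟨A, inv_mem hA⟩

theorem FF_inj (h : HRel t s) {ρ : G →* Equiv.Perm X} (hρ : Std t s ρ) {g : G}
    (hg : g ∈ FF t s) (h1 : ρ g = 1) : g = 1 := by
  obtain ⟨A, hA⟩ := FF_finite hg
  exact FY_inj h hρ A g hA h1

theorem FF_far {ρ : G →* Equiv.Perm X} (hρ : Std t s ρ) {g : G} (hg : g ∈ FF t s) :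
    ∃ R : ℕ, ∀ i k, R ≤ k → ρ g (some (i, k)) = some (i, k) := by
  obtain ⟨A, hA⟩ := FF_finite hg
  refine ⟨A.sup Prod.snd + 1, fun i k hk => FY_fix hρ ?_ hA⟩
  intro hm
  have := Finset.le_sup (f := Prod.snd) (show (i, k) ∈ A by simpa using hm)
  simp only at this
  omega

theorem conj_FF (h : HRel t s) (i j : Fin 4) {g : G} (hg : g ∈ FF t s) :
    t i j * g * (t i j)⁻¹ ∈ FF t s := by
  unfold FF FY at hg
  induction hg using Subgroup.closure_induction with
  | mem x hx =>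
    obtain ⟨z, _, rfl⟩ := hx
    rw [conj_sp h]
    exact sp_mem (Set.mem_univ _)
  | one => simp [one_mem]
  | mul a b _ _ ha hb =>
    have : t i j * (a * b) * (t i j)⁻¹ = (t i j * a * (t i j)⁻¹) * (t i j * b * (t i j)⁻¹) := by
      group
    rw [this]; exact mul_mem ha hb
  | inv a _ ha =>
    have : t i j * a⁻¹ * (t i j)⁻¹ = (t i j * a * (t i j)⁻¹)⁻¹ := by group
    rw [this]; exact inv_mem ha

theorem s_mem_FF (i : Fin 4) : s i ∈ FF t s := sp_mem (x := (i, 0)) (Set.mem_univ _)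

/-- The relation `x ≡ y` modulo `FF` (left cosets of a subgroup normalised by the generators):
`x = u * y` with `u ∈ FF`. -/
theorem normal_form (h : HRel t s) {g : G}
    (hg : g ∈ Subgroup.closure (Set.range (fun p : Fin 4 × Fin 4 => t p.1 p.2) ∪ Set.range s)) :
    ∃ u ∈ FF t s, ∃ a b c : ℤ, g = u * (t 0 1 ^ a * t 0 2 ^ b * t 0 3 ^ c) := by
  -- conjugation by elements and commutation modulo `FF`
  have hconj : ∀ (i j : Fin 4) (a : ℤ) (u : G), u ∈ FF t s → t i j ^ a * u * (t i j ^ a)⁻¹ ∈ FF t s := by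
    intro i j a
    induction a using Int.induction_on with
    | zero => intro u hu; simpa using hu
    | succ n ih =>
      intro u hu
      have : t i j ^ ((n : ℤ) + 1) * u * (t i j ^ ((n : ℤ) + 1))⁻¹
          = t i j ^ (n : ℤ) * (t i j * u * (t i j)⁻¹) * (t i j ^ (n : ℤ))⁻¹ := by
        rw [zpow_add, zpow_one]; group
      rw [this]; exact ih _ (conj_FF h i j hu)
    | pred n ih =>
      intro u hu
      have : t i j ^ (-(n : ℤ) - 1) * u * (t i j ^ (-(n : ℤ) - 1))⁻¹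
          = t i j ^ (-(n : ℤ)) * (t j i * u * (t j i)⁻¹) * (t i j ^ (-(n : ℤ)))⁻¹ := by
        rw [zpow_sub, zpow_one, h.tinv i j]; group
      rw [this]; exact ih _ (conj_FF h j i hu)
  have hcm : ∀ j m : Fin 4, 0 ≠ j → 0 ≠ m → ∃ u ∈ FF t s, t 0 j * t 0 m = u * (t 0 m * t 0 j) := by
    intro j m hj hm
    by_cases hjm : j = m
    · subst hjm; exact ⟨1, one_mem _, by group⟩
    · refine ⟨s j * s m * s j, mul_mem (mul_mem (s_mem_FF _) (s_mem_FF _)) (s_mem_FF _), ?_⟩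
      rw [h.tK 0 j m hj hm hjm]; group
  -- `t 0 j` commutes with powers of `t 0 m` modulo `FF`
  have hcp : ∀ j m : Fin 4, 0 ≠ j → 0 ≠ m → ∀ a : ℤ, ∃ u ∈ FF t s,
      t 0 j * t 0 m ^ a = u * (t 0 m ^ a * t 0 j) := by
    intro j m hj hm a
    induction a using Int.induction_on with
    | zero => exact ⟨1, one_mem _, by group⟩
    | succ n ih =>
      obtain ⟨u, hu, e⟩ := ih
      obtain ⟨v, hv, e2⟩ := hcm j m hj hm
      refine ⟨u * (t 0 m ^ (n : ℤ) * v * (t 0 m ^ (n : ℤ))⁻¹), mul_mem hu (hconj _ _ _ _ hv), ?_⟩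
      rw [zpow_add, zpow_one]
      calc t 0 j * (t 0 m ^ (n : ℤ) * t 0 m) = (t 0 j * t 0 m ^ (n : ℤ)) * t 0 m := by group
        _ = u * (t 0 m ^ (n : ℤ)) * (t 0 j * t 0 m) := by rw [e]; group
        _ = _ := by rw [e2]; group
    | pred n ih =>
      obtain ⟨u, hu, e⟩ := ih
      obtain ⟨v, hv, e2⟩ := hcm j m hj hm
      -- t0j * t0m⁻¹ = (t0m⁻¹ v⁻¹ t0m) * t0m⁻¹ * t0j
      have e3 : t 0 j * (t 0 m)⁻¹ = ((t 0 m)⁻¹ * v⁻¹ * t 0 m) * ((t 0 m)⁻¹ * t 0 j) := by
        have : t 0 j = v * (t 0 m * t 0 j) * (t 0 m)⁻¹ := by rw [← e2]; group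
        calc t 0 j * (t 0 m)⁻¹ = (t 0 m)⁻¹ * v⁻¹ * (v * (t 0 m * t 0 j) * (t 0 m)⁻¹) := by group
          _ = (t 0 m)⁻¹ * v⁻¹ * t 0 j := by rw [← this]
          _ = _ := by group
      have hv' : (t 0 m)⁻¹ * v⁻¹ * t 0 m ∈ FF t s := by
        have := hconj 0 m (-1) v⁻¹ (inv_mem hv)
        simpa using this
      refine ⟨u * (t 0 m ^ (-(n : ℤ)) * ((t 0 m)⁻¹ * v⁻¹ * t 0 m) * (t 0 m ^ (-(n : ℤ)))⁻¹),
        mul_mem hu (hconj _ _ _ _ hv'), ?_⟩
      rw [zpow_sub, zpow_one]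
      calc t 0 j * (t 0 m ^ (-(n : ℤ)) * (t 0 m)⁻¹)
          = (t 0 j * t 0 m ^ (-(n : ℤ))) * (t 0 m)⁻¹ := by group
        _ = u * (t 0 m ^ (-(n : ℤ))) * (t 0 j * (t 0 m)⁻¹) := by rw [e]; group
        _ = _ := by rw [e3]; group
  let D : G → Prop := fun g => ∃ u ∈ FF t s, ∃ a b c : ℤ, g = u * (t 0 1 ^ a * t 0 2 ^ b * t 0 3 ^ c)
  have Dleft : ∀ u ∈ FF t s, ∀ g, D g → D (u * g) := by
    rintro u hu g ⟨v, hv, a, b, c, rfl⟩
    exact ⟨u * v, mul_mem hu hv, a, b, c, by group⟩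
  have D1 : ∀ (e : ℤ) (g), D g → D (t 0 1 ^ e * g) := by
    rintro e g ⟨v, hv, a, b, c, rfl⟩
    refine ⟨t 0 1 ^ e * v * (t 0 1 ^ e)⁻¹, hconj _ _ _ _ hv, e + a, b, c, ?_⟩
    rw [zpow_add]; group
  have D2 : ∀ (g), D g → D (t 0 2 * g) := by
    rintro g ⟨v, hv, a, b, c, rfl⟩
    obtain ⟨w, hw, e⟩ := hcp 2 1 (by decide) (by decide) a
    refine ⟨(t 0 2 * v * (t 0 2)⁻¹) * w, mul_mem (conj_FF h _ _ hv) hw, a, 1 + b, c, ?_⟩
    rw [zpow_add, zpow_one]
    calc t 0 2 * (v * (t 0 1 ^ a * t 0 2 ^ b * t 0 3 ^ c))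
        = (t 0 2 * v * (t 0 2)⁻¹) * (t 0 2 * t 0 1 ^ a) * (t 0 2 ^ b * t 0 3 ^ c) := by group
      _ = _ := by rw [e]; group
  have D2' : ∀ (g), D g → D ((t 0 2)⁻¹ * g) := by
    rintro g ⟨v, hv, a, b, c, rfl⟩
    obtain ⟨w, hw, e⟩ := hcp 2 1 (by decide) (by decide) a
    -- (t02)⁻¹ * t01^a = (t02⁻¹ w⁻¹ t02) * t01^a * t02⁻¹ ... from t02 t01^a = w t01^a t02
    have e3 : (t 0 2)⁻¹ * t 0 1 ^ a = ((t 0 2)⁻¹ * w⁻¹ * t 0 2) * (t 0 1 ^ a * (t 0 2)⁻¹) := by
      have : t 0 1 ^ a = w⁻¹ * (t 0 2 * t 0 1 ^ a) * (t 0 2)⁻¹ := by rw [e]; group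
      calc (t 0 2)⁻¹ * t 0 1 ^ a = (t 0 2)⁻¹ * (w⁻¹ * (t 0 2 * t 0 1 ^ a) * (t 0 2)⁻¹) := by
            rw [← this]
        _ = _ := by group
    have hw' : (t 0 2)⁻¹ * w⁻¹ * t 0 2 ∈ FF t s := by
      have := hconj 0 2 (-1) w⁻¹ (inv_mem hw)
      simpa using this
    have hv' : (t 0 2)⁻¹ * v * t 0 2 ∈ FF t s := by
      have := hconj 0 2 (-1) v hv
      simpa using this
    refine ⟨((t 0 2)⁻¹ * v * t 0 2) * ((t 0 2)⁻¹ * w⁻¹ * t 0 2), mul_mem hv' hw', a, -1 + b, c, ?_⟩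
    rw [zpow_add, zpow_neg_one]
    calc (t 0 2)⁻¹ * (v * (t 0 1 ^ a * t 0 2 ^ b * t 0 3 ^ c))
        = ((t 0 2)⁻¹ * v * t 0 2) * ((t 0 2)⁻¹ * t 0 1 ^ a) * (t 0 2 ^ b * t 0 3 ^ c) := by group
      _ = _ := by rw [e3]; group
  have hcomm3 : ∀ (a b : ℤ), ∃ w ∈ FF t s,
      t 0 3 * (t 0 1 ^ a * t 0 2 ^ b) = w * (t 0 1 ^ a * t 0 2 ^ b * t 0 3) := by
    intro a b
    obtain ⟨w, hw, e⟩ := hcp 3 1 (by decide) (by decide) a
    obtain ⟨w2, hw2, e2⟩ := hcp 3 2 (by decide) (by decide) b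
    refine ⟨w * (t 0 1 ^ a * w2 * (t 0 1 ^ a)⁻¹), mul_mem hw (hconj _ _ _ _ hw2), ?_⟩
    calc t 0 3 * (t 0 1 ^ a * t 0 2 ^ b) = (t 0 3 * t 0 1 ^ a) * t 0 2 ^ b := by group
      _ = w * t 0 1 ^ a * (t 0 3 * t 0 2 ^ b) := by rw [e]; group
      _ = _ := by rw [e2]; group
  have D3 : ∀ (g), D g → D (t 0 3 * g) := by
    rintro g ⟨v, hv, a, b, c, rfl⟩
    obtain ⟨w, hw, e⟩ := hcomm3 a b
    refine ⟨(t 0 3 * v * (t 0 3)⁻¹) * w, mul_mem (conj_FF h _ _ hv) hw, a, b, 1 + c, ?_⟩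
    rw [zpow_add, zpow_one]
    calc t 0 3 * (v * (t 0 1 ^ a * t 0 2 ^ b * t 0 3 ^ c))
        = (t 0 3 * v * (t 0 3)⁻¹) * (t 0 3 * (t 0 1 ^ a * t 0 2 ^ b)) * t 0 3 ^ c := by group
      _ = _ := by rw [e]; group
  have D3' : ∀ (g), D g → D ((t 0 3)⁻¹ * g) := by
    rintro g ⟨v, hv, a, b, c, rfl⟩
    obtain ⟨w, hw, e⟩ := hcomm3 a b
    have e3 : (t 0 3)⁻¹ * (t 0 1 ^ a * t 0 2 ^ b)
        = ((t 0 3)⁻¹ * w⁻¹ * t 0 3) * (t 0 1 ^ a * t 0 2 ^ b * (t 0 3)⁻¹) := by
      have : t 0 1 ^ a * t 0 2 ^ b = w⁻¹ * (t 0 3 * (t 0 1 ^ a * t 0 2 ^ b)) * (t 0 3)⁻¹ := by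
        rw [e]; group
      calc (t 0 3)⁻¹ * (t 0 1 ^ a * t 0 2 ^ b)
          = (t 0 3)⁻¹ * (w⁻¹ * (t 0 3 * (t 0 1 ^ a * t 0 2 ^ b)) * (t 0 3)⁻¹) := by rw [← this]
        _ = _ := by group
    have hw' : (t 0 3)⁻¹ * w⁻¹ * t 0 3 ∈ FF t s := by
      have := hconj 0 3 (-1) w⁻¹ (inv_mem hw)
      simpa using this
    have hv' : (t 0 3)⁻¹ * v * t 0 3 ∈ FF t s := by
      have := hconj 0 3 (-1) v hv
      simpa using this
    refine ⟨((t 0 3)⁻¹ * v * t 0 3) * ((t 0 3)⁻¹ * w⁻¹ * t 0 3), mul_mem hv' hw', a, b, -1 + c, ?_⟩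
    rw [zpow_add, zpow_neg_one]
    calc (t 0 3)⁻¹ * (v * (t 0 1 ^ a * t 0 2 ^ b * t 0 3 ^ c))
        = ((t 0 3)⁻¹ * v * t 0 3) * ((t 0 3)⁻¹ * (t 0 1 ^ a * t 0 2 ^ b)) * t 0 3 ^ c := by group
      _ = _ := by rw [e3]; group
  have D0 : ∀ (j : Fin 4) (g), D g → D (t 0 j * g) := by
    intro j g hg
    fin_cases j
    · simpa [h.tii] using hg
    · have := D1 1 g hg
      rwa [zpow_one] at this
    · exact D2 g hg
    · exact D3 g hg
  have D0' : ∀ (j : Fin 4) (g), D g → D ((t 0 j)⁻¹ * g) := by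
    intro j g hg
    fin_cases j
    · simpa [h.tii] using hg
    · have := D1 (-1) g hg
      rwa [zpow_neg_one] at this
    · exact D2' g hg
    · exact D3' g hg
  have Dt : ∀ (i j : Fin 4) (g), D g → D (t i j * g) := by
    intro i j g hg
    by_cases hi : i = 0
    · subst hi; exact D0 j g hg
    by_cases hj : j = 0
    · subst hj; rw [h.tinv 0 i]; exact D0' i g hg
    by_cases hij : i = j
    · subst hij; simpa [h.tii] using hg
    have e : t 0 j * t i 0 = t i j := h.tC 0 j i (Ne.symm hj) (Ne.symm hi) (Ne.symm hij)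
    rw [← e, mul_assoc, h.tinv 0 i]
    exact D0 j _ (D0' i g hg)
  have hstep : ∀ x ∈ (Set.range (fun p : Fin 4 × Fin 4 => t p.1 p.2) ∪ Set.range s),
      (∀ g, D g → D (x * g)) ∧ (∀ g, D g → D (x⁻¹ * g)) := by
    rintro x (⟨⟨i, j⟩, rfl⟩ | ⟨i, rfl⟩)
    · refine ⟨Dt i j, ?_⟩
      simp only
      rw [← h.tinv i j]
      exact Dt j i
    · exact ⟨Dleft _ (s_mem_FF i), Dleft _ (inv_mem (s_mem_FF i))⟩
  show D g
  induction hg using Subgroup.closure_induction_left with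
  | one => exact ⟨1, one_mem _, 0, 0, 0, by simp⟩
  | mul_left x hx g _ ih => exact (hstep x hx).1 g ih
  | inv_mul_cancel x hx g _ ih => exact (hstep x hx).2 g ih

end

end Pool.SpeedFP
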