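import Pool.Agent.SpeedFP.Defs
import Pool.Agent.SpeedFP.Base

/-!
The halving step and the base case in terms of `Attained`.
-/

set_option autoImplicit false

namespace Pool.SpeedFP

open Filter Topology

theorem attained_iff_eA {n : ℕ} {rels : Finset (FreeGroup (Fin n))} (S : Finset (LA n rels))
    (μ : LA n rels → ℝ) (m : ℕ) :
    ∑ s : Fin m → S, (∏ i, μ (s i)) *
          ((sInf {k : ℕ | ∃ w : FreeGroup (Fin n),
              PresentedGroup.mk (rels : Set (FreeGroup (Fin n))) w =
                (List.ofFn (fun i => ((s i : PresentedGroup (rels : Set (FreeGroup (Fin n))))))).prod ∧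
              w.toWord.length = k} : ℕ) : ℝ) = eA S μ m :=
  Eg_eq S μ m (fun g => (wA g : ℝ))

theorem attained_step (β : ℝ) (hβ : 0 < β) (h : Attained β) : Attained ((1 + β) / 2) := by
  obtain ⟨n, rels, μ, S, h0, hS, h1, hinv, hcl, hlim⟩ := h
  refine ⟨NN n, relFin n rels, muG S μ, SG S, muG_nonneg h0, fun g hg => muG_zero hg,
    sum_muG_one h1, muG_inv hS hinv, muG_closure h0 hS hcl, ?_⟩
  have e1 : ∀ m : ℕ, ∑ s : Fin m → S, (∏ i, μ (s i)) *
          ((sInf {k : ℕ | ∃ w : FreeGroup (Fin n),
              PresentedGroup.mk (rels : Set (FreeGroup (Fin n))) w =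
                (List.ofFn (fun i => ((s i : PresentedGroup (rels : Set (FreeGroup (Fin n))))))).prod ∧
              w.toWord.length = k} : ℕ) : ℝ) = eA S μ m := attained_iff_eA S μ
  simp only [e1] at hlim
  have e2 : ∀ m : ℕ, ∑ s : Fin m → SG S, (∏ i, muG S μ (s i)) *
          ((sInf {k : ℕ | ∃ w : FreeGroup (Fin (NN n)),
              PresentedGroup.mk ((relFin n rels : Finset (FreeGroup (Fin (NN n)))) :
                  Set (FreeGroup (Fin (NN n)))) w =
                (List.ofFn (fun i => ((s i : Gam n rels)))).prod ∧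
              w.toWord.length = k} : ℕ) : ℝ) = eG S μ m := fun m =>
    Eg_eq (SG S) (muG S μ) m (fun g => (wG g : ℝ))
  have h2 := main_asym h0 h1 β hβ hlim
  refine h2.congr ?_
  intro m
  rw [← e2 m]

theorem attained_half : Attained (1 / 2) := by
  classical
  refine ⟨1, ∅, muZ, SZ, ?_, ?_, ?_, ?_, ?_, ?_⟩
  · intro g
    unfold muZ
    split_ifs <;> norm_num
  · intro g hg
    unfold SZ at hg
    unfold muZ
    rw [if_neg]
    intro h
    refine hg ?_
    rw [Finset.mem_insert, Finset.mem_singleton]
    exact h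
  · have := sum_SZ (fun _ => 1)
    simp only [mul_one] at this
    rw [this]; norm_num
  · intro g
    unfold muZ
    by_cases h : g = zg ∨ g = zg⁻¹
    · rw [if_pos h, if_pos]
      rcases h with rfl | rfl
      · exact Or.inr rfl
      · exact Or.inl (inv_inv _)
    · rw [if_neg h, if_neg]
      intro h'
      refine h ?_
      rcases h' with h' | h'
      · exact Or.inr (by rw [← h', inv_inv])
      · exact Or.inl (inv_inj.1 h')
  · rw [eq_top_iff]
    intro g _
    refine PresentedGroup.generated_by _ _ ?_ g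
    intro j
    obtain rfl : j = 0 := Subsingleton.elim _ _
    refine Subgroup.subset_closure ?_
    show 0 < muZ zg
    unfold muZ
    rw [if_pos (Or.inl rfl)]
    norm_num
  · have e1 : ∀ m : ℕ, _ = eA SZ muZ m := attained_iff_eA SZ muZ
    refine tendsto_Z.congr ?_
    intro m
    rw [← e1 m]

theorem attained_dyadic (k : ℕ) : Attained (1 - 1 / 2 ^ (k + 1)) := by
  induction k with
  | zero =>
    have : (1 : ℝ) - 1 / 2 ^ (0 + 1) = 1 / 2 := by norm_num
    rw [this]
    exact attained_half
  | succ k ih =>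
    have hpos : (0 : ℝ) < 1 - 1 / 2 ^ (k + 1) := by
      have h1 : (1 : ℝ) < 2 ^ (k + 1) := one_lt_pow₀ (by norm_num) (by omega)
      have h2 : 1 / (2 : ℝ) ^ (k + 1) < 1 := by
        rw [div_lt_one (by positivity)]
        exact h1
      linarith
    have := attained_step _ hpos ih
    have e : (1 + (1 - 1 / (2 : ℝ) ^ (k + 1))) / 2 = 1 - 1 / 2 ^ (k + 1 + 1) := by
      rw [pow_succ (2 : ℝ) (k + 1)]
      field_simp
      ring
    rwa [e] at this

end Pool.SpeedFP
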