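import Pool.Agent.SpeedFP.Walk

/-!
Total mass identities and the bound for the expected local time at the centre.
-/

set_option autoImplicit false
set_option linter.unusedSectionVars false

namespace Pool.SpeedFP

section
variable {A : Type*} [Group A] {S : Finset A} {μ : A → ℝ}

theorem V_add (n : ℕ) (ψ χ : ℕ → ℝ) (p : X) :
    V S μ n (fun j => ψ j + χ j) p = V S μ n ψ p + V S μ n χ p := EL_add _ _ _

theorem V_smul (n : ℕ) (c : ℝ) (ψ : ℕ → ℝ) (p : X) :
    V S μ n (fun j => c * ψ j) p = c * V S μ n ψ p := EL_smul _ _ _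

theorem V_sub (n : ℕ) (ψ χ : ℕ → ℝ) (p : X) :
    V S μ n (fun j => ψ j - χ j) p = V S μ n ψ p - V S μ n χ p := by
  have h1 : V S μ n (fun j => ψ j - χ j) p = V S μ n (fun j => ψ j + (-1) * χ j) p := by
    congr 1; funext j; ring
  rw [h1, V_add, V_smul]; ring

theorem V_const (h1 : ∑ g ∈ S, μ g = 1) (n : ℕ) (c : ℝ) (p : X) :
    V S μ n (fun _ => c) p = c := EL_const h1 n c

theorem V_mono (hμ : ∀ g, 0 ≤ μ g) (n : ℕ) (ψ χ : ℕ → ℝ) (h : ∀ j, ψ j ≤ χ j) (p : X) :
    V S μ n ψ p ≤ V S μ n χ p := EL_mono hμ _ _ _ (fun _ _ => h _)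

theorem V_nonneg (hμ : ∀ g, 0 ≤ μ g) (n : ℕ) (ψ : ℕ → ℝ) (h : ∀ j, 0 ≤ ψ j) (p : X) :
    0 ≤ V S μ n ψ p := EL_nonneg hμ _ _ (fun _ => h _)

/-- Total mass. -/
theorem hasSum_V (h1 : ∑ g ∈ S, μ g = 1) (ψ : ℕ → ℝ) (h0 : ψ 0 = 0) (n : ℕ) :
    HasSum (V S μ n ψ) (1 / 2 * ∑ k ∈ Finset.range n,
      (V S μ k (fun j => ψ (j + 1)) none - V S μ k ψ none)) := by
  induction n with
  | zero =>
    have : V S μ 0 ψ = fun _ => 0 := by
      funext p; exact h0
    rw [this]
    simp only [Finset.range_zero, Finset.sum_empty, mul_zero]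
    exact hasSum_zero
  | succ n ih =>
    set s := 1 / 2 * ∑ k ∈ Finset.range n,
      (V S μ k (fun j => ψ (j + 1)) none - V S μ k ψ none) with hs
    set d := V S μ n (fun j => ψ (j + 1)) none - V S μ n ψ none with hd
    have e : V S μ (n + 1) ψ = fun p => (1 / 2 * V S μ n ψ p
        + (if p = none then 1 / 2 * d else 0))
        + 1 / 40 * ∑ c : Sym, V S μ n ψ ((evX c)⁻¹ p) := by
      funext p
      rw [V_succ h1]
      congr 1
      by_cases hp : p = none
      · subst hp; simp only [if_true]; rw [hd]; ring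
      · simp only [hp, if_false]; ring
    rw [e]
    have s1 : HasSum (fun p => 1 / 2 * V S μ n ψ p) (1 / 2 * s) := ih.mul_left _
    have s2 : HasSum (fun p : X => if p = none then 1 / 2 * d else 0) (1 / 2 * d) :=
      hasSum_ite_eq none (1 / 2 * d)
    have s3 : HasSum (fun p => ∑ c : Sym, V S μ n ψ ((evX c)⁻¹ p)) (∑ _c : Sym, s) := by
      refine hasSum_sum ?_
      intro c _
      have := (Equiv.hasSum_iff ((evX c)⁻¹ : Equiv.Perm X) (f := V S μ n ψ) (a := s)).2 ih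
      exact this
    have s4 := (s1.add s2).add (s3.mul_left (1 / 40))
    have e2 : 1 / 2 * s + 1 / 2 * d + 1 / 40 * ∑ _c : Sym, s
        = 1 / 2 * ∑ k ∈ Finset.range (n + 1),
          (V S μ k (fun j => ψ (j + 1)) none - V S μ k ψ none) := by
      rw [Finset.sum_const, Finset.card_univ, card_sym, Finset.sum_range_succ, mul_add, ← hs, ← hd]
      norm_num
      ring
    rw [e2] at s4
    exact s4

/-- Expected number of lamp letters at `p`. -/
noncomputable def gn (S : Finset A) (μ : A → ℝ) (n : ℕ) (p : X) : ℝ :=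
  V S μ n (fun j => (j : ℝ)) p

theorem gn_nonneg (hμ : ∀ g, 0 ≤ μ g) (n : ℕ) (p : X) : 0 ≤ gn S μ n p :=
  V_nonneg hμ n _ (fun j => Nat.cast_nonneg j) p

theorem gn_succ (h1 : ∑ g ∈ S, μ g = 1) (n : ℕ) (p : X) :
    gn S μ (n + 1) p = 1 / 2 * gn S μ n p + (if p = none then 1 / 2 else 0)
      + 1 / 40 * ∑ c : Sym, gn S μ n ((evX c)⁻¹ p) := by
  unfold gn
  rw [V_succ h1]
  congr 1
  have e : V S μ n (fun j => ((j + 1 : ℕ) : ℝ)) p = V S μ n (fun j => (j : ℝ)) p + 1 := by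
    have : (fun j : ℕ => ((j + 1 : ℕ) : ℝ)) = fun j : ℕ => (j : ℝ) + 1 := by
      funext j; push_cast; ring
    rw [this, V_add, V_const h1]
  by_cases hp : p = none
  · simp only [hp, if_true] at e ⊢
    rw [e]; ring
  · simp only [hp, if_false]; ring

theorem hasSum_gn (h1 : ∑ g ∈ S, μ g = 1) (n : ℕ) : HasSum (gn S μ n) (n / 2) := by
  have := hasSum_V (S := S) (μ := μ) h1 (fun j => (j : ℝ)) (by simp) n
  have e : ∀ k, V S μ k (fun j => ((j + 1 : ℕ) : ℝ)) none - V S μ k (fun j => (j : ℝ)) none = 1 := by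
    intro k
    have : (fun j : ℕ => ((j + 1 : ℕ) : ℝ)) = fun j : ℕ => (j : ℝ) + 1 := by
      funext j; push_cast; ring
    rw [this, V_add, V_const h1]; ring
  simp only [e, Finset.sum_const, Finset.card_range, nsmul_eq_mul, mul_one] at this
  rw [show (n : ℝ) / 2 = 1 / 2 * n by ring]
  exact this

theorem gn_mono_succ (hμ : ∀ g, 0 ≤ μ g) (h1 : ∑ g ∈ S, μ g = 1) (n : ℕ) :
    ∀ p, gn S μ n p ≤ gn S μ (n + 1) p := by
  induction n with
  | zero =>
    intro p
    have : gn S μ 0 p = 0 := by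
      show ((0 : ℕ) : ℝ) = 0
      simp
    rw [this]
    exact gn_nonneg hμ 1 p
  | succ n ih =>
    intro p
    rw [gn_succ h1 n p, gn_succ h1 (n + 1) p]
    have e1 := ih p
    have e2 : ∑ c : Sym, gn S μ n ((evX c)⁻¹ p) ≤ ∑ c : Sym, gn S μ (n + 1) ((evX c)⁻¹ p) :=
      Finset.sum_le_sum (fun c _ => ih _)
    linarith

theorem gn_mono (hμ : ∀ g, 0 ≤ μ g) (h1 : ∑ g ∈ S, μ g = 1) {m n : ℕ} (h : m ≤ n) (p : X) :
    gn S μ m p ≤ gn S μ n p := by
  induction n, h using Nat.le_induction with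
  | base => exact le_rfl
  | succ n _ ih => exact ih.trans (gn_mono_succ hμ h1 n p)

theorem gn_le (hμ : ∀ g, 0 ≤ μ g) (h1 : ∑ g ∈ S, μ g = 1) (n : ℕ) (p : X) :
    gn S μ n p ≤ n / 2 := by
  have h := hasSum_gn (S := S) (μ := μ) h1 n
  rw [← h.tsum_eq]
  exact h.summable.le_tsum p (fun q _ => gn_nonneg hμ n q)

/-- Energy bound. -/
theorem energy (hμ : ∀ g, 0 ≤ μ g) (h1 : ∑ g ∈ S, μ g = 1) (n : ℕ) :
    (∀ c : Sym, Summable (fun p => (gn S μ n p - gn S μ n ((evX c)⁻¹ p)) ^ 2)) ∧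
    ∑ c : Sym, ∑' p, (gn S μ n p - gn S μ n ((evX c)⁻¹ p)) ^ 2 ≤ 40 * gn S μ n none := by
  set g := gn S μ n with hg
  have hg0 : ∀ p, 0 ≤ g p := gn_nonneg hμ n
  have hgn : ∀ p, g p ≤ n / 2 := gn_le hμ h1 n
  have hsum : Summable g := (hasSum_gn h1 n).summable
  have hsq : Summable (fun p => g p * g p) := by
    refine Summable.of_nonneg_of_le (fun p => mul_nonneg (hg0 p) (hg0 p))
      (fun p => mul_le_mul_of_nonneg_right (hgn p) (hg0 p)) (hsum.mul_left ((n : ℝ) / 2))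
  have hcross : ∀ c : Sym, Summable (fun p => g p * g ((evX c)⁻¹ p)) := by
    intro c
    refine Summable.of_nonneg_of_le (fun p => mul_nonneg (hg0 p) (hg0 _))
      (fun p => ?_) (hsum.mul_right ((n : ℝ) / 2))
    exact mul_le_mul_of_nonneg_left (hgn _) (hg0 p)
  have hshift : ∀ c : Sym, Summable (fun p => g ((evX c)⁻¹ p) * g ((evX c)⁻¹ p)) := fun c =>
    (Equiv.summable_iff ((evX c)⁻¹ : Equiv.Perm X) (f := fun p => g p * g p)).2 hsq
  have hshift' : ∀ c : Sym, ∑' p, g ((evX c)⁻¹ p) * g ((evX c)⁻¹ p) = ∑' p, g p * g p := fun c =>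
    Equiv.tsum_eq ((evX c)⁻¹ : Equiv.Perm X) (fun p => g p * g p)
  have hexp : ∀ c : Sym, (fun p => (g p - g ((evX c)⁻¹ p)) ^ 2)
      = fun p => (g p * g p + g ((evX c)⁻¹ p) * g ((evX c)⁻¹ p))
        - 2 * (g p * g ((evX c)⁻¹ p)) := by
    intro c; funext p; ring
  have hS : ∀ c : Sym, Summable (fun p => (g p - g ((evX c)⁻¹ p)) ^ 2) := by
    intro c
    rw [hexp]
    exact (hsq.add (hshift c)).sub ((hcross c).mul_left 2)
  refine ⟨hS, ?_⟩
  have hval : ∀ c : Sym, ∑' p, (g p - g ((evX c)⁻¹ p)) ^ 2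
      = 2 * ∑' p, g p * g p - 2 * ∑' p, g p * g ((evX c)⁻¹ p) := by
    intro c
    rw [hexp, (hsq.add (hshift c)).tsum_sub ((hcross c).mul_left 2), hsq.tsum_add (hshift c),
      hshift', tsum_mul_left]
    ring
  simp only [hval]
  rw [Finset.sum_sub_distrib, Finset.sum_const, Finset.card_univ, card_sym, ← Finset.mul_sum]
  have hswap : ∑ c : Sym, ∑' p, g p * g ((evX c)⁻¹ p) = ∑' p, ∑ c : Sym, g p * g ((evX c)⁻¹ p) :=
    (Summable.tsum_finsetSum (fun c _ => hcross c)).symm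
  have hpt : ∀ p, ∑ c : Sym, g p * g ((evX c)⁻¹ p)
      = 40 * (g p * gn S μ (n + 1) p) - 20 * (g p * g p) - (if p = none then 20 * g none else 0) := by
    intro p
    rw [← Finset.mul_sum, gn_succ h1 n p]
    by_cases hp : p = none
    · subst hp; simp only [if_true]; ring
    · simp only [hp, if_false]; ring
  have hnext : Summable (fun p => g p * gn S μ (n + 1) p) := by
    refine Summable.of_nonneg_of_le (fun p => mul_nonneg (hg0 p) (gn_nonneg hμ _ _))
      (fun p => ?_) (hsum.mul_right (((n + 1 : ℕ) : ℝ) / 2))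
    exact mul_le_mul_of_nonneg_left (gn_le hμ h1 _ _) (hg0 p)
  have hite : HasSum (fun p : X => if p = none then 20 * g none else 0) (20 * g none) :=
    hasSum_ite_eq none _
  rw [hswap]
  simp only [hpt]
  rw [((hnext.mul_left 40).sub (hsq.mul_left 20)).tsum_sub hite.summable,
    (hnext.mul_left 40).tsum_sub (hsq.mul_left 20), tsum_mul_left, tsum_mul_left, hite.tsum_eq]
  have hle : ∑' p, g p * g p ≤ ∑' p, g p * gn S μ (n + 1) p :=
    hsq.tsum_le_tsum (fun p => mul_le_mul_of_nonneg_left (gn_mono_succ hμ h1 n p) (hg0 p)) hnext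
  simp only [nsmul_eq_mul]
  push_cast
  linarith

theorem energy_ray (hμ : ∀ g, 0 ≤ μ g) (h1 : ∑ g ∈ S, μ g = 1) (n m : ℕ) :
    (gn S μ n none - gn S μ n (some (0, m))) ^ 2 ≤ (m + 1) * (40 * gn S μ n none) := by
  obtain ⟨hS, hE⟩ := energy hμ h1 n
  set g := gn S μ n with hg
  let e : ℕ → ℝ := fun k => match k with
    | 0 => g none - g (some (0, 0))
    | k + 1 => g (some (0, k)) - g (some (0, k + 1))
  have hsum : ∀ m, ∑ k ∈ Finset.range (m + 1), e k = g none - g (some (0, m)) := by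
    intro m
    induction m with
    | zero => simp [e]
    | succ m ih =>
      rw [Finset.sum_range_succ, ih]
      show g none - g (some (0, m)) + (g (some (0, m)) - g (some (0, m + 1))) = _
      ring
  have hray : ∑ k ∈ Finset.range m, (e (k + 1)) ^ 2
      ≤ ∑' p, (g p - g ((evX (Sum.inl (0, 1)))⁻¹ p)) ^ 2 := by
    have hinj : Function.Injective (fun k : ℕ => (some (0, k) : X)) := by
      intro k l h
      simpa using h
    have h2 : ∀ k : ℕ, (evX (Sum.inl (0, 1)))⁻¹ (some (0, k)) = (some (0, k + 1) : X) := by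
      intro k
      rw [Equiv.Perm.inv_eq_iff_eq]
      show _ = T 0 1 (some (0, k + 1))
      rw [T_some, Yf_src_succ (by decide)]
    have h3 := (hS (Sum.inl (0, 1))).sum_le_tsum ((Finset.range m).map ⟨_, hinj⟩)
      (fun p _ => sq_nonneg _)
    rw [Finset.sum_map] at h3
    refine le_trans (le_of_eq ?_) h3
    refine Finset.sum_congr rfl ?_
    intro k _
    show (g (some (0, k)) - g (some (0, k + 1))) ^ 2
      = (g (some (0, k)) - g ((evX (Sum.inl (0, 1)))⁻¹ (some (0, k)))) ^ 2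
    rw [h2]
  have h0 : (e 0) ^ 2 ≤ ∑' p, (g p - g ((evX (Sum.inr 0))⁻¹ p)) ^ 2 := by
    have h2 : (evX (Sum.inr 0))⁻¹ none = (some (0, 0) : X) := by
      show (Sw 0)⁻¹ none = _
      rw [Sw_inv, Sw_none]
    have h3 := (hS (Sum.inr 0)).le_tsum none (fun p _ => sq_nonneg _)
    rw [h2] at h3
    exact h3
  have htwo : (∑' p, (g p - g ((evX (Sum.inl (0, 1)))⁻¹ p)) ^ 2)
      + ∑' p, (g p - g ((evX (Sum.inr 0))⁻¹ p)) ^ 2 ≤ 40 * g none := by
    refine le_trans ?_ hE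
    rw [← Finset.sum_pair (f := fun c : Sym => ∑' p, (g p - g ((evX c)⁻¹ p)) ^ 2)
      (show (Sum.inl (0, 1) : Sym) ≠ Sum.inr 0 by simp)]
    exact Finset.sum_le_sum_of_subset_of_nonneg (Finset.subset_univ _)
      (fun c _ _ => tsum_nonneg (fun p => sq_nonneg _))
  rw [← hsum m]
  refine (sq_sum_le_card_mul_sum_sq).trans ?_
  rw [Finset.card_range, Finset.sum_range_succ']
  push_cast
  refine mul_le_mul_of_nonneg_left ?_ (by positivity)
  linarith

/-- The expected local time at the centre is of order at most `√n`. -/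
theorem gn_none_le (hμ : ∀ g, 0 ≤ μ g) (h1 : ∑ g ∈ S, μ g = 1) (n M : ℕ) (hM : 1 ≤ M)
    (hn : n ≤ M * M) : gn S μ n none ≤ 41 * M := by
  set G := gn S μ n none with hG
  have hG0 : 0 ≤ G := gn_nonneg hμ n none
  have hMr : (1 : ℝ) ≤ M := by exact_mod_cast hM
  have hlow : ∀ m < M, G / 2 - 20 * M ≤ gn S μ n (some (0, m)) := by
    intro m hm
    have h2 := energy_ray hμ h1 n m
    rw [← hG] at h2
    have h3 : ((m : ℝ) + 1) ≤ M := by exact_mod_cast hm
    have h4 : (G - gn S μ n (some (0, m))) ^ 2 ≤ (G / 2 + 20 * M) ^ 2 := by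
      have : ((m : ℝ) + 1) * (40 * G) ≤ M * (40 * G) :=
        mul_le_mul_of_nonneg_right h3 (by linarith)
      nlinarith [sq_nonneg (G / 2 - 20 * M)]
    have h5 := abs_le_of_sq_le_sq h4 (by positivity)
    rw [abs_le] at h5
    linarith [h5.2]
  have hsum : ∑ m ∈ Finset.range M, gn S μ n (some (0, m)) ≤ n / 2 := by
    have h := hasSum_gn (S := S) (μ := μ) h1 n
    rw [← h.tsum_eq]
    have hinj : Function.Injective (fun k : ℕ => (some (0, k) : X)) := by
      intro k l h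
      simpa using h
    have h3 := h.summable.sum_le_tsum ((Finset.range M).map ⟨_, hinj⟩)
      (fun p _ => gn_nonneg hμ n p)
    rwa [Finset.sum_map] at h3
  have h6 : (M : ℝ) * (G / 2 - 20 * M) ≤ n / 2 := by
    refine le_trans ?_ hsum
    have : ∑ _m ∈ Finset.range M, (G / 2 - 20 * M) = (M : ℝ) * (G / 2 - 20 * M) := by
      rw [Finset.sum_const, Finset.card_range, nsmul_eq_mul]
    rw [← this]
    exact Finset.sum_le_sum (fun m hm => hlow m (Finset.mem_range.1 hm))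
  have h7 : (n : ℝ) ≤ M * M := by exact_mod_cast hn
  have h8 : (M : ℝ) * (G / 2 - 20 * M) ≤ M * (M / 2) := by nlinarith
  have h9 := le_of_mul_le_mul_left h8 (by linarith)
  linarith

/-- Second moment of the local times. -/
theorem tsum_sq_le (hμ : ∀ g, 0 ≤ μ g) (h1 : ∑ g ∈ S, μ g = 1) (n M : ℕ) (hM : 1 ≤ M)
    (hn : n ≤ M * M) : Summable (V S μ n (fun j => (j : ℝ) ^ 2)) ∧
    ∑' p, V S μ n (fun j => (j : ℝ) ^ 2) p ≤ 42 * n * M := by
  have h := hasSum_V (S := S) (μ := μ) h1 (fun j => (j : ℝ) ^ 2) (by simp) n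
  refine ⟨h.summable, ?_⟩
  rw [h.tsum_eq]
  have e : ∀ k ∈ Finset.range n, V S μ k (fun j => ((j + 1 : ℕ) : ℝ) ^ 2) none
      - V S μ k (fun j => (j : ℝ) ^ 2) none ≤ 83 * M := by
    intro k hk
    have hk' : k ≤ n := (Finset.mem_range.1 hk).le
    have e1 : (fun j : ℕ => ((j + 1 : ℕ) : ℝ) ^ 2) = fun j : ℕ => (j : ℝ) ^ 2 + (2 * (j : ℝ) + 1) := by
      funext j; push_cast; ring
    rw [e1, V_add, V_add, V_smul, V_const h1]
    have e2 : V S μ k (fun j => (j : ℝ)) none ≤ 41 * M :=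
      (gn_mono hμ h1 hk' none).trans (gn_none_le hμ h1 n M hM hn)
    have hMr : (1 : ℝ) ≤ M := by exact_mod_cast hM
    linarith
  have h2 := Finset.sum_le_sum e
  rw [Finset.sum_const, Finset.card_range, nsmul_eq_mul] at h2
  have hMr : (1 : ℝ) ≤ M := by exact_mod_cast hM
  have hn0 : (0 : ℝ) ≤ n := Nat.cast_nonneg n
  nlinarith

end

end Pool.SpeedFP
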