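import Pool.Agent.SpeedFP.Len

/-!
Lamps: a group `G` with elements `t i j`, `s i` satisfying `HRel` and a homomorphism `a : A → G`
satisfying the lamp relations.
-/

set_option autoImplicit false

namespace Pool.SpeedFP

section
variable {G : Type*} [Group G] {t : Fin 4 → Fin 4 → G} {s : Fin 4 → G}
variable {A : Type*} [Group A] {a : A →* G}

/-- The lamp relations. -/
structure LRel (t : Fin 4 → Fin 4 → G) (s : Fin 4 → G) (a : A →* G) : Prop where
  L1 : ∀ x i j, t i j * a x = a x * t i j
  L2 : ∀ x i j, i ≠ j → (s i * s j * s i) * a x = a x * (s i * s j * s i)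
  L3 : ∀ x y i, (s i * a y * s i) * a x = a x * (s i * a y * s i)

/-- The lamp with value `x` at a point. -/
def al (t : Fin 4 → Fin 4 → G) (s : Fin 4 → G) (a : A →* G) (x : A) : X → G
  | none => a x
  | some q => sp t s q * a x * sp t s q

theorem conj_a (hL : LRel t s a) (x : A) (i j : Fin 4) : t i j * a x * (t i j)⁻¹ = a x := by
  rw [hL.L1]; group

theorem al_conj_t (h : HRel t s) (hL : LRel t s a) (x : A) (i j : Fin 4) (p : X) :
    t i j * al t s a x p * (t i j)⁻¹ = al t s a x (T i j p) := by
  rcases p with _ | q
  · exact conj_a hL x i j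
  · show t i j * (sp t s q * a x * sp t s q) * (t i j)⁻¹
      = sp t s (Yf i j q) * a x * sp t s (Yf i j q)
    rw [← conj_sp h i j q]
    calc t i j * (sp t s q * a x * sp t s q) * (t i j)⁻¹
        = (t i j * sp t s q * (t i j)⁻¹) * (t i j * a x * (t i j)⁻¹)
            * (t i j * sp t s q * (t i j)⁻¹) := by group
      _ = _ := by rw [conj_a hL]

theorem a_comm2 (h : HRel t s) (hL : LRel t s a) (z : A) {x y : Y} (hxy : x ≠ y) :
    (sp t s x * sp t s y * sp t s x) * a z = a z * (sp t s x * sp t s y * sp t s x) := by
  obtain ⟨w, hw1, hw2⟩ := exists_third x y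
  refine descend3 (fun x y _ => (sp t s x * sp t s y * sp t s x) * a z
    = a z * (sp t s x * sp t s y * sp t s x)) ?_ ?_ x y w hxy hw1 hw2
  · intro i j x y _ hx
    simp only [← conj_sp h i j] at hx
    have e1 : t i j * ((sp t s x * sp t s y * sp t s x) * a z) * (t i j)⁻¹
        = (t i j * sp t s x * (t i j)⁻¹ * (t i j * sp t s y * (t i j)⁻¹)
            * (t i j * sp t s x * (t i j)⁻¹)) * (t i j * a z * (t i j)⁻¹) := by group
    have e2 : t i j * (a z * (sp t s x * sp t s y * sp t s x)) * (t i j)⁻¹
        = (t i j * a z * (t i j)⁻¹) * (t i j * sp t s x * (t i j)⁻¹ * (t i j * sp t s y * (t i j)⁻¹)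
            * (t i j * sp t s x * (t i j)⁻¹)) := by group
    rw [conj_a hL] at e1 e2
    have : t i j * ((sp t s x * sp t s y * sp t s x) * a z) * (t i j)⁻¹
        = t i j * (a z * (sp t s x * sp t s y * sp t s x)) * (t i j)⁻¹ := by
      rw [e1, e2]; exact hx
    simpa using this
  · intro i j _ hij _ _
    exact hL.L2 z i j hij

theorem a_comm_lamp (h : HRel t s) (hL : LRel t s a) (z z' : A) (x : Y) :
    (sp t s x * a z' * sp t s x) * a z = a z * (sp t s x * a z' * sp t s x) := by
  obtain ⟨y, hy, -⟩ := exists_third x x
  obtain ⟨w, hw1, hw2⟩ := exists_third x y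
  refine descend3 (fun x _ _ => (sp t s x * a z' * sp t s x) * a z
    = a z * (sp t s x * a z' * sp t s x)) ?_ ?_ x y w hy hw1 hw2
  · intro i j x _ _ hx
    simp only [← conj_sp h i j] at hx
    have e1 : t i j * ((sp t s x * a z' * sp t s x) * a z) * (t i j)⁻¹
        = (t i j * sp t s x * (t i j)⁻¹ * (t i j * a z' * (t i j)⁻¹)
            * (t i j * sp t s x * (t i j)⁻¹)) * (t i j * a z * (t i j)⁻¹) := by group
    have e2 : t i j * (a z * (sp t s x * a z' * sp t s x)) * (t i j)⁻¹
        = (t i j * a z * (t i j)⁻¹) * (t i j * sp t s x * (t i j)⁻¹ * (t i j * a z' * (t i j)⁻¹)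
            * (t i j * sp t s x * (t i j)⁻¹)) := by group
    rw [conj_a hL, conj_a hL] at e1 e2
    have : t i j * ((sp t s x * a z' * sp t s x) * a z) * (t i j)⁻¹
        = t i j * (a z * (sp t s x * a z' * sp t s x)) * (t i j)⁻¹ := by
      rw [e1, e2]; exact hx
    simpa using this
  · intro i _ _ _ _ _
    exact hL.L3 z z' i

theorem al_conj_sp (h : HRel t s) (hL : LRel t s a) (x : A) (q : Y) (p : X) :
    sp t s q * al t s a x p * (sp t s q)⁻¹ = al t s a x (Equiv.swap none (some q) p) := by
  have ss := sp_mul_self h q
  rw [sp_inv h]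
  rcases p with _ | r
  · rw [Equiv.swap_apply_left]; rfl
  · by_cases hr : r = q
    · subst hr
      rw [Equiv.swap_apply_right]
      show sp t s r * (sp t s r * a x * sp t s r) * sp t s r = a x
      calc sp t s r * (sp t s r * a x * sp t s r) * sp t s r
          = (sp t s r * sp t s r) * a x * (sp t s r * sp t s r) := by group
        _ = a x := by rw [ss]; group
    · rw [Equiv.swap_apply_of_ne_of_ne (by simp) (by simpa using hr)]
      show sp t s q * (sp t s r * a x * sp t s r) * sp t s q = sp t s r * a x * sp t s r
      have sr := sp_mul_self h r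
      have e := a_comm2 h hL x (x := r) (y := q) hr
      -- s_q s_r a s_r s_q = s_r (s_r s_q s_r) a (s_r s_q s_r) s_r
      calc sp t s q * (sp t s r * a x * sp t s r) * sp t s q
          = (1 * sp t s q * sp t s r) * a x * (sp t s r * sp t s q * 1) := by group
        _ = ((sp t s r * sp t s r) * sp t s q * sp t s r) * a x
              * (sp t s r * sp t s q * (sp t s r * sp t s r)) := by rw [sr]
        _ = sp t s r * ((sp t s r * sp t s q * sp t s r) * a x)
              * (sp t s r * sp t s q * sp t s r) * sp t s r := by group
        _ = sp t s r * a x * ((sp t s r * sp t s q * sp t s r)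
              * (sp t s r * sp t s q * sp t s r)) * sp t s r := by rw [e]; group
        _ = sp t s r * a x * (sp t s r * (sp t s q * ((sp t s r * sp t s r)
              * sp t s q)) * sp t s r) * sp t s r := by group
        _ = sp t s r * a x * sp t s r := by rw [sr, one_mul, ss, mul_one, sr]; group

theorem al_comm (h : HRel t s) (hL : LRel t s a) (x y : A) {p q : X} (hpq : p ≠ q) :
    al t s a x p * al t s a y q = al t s a y q * al t s a x p := by
  rcases p with _ | p
  · rcases q with _ | q
    · exact absurd rfl hpq
    · exact (a_comm_lamp h hL x y q).symm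
  · rcases q with _ | q
    · exact a_comm_lamp h hL y x p
    · have hpq' : p ≠ q := by rintro rfl; exact hpq rfl
      have e1 := al_conj_sp h hL x p (some p)
      have e2 := al_conj_sp h hL y p (some q)
      rw [Equiv.swap_apply_right] at e1
      rw [Equiv.swap_apply_of_ne_of_ne (by simp) (by simpa using (Ne.symm hpq'))] at e2
      have e3 : al t s a x none * al t s a y (some q) = al t s a y (some q) * al t s a x none :=
        (a_comm_lamp h hL x y q).symm
      rw [← e1] at e3
      rw [← e2] at e3
      have : sp t s p * (al t s a x (some p) * al t s a y (some q)) * (sp t s p)⁻¹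
          = sp t s p * (al t s a y (some q) * al t s a x (some p)) * (sp t s p)⁻¹ := by
        calc sp t s p * (al t s a x (some p) * al t s a y (some q)) * (sp t s p)⁻¹
            = (sp t s p * al t s a x (some p) * (sp t s p)⁻¹)
                * (sp t s p * al t s a y (some q) * (sp t s p)⁻¹) := by group
          _ = (sp t s p * al t s a y (some q) * (sp t s p)⁻¹)
                * (sp t s p * al t s a x (some p) * (sp t s p)⁻¹) := e3
          _ = _ := by group
      simpa using this

theorem al_mul (h : HRel t s) (x y : A) (p : X) :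
    al t s a (x * y) p = al t s a x p * al t s a y p := by
  rcases p with _ | p
  · exact map_mul a x y
  · show sp t s p * a (x * y) * sp t s p = (sp t s p * a x * sp t s p) * (sp t s p * a y * sp t s p)
    have ss := sp_mul_self h p
    rw [map_mul]
    calc sp t s p * (a x * a y) * sp t s p = sp t s p * a x * 1 * (a y * sp t s p) := by group
      _ = sp t s p * a x * (sp t s p * sp t s p) * (a y * sp t s p) := by rw [ss]
      _ = _ := by group

theorem al_one (h : HRel t s) (p : X) : al t s a 1 p = 1 := by
  have := al_mul (a := a) h 1 1 p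
  rw [mul_one] at this
  exact (mul_eq_left.1 this.symm)

/-- Letters of the wreath-type group: `Sum.inl x` is a lamp letter, `Sum.inr c` a moving letter. -/
abbrev Lt (A : Type*) : Type _ := A ⊕ Sym

/-- The group element of a letter. -/
def evl (t : Fin 4 → Fin 4 → G) (s : Fin 4 → G) (a : A →* G) : Lt A → G
  | Sum.inl x => a x
  | Sum.inr c => ev t s c

/-- The group element of a word. -/
def W (t : Fin 4 → Fin 4 → G) (s : Fin 4 → G) (a : A →* G) (u : List (Lt A)) : G :=
  (u.map (evl t s a)).prod

/-- The moving part of a word. -/
def Hm (t : Fin 4 → Fin 4 → G) (s : Fin 4 → G) : List (Lt A) → G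
  | [] => 1
  | Sum.inl _ :: u => Hm t s u
  | Sum.inr c :: u => ev t s c * Hm t s u

/-- The permutation of a moving letter. -/
abbrev evX (c : Sym) : Equiv.Perm X := ev T Sw c

/-- The lamp configuration of a word. -/
def cfg : List (Lt A) → X → A
  | [], _ => 1
  | Sum.inl x :: u, p => if p = none then x * cfg u p else cfg u p
  | Sum.inr c :: u, p => cfg u ((evX c)⁻¹ p)

/-- The number of lamp letters of a word that act at a given point. -/
def cnt : List (Lt A) → X → ℕ
  | [], _ => 0
  | Sum.inl _ :: u, p => if p = none then cnt u p + 1 else cnt u p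
  | Sum.inr c :: u, p => cnt u ((evX c)⁻¹ p)

theorem ev_conj (h : HRel t s) (hL : LRel t s a) (c : Sym) (x : A) (p : X) :
    ev t s c * al t s a x p * (ev t s c)⁻¹ = al t s a x (evX c p) := by
  rcases c with ⟨i, j⟩ | i
  · exact al_conj_t h hL x i j p
  · exact al_conj_sp h hL x (i, 0) p

/-- Ordered product of lamps along a list of points. -/
def Pr (t : Fin 4 → Fin 4 → G) (s : Fin 4 → G) (a : A →* G) (L : List X) (f : X → A) : G :=
  (L.map (fun q => al t s a (f q) q)).prod

theorem Pr_conj (h : HRel t s) (hL : LRel t s a) (c : Sym) (L : List X) (f : X → A) :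
    ev t s c * Pr t s a L f * (ev t s c)⁻¹
      = Pr t s a (L.map (evX c)) (fun p => f ((evX c)⁻¹ p)) := by
  unfold Pr
  induction L with
  | nil => simp
  | cons q L ih =>
    rw [List.map_cons, List.prod_cons, List.map_cons, List.map_cons, List.prod_cons, ← ih]
    beta_reduce
    rw [inv_app, ← ev_conj h hL]
    group

theorem Pr_insert (h : HRel t s) (hL : LRel t s a) (x : A) (L : List X) (hnd : L.Nodup)
    (hmem : none ∈ L) (f : X → A) :
    a x * Pr t s a L f = Pr t s a L (fun p => if p = none then x * f p else f p) := by
  unfold Pr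
  induction L with
  | nil => simp at hmem
  | cons q L ih =>
    rw [List.nodup_cons] at hnd
    rw [List.map_cons, List.prod_cons, List.map_cons, List.prod_cons]
    by_cases hq : q = none
    · subst hq
      have e : L.map (fun p => al t s a (if p = none then x * f p else f p) p)
          = L.map (fun q => al t s a (f q) q) := by
        refine List.map_congr_left ?_
        intro p hp
        rw [if_neg]
        rintro rfl
        exact hnd.1 hp
      rw [e]
      beta_reduce
      rw [if_pos rfl, al_mul h]
      show a x * (al t s a (f none) none * _) = (a x * al t s a (f none) none) * _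
      group
    · have hmem' : none ∈ L := by
        rcases List.mem_cons.1 hmem with h1 | h1
        · exact absurd h1.symm hq
        · exact h1
      rw [← ih hnd.2 hmem']
      beta_reduce
      rw [if_neg hq]
      have e := al_comm h hL (f q) x (p := q) (q := none) hq
      have e' : al t s a (f q) q * a x = a x * al t s a (f q) q := e
      calc a x * (al t s a (f q) q * (L.map (fun q => al t s a (f q) q)).prod)
          = (a x * al t s a (f q) q) * (L.map (fun q => al t s a (f q) q)).prod := by group
        _ = _ := by rw [← e']; group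

/-- Decomposition of a word into its lamps and its moving part. -/
theorem decomp (h : HRel t s) (hL : LRel t s a) (u : List (Lt A)) :
    ∀ L : List X, L.Nodup → (∀ p, cnt u p ≠ 0 → p ∈ L) →
      W t s a u = Pr t s a L (cfg u) * Hm t s u := by
  induction u with
  | nil =>
    intro L _ _
    have : Pr t s a L (cfg []) = 1 := by
      unfold Pr
      refine List.prod_eq_one ?_
      intro x hx
      obtain ⟨q, _, rfl⟩ := List.mem_map.1 hx
      exact al_one h q
    rw [this]
    simp [W, Hm]
  | cons w u ih =>
    intro L hnd hL'
    rcases w with x | c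
    · have hnone : none ∈ L := hL' none (by simp [cnt])
      have hrest : ∀ p, cnt u p ≠ 0 → p ∈ L := by
        intro p hp
        refine hL' p ?_
        simp only [cnt]
        split_ifs
        · omega
        · exact hp
      have e := ih L hnd hrest
      show (evl t s a (Sum.inl x) :: u.map (evl t s a)).prod = _
      rw [List.prod_cons]
      show a x * W t s a u = _
      rw [e, ← mul_assoc, Pr_insert h hL x L hnd hnone]
      rfl
    · have e := ih (L.map ((evX c)⁻¹ : Equiv.Perm X)) (hnd.map (Equiv.injective _)) (by
        intro p hp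
        rw [List.mem_map]
        refine ⟨evX c p, hL' _ ?_, inv_app _ _⟩
        simp only [cnt]
        rwa [inv_app])
      show (evl t s a (Sum.inr c) :: u.map (evl t s a)).prod = _
      rw [List.prod_cons]
      show ev t s c * W t s a u = _
      rw [e]
      have e2 := Pr_conj h hL c (L.map ((evX c)⁻¹ : Equiv.Perm X)) (cfg u)
      rw [List.map_map] at e2
      have e3 : ((evX c : X → X) ∘ (((evX c)⁻¹ : Equiv.Perm X) : X → X)) = id := by
        funext p
        exact app_inv _ _
      rw [e3, List.map_id] at e2
      show _ = Pr t s a L (fun p => cfg u ((evX c)⁻¹ p)) * (ev t s c * Hm t s u)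
      rw [← e2]
      group

end

end Pool.SpeedFP
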