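import Pool.Agent.SpeedFP.Sort

/-!
The general length bound for permutations of the four-ray set.
-/

set_option autoImplicit false

namespace Pool.SpeedFP

/-- Permutations that fix the centre and everything from height `M` on. -/
theorem len_finitary (M b : ℕ) (hb : 4 * M ≤ 2 ^ b) (σ : Equiv.Perm X) (hn : σ none = none)
    (h : ∀ i k, M ≤ k → σ (some (i, k)) = some (i, k)) :
    LenX (6 * M + 3 * b * 2 ^ b) σ := by
  set g : Equiv.Perm X := T 3 0 ^ M * (T 2 0 ^ M * T 1 0 ^ M) with hg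
  have hlow : ∀ i k, k < M → g (some (i, k)) ∈ lo (4 * M) := by
    intro i k hk
    rw [hg, Equiv.Perm.mul_apply, Equiv.Perm.mul_apply]
    fin_cases i
    · refine ⟨k + M + M + M, by omega, ?_⟩
      show (T 3 0 ^ M) ((T 2 0 ^ M) ((T 1 0 ^ M) (some (0, k)))) = _
      rw [T_pow_tgt (by decide), T_pow_tgt (by decide), T_pow_tgt (by decide)]
    · refine ⟨M - 1 - k + M + M, by omega, ?_⟩
      show (T 3 0 ^ M) ((T 2 0 ^ M) ((T 1 0 ^ M) (some (1, k)))) = _
      rw [T_pow_src_lt (by decide) _ _ hk, T_pow_tgt (by decide), T_pow_tgt (by decide)]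
    · refine ⟨M - 1 - k + M, by omega, ?_⟩
      show (T 3 0 ^ M) ((T 2 0 ^ M) ((T 1 0 ^ M) (some (2, k)))) = _
      rw [T_pow_other (by decide) (by decide), T_pow_src_lt (by decide) _ _ hk,
        T_pow_tgt (by decide)]
    · refine ⟨M - 1 - k, by omega, ?_⟩
      show (T 3 0 ^ M) ((T 2 0 ^ M) ((T 1 0 ^ M) (some (3, k)))) = _
      rw [T_pow_other (by decide) (by decide), T_pow_other (by decide) (by decide),
        T_pow_src_lt (by decide) _ _ hk]
  have hsupp : ∀ x, x ∉ lo (2 ^ b) → (g * σ * g⁻¹) x = x := by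
    intro x hx
    rw [Equiv.Perm.mul_apply, Equiv.Perm.mul_apply]
    have : σ (g⁻¹ x) = g⁻¹ x := by
      rcases hy : g⁻¹ x with _ | ⟨i, k⟩
      · exact hn
      · rcases Nat.lt_or_ge k M with hk | hk
        · exfalso
          obtain ⟨k', hk', e⟩ := hlow i k hk
          rw [← hy, app_inv] at e
          exact hx ⟨k', by omega, e⟩
        · exact h i k hk
    rw [this, app_inv]
  have hs := sort b _ hsupp
  have hgl : LenX (3 * M) g := by
    have := (LenX.pow 3 0 M).mul ((LenX.pow 2 0 M).mul (LenX.pow 1 0 M))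
    exact this.mono (by omega)
  have e : σ = g⁻¹ * (g * σ * g⁻¹) * g := by group
  rw [e]
  exact ((hgl.inv.mul hs).mul hgl).mono (by omega)

theorem smul_dl_abs (a : ℤ) (i j c : Fin 4) (B : ℕ) (ha : |a| ≤ B) : |(a • dl i j) c| ≤ B := by
  rw [Pi.smul_apply, smul_eq_mul, abs_mul]
  nlinarith [dl_abs i j c, abs_nonneg a, abs_nonneg (dl i j c)]

theorem len_zero_sum (R M A b : ℕ) (hb : 4 * (M + 3 * R + 3 * A + 3 * R) ≤ 2 ^ b)
    (σ : Equiv.Perm X) (τ : Fin 4 → ℤ) (hn : σ none = none)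
    (hT : Tr σ τ M) (hR : ∀ i, |τ i| ≤ R) (hA : R ≤ A) (hs : ∑ i, τ i = 0) :
    LenX (3 * R + (6 * (M + 3 * R + 3 * A + 3 * R) + 3 * b * 2 ^ b)) σ := by
  set σ' : Equiv.Perm X := T 0 1 ^ (-τ 1) * (T 0 2 ^ (-τ 2) * (T 0 3 ^ (-τ 3) * σ)) with hσ'
  have hR' : ∀ i, |(-τ i)| ≤ R := fun i => by rw [abs_neg]; exact hR i
  have hnat : ∀ i, (-τ i).natAbs ≤ R := fun i => by
    have := hR' i
    rw [Int.abs_eq_natAbs] at this
    exact_mod_cast this
  have h1 := (Tr.T_zpow 0 3 (-τ 3)).mul hT hR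
  have b1 : ∀ i, |((-τ 3) • dl 0 3 + τ) i| ≤ ((2 * R : ℕ) : ℤ) := by
    intro i
    rw [Pi.add_apply]
    have e1 := smul_dl_abs (-τ 3) 0 3 i R (hR' 3)
    have e2 := abs_add_le (((-τ 3) • dl 0 3) i) (τ i)
    have e3 := hR i
    push_cast
    linarith
  have h2 := (Tr.T_zpow 0 2 (-τ 2)).mul h1 b1
  have b2 : ∀ i, |((-τ 2) • dl 0 2 + ((-τ 3) • dl 0 3 + τ)) i| ≤ ((3 * R : ℕ) : ℤ) := by
    intro i
    rw [Pi.add_apply]
    have e1 := smul_dl_abs (-τ 2) 0 2 i R (hR' 2)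
    have e2 := abs_add_le (((-τ 2) • dl 0 2) i) (((-τ 3) • dl 0 3 + τ) i)
    have e3 := b1 i
    push_cast at e3 ⊢
    linarith
  have h3 := (Tr.T_zpow 0 1 (-τ 1)).mul h2 b2
  have hz : (-τ 1) • dl 0 1 + ((-τ 2) • dl 0 2 + ((-τ 3) • dl 0 3 + τ)) = 0 := by
    rw [Fin.sum_univ_four] at hs
    funext i
    fin_cases i
    · simp [dl]; linarith
    · simp [dl]
    · simp [dl]
    · simp [dl]
  rw [hz] at h3
  have n1 := hnat 1
  have n2 := hnat 2
  have n3 := hnat 3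
  have hfix : ∀ i k, M + 3 * R + 3 * A + 3 * R ≤ k → σ' (some (i, k)) = some (i, k) := by
    intro i k hk
    obtain ⟨k', e1, e2⟩ := h3 i k (by omega)
    rw [hσ', e1]
    congr 2
    simp only [Pi.zero_apply, add_zero] at e2
    exact_mod_cast e2
  have hn' : σ' none = none := by
    rw [hσ', Equiv.Perm.mul_apply, Equiv.Perm.mul_apply, Equiv.Perm.mul_apply, hn, T_zpow_none,
      T_zpow_none, T_zpow_none]
  have hl := len_finitary _ b hb σ' hn' hfix
  have e : σ = (T 0 3 ^ (-τ 3))⁻¹ * ((T 0 2 ^ (-τ 2))⁻¹ * ((T 0 1 ^ (-τ 1))⁻¹ * σ')) := by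
    rw [hσ']; group
  rw [e]
  exact ((LenX.zpow 0 3 (-τ 3)).inv.mul ((LenX.zpow 0 2 (-τ 2)).inv.mul
    ((LenX.zpow 0 1 (-τ 1)).inv.mul hl))).mono (by omega)

/-- The general bound. -/
theorem len_bound (R : ℕ) (σ : Equiv.Perm X) (τ : Fin 4 → ℤ)
    (hT : Tr σ τ R) (hR : ∀ i, |τ i| ≤ R) (hs : ∑ i, τ i = 0)
    (hn : ∀ i k, σ none = some (i, k) → k ≤ R) :
    LenX (1000 * (R + 1) * (Nat.clog 2 (100 * R + 8) + 1)) σ := by
  set b := Nat.clog 2 (100 * R + 8) with hb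
  have hb1 : 100 * R + 8 ≤ 2 ^ b := Nat.le_pow_clog (by norm_num) _
  have hb2 : 2 ^ b ≤ 2 * (100 * R + 8) := by
    have h1 : 2 ^ b.pred < 100 * R + 8 := Nat.pow_pred_clog_lt_self (by norm_num) (by omega)
    have h2 : b ≠ 0 := by
      intro h0
      rw [h0] at hb1
      simp at hb1
    have h3 : 2 ^ b = 2 * 2 ^ b.pred := by
      rw [← pow_succ', Nat.pred_eq_sub_one, Nat.sub_add_cancel (Nat.one_le_iff_ne_zero.2 h2)]
    omega
  rcases hc : σ none with _ | ⟨i, k⟩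
  · have := len_zero_sum R R R b (by omega) σ τ hc hT hR le_rfl hs
    refine this.mono ?_
    nlinarith
  · have hk := hn i k hc
    set σ1 : Equiv.Perm X := Sw i * (T i (i + 1) ^ k * σ) with hσ1
    have h1 := (Tr.T_pow i (i + 1) k).mul hT hR
    have b1 : ∀ a, |((k : ℤ) • dl i (i + 1) + τ) a| ≤ ((2 * R : ℕ) : ℤ) := by
      intro a
      rw [Pi.add_apply]
      have e1 := smul_dl_abs k i (i + 1) a R (by rw [Nat.abs_cast]; exact_mod_cast hk)
      have e2 := abs_add_le (((k : ℤ) • dl i (i + 1)) a) (τ a)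
      have e3 := hR a
      push_cast
      linarith
    have h2 := (Tr.Sw i).mul h1 b1
    rw [zero_add] at h2
    have hn1 : σ1 none = none := by
      rw [hσ1, Equiv.Perm.mul_apply, Equiv.Perm.mul_apply, hc]
      have := T_pow_src (add_one_ne i) k 0
      rw [zero_add] at this
      rw [this, Sw_head]
    have hs1 : ∑ a, ((k : ℤ) • dl i (i + 1) + τ) a = 0 := by
      simp only [Pi.add_apply, Pi.smul_apply, Finset.sum_add_distrib, ← Finset.smul_sum, sum_dl, hs]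
      simp
    have := len_zero_sum (2 * R) _ (2 * R) b (by omega) σ1 _ hn1 h2 b1 le_rfl hs1
    have e : σ = (T i (i + 1) ^ k)⁻¹ * ((Sw i)⁻¹ * σ1) := by
      rw [hσ1]; group
    rw [e]
    refine ((LenX.pow i (i + 1) k).inv.mul ((LenX.Sw i).inv.mul this)).mono ?_
    nlinarith

end Pool.SpeedFP
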