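import Pool.Agent.SpeedFP.Green

/-!
The maximal translation along a random word.
-/

set_option autoImplicit false
set_option linter.unusedSectionVars false

namespace Pool.SpeedFP

section
variable {A : Type*} [Group A] {S : Finset A} {μ : A → ℝ}

theorem tl_abs (w : Lt A) (i : Fin 4) : |tl w i| ≤ 1 := by
  rcases w with x | ⟨p, q⟩ | k
  · simp [tl]
  · exact dl_abs p q i
  · simp [tl]

theorem tau_abs (v : List (Lt A)) (i : Fin 4) : |tau v i| ≤ v.length := by
  induction v with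
  | nil => simp [tau]
  | cons w v ih =>
    show |(tl w + tau v) i| ≤ _
    rw [Pi.add_apply, List.length_cons]
    refine (abs_add_le _ _).trans ?_
    have := tl_abs w i
    push_cast
    linarith

theorem mx_le_length (u : List (Lt A)) : mx u ≤ u.length := by
  unfold mx
  refine Finset.sup_le ?_
  intro k _
  refine Finset.sup_le ?_
  intro i _
  have h1 := tau_abs (u.take k) i
  rw [Int.abs_eq_natAbs] at h1
  have h2 : (tau (u.take k) i).natAbs ≤ (u.take k).length := by exact_mod_cast h1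
  rw [List.length_take] at h2
  omega

theorem sum_exp_tl (θ : ℝ) (i : Fin 4) :
    ∑ c : Sym, Real.exp (θ * ((tl (A := A) (Sum.inr c) i : ℤ) : ℝ))
      = 14 + 3 * Real.exp θ + 3 * Real.exp (-θ) := by
  rw [Fintype.sum_sum_type, Fintype.sum_prod_type]
  simp only [tl, Pi.zero_apply, Int.cast_zero, mul_zero, Real.exp_zero]
  fin_cases i <;> simp [Fin.sum_univ_four, dl, Pi.single_apply] <;> ring

theorem EL_exp_tau (h1 : ∑ g ∈ S, μ g = 1) (θ : ℝ) (i : Fin 4) (n : ℕ) :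
    EL S μ n (fun u => Real.exp (θ * ((tau u i : ℤ) : ℝ)))
      = (1 / 2 + 1 / 40 * (14 + 3 * Real.exp θ + 3 * Real.exp (-θ))) ^ n := by
  induction n with
  | zero => simp [EL, tau]
  | succ n ih =>
    rw [EL_succ, pow_succ]
    have e : ∀ (w : Lt A) (u : List (Lt A)), Real.exp (θ * ((tau (w :: u) i : ℤ) : ℝ))
        = Real.exp (θ * ((tl w i : ℤ) : ℝ)) * Real.exp (θ * ((tau u i : ℤ) : ℝ)) := by
      intro w u
      rw [← Real.exp_add]
      congr 1
      show θ * (((tl w + tau u) i : ℤ) : ℝ) = _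
      rw [Pi.add_apply]
      push_cast
      ring
    simp only [e, EL_smul, ih]
    have e2 : ∀ x : A, Real.exp (θ * ((tl (Sum.inl x : Lt A) i : ℤ) : ℝ)) = 1 := by
      intro x; simp [tl]
    simp only [e2, one_mul]
    rw [← Finset.sum_mul, h1, ← Finset.sum_mul, sum_exp_tl]
    ring

theorem EL_exp_tau_le (h1 : ∑ g ∈ S, μ g = 1) (θ : ℝ) (i : Fin 4) (n : ℕ) :
    EL S μ n (fun u => Real.exp (θ * ((tau u i : ℤ) : ℝ))) ≤ Real.exp (n * (θ ^ 2 / 2)) := by
  rw [EL_exp_tau h1, Real.exp_nat_mul]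
  refine pow_le_pow_left₀ ?_ ?_ n
  · positivity
  · refine le_trans ?_ (Real.cosh_le_exp_half_sq θ)
    rw [Real.cosh_eq]
    have h2 : 2 ≤ Real.exp θ + Real.exp (-θ) := by
      have := Real.one_le_cosh θ
      rw [Real.cosh_eq] at this
      linarith
    linarith

theorem exp_mx_le (θ : ℝ) (u : List (Lt A)) :
    Real.exp (θ * mx u) ≤ ∑ k ∈ Finset.range (u.length + 1), ∑ i : Fin 4,
      (Real.exp (θ * ((tau (u.take k) i : ℤ) : ℝ)) + Real.exp (-θ * ((tau (u.take k) i : ℤ) : ℝ))) := by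
  obtain ⟨k, hk, e1⟩ := Finset.exists_mem_eq_sup (Finset.range (u.length + 1))
    ⟨0, by simp⟩ (fun k => Finset.univ.sup (fun i => (tau (u.take k) i).natAbs))
  obtain ⟨i, hi, e2⟩ := Finset.exists_mem_eq_sup (Finset.univ : Finset (Fin 4))
    ⟨0, by simp⟩ (fun i => (tau (u.take k) i).natAbs)
  have e : mx u = (tau (u.take k) i).natAbs := by
    unfold mx
    rw [e1]
    exact e2
  have h1 : Real.exp (θ * mx u) ≤ Real.exp (θ * ((tau (u.take k) i : ℤ) : ℝ))
      + Real.exp (-θ * ((tau (u.take k) i : ℤ) : ℝ)) := by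
    rw [e, Nat.cast_natAbs, Int.cast_abs]
    rcases abs_cases ((tau (u.take k) i : ℤ) : ℝ) with ⟨h, _⟩ | ⟨h, _⟩
    · rw [h]
      linarith [Real.exp_pos (-θ * ((tau (u.take k) i : ℤ) : ℝ))]
    · rw [h]
      have : θ * -((tau (u.take k) i : ℤ) : ℝ) = -θ * ((tau (u.take k) i : ℤ) : ℝ) := by ring
      rw [this]
      linarith [Real.exp_pos (θ * ((tau (u.take k) i : ℤ) : ℝ))]
  refine h1.trans ?_
  refine le_trans ?_ (Finset.single_le_sum (f := fun k => ∑ i : Fin 4,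
      (Real.exp (θ * ((tau (u.take k) i : ℤ) : ℝ)) + Real.exp (-θ * ((tau (u.take k) i : ℤ) : ℝ))))
      (fun k _ => Finset.sum_nonneg (fun i _ => by positivity)) hk)
  exact Finset.single_le_sum (f := fun i =>
      (Real.exp (θ * ((tau (u.take k) i : ℤ) : ℝ)) + Real.exp (-θ * ((tau (u.take k) i : ℤ) : ℝ))))
      (fun i _ => by positivity) hi

theorem EL_exp_mx (hμ : ∀ g, 0 ≤ μ g) (h1 : ∑ g ∈ S, μ g = 1) (θ : ℝ) (n : ℕ) :
    EL S μ n (fun u => Real.exp (θ * mx u)) ≤ 8 * (n + 1) * Real.exp (n * (θ ^ 2 / 2)) := by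
  have h2 : EL S μ n (fun u => Real.exp (θ * mx u)) ≤ EL S μ n (fun u =>
      ∑ k ∈ Finset.range (n + 1), ∑ i : Fin 4,
      (Real.exp (θ * ((tau (u.take k) i : ℤ) : ℝ))
        + Real.exp (-θ * ((tau (u.take k) i : ℤ) : ℝ)))) := by
    refine EL_mono hμ n _ _ ?_
    intro u hu
    have := exp_mx_le θ u
    rwa [hu] at this
  refine h2.trans ?_
  rw [EL_finsum]
  have h3 : ∀ k ∈ Finset.range (n + 1), EL S μ n (fun u => ∑ i : Fin 4,
      (Real.exp (θ * ((tau (u.take k) i : ℤ) : ℝ))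
        + Real.exp (-θ * ((tau (u.take k) i : ℤ) : ℝ)))) ≤ 8 * Real.exp (n * (θ ^ 2 / 2)) := by
    intro k hk
    have hk' : k ≤ n := by
      have := Finset.mem_range.1 hk
      omega
    rw [EL_finsum]
    have h4 : ∀ i ∈ (Finset.univ : Finset (Fin 4)), EL S μ n (fun u =>
        (Real.exp (θ * ((tau (u.take k) i : ℤ) : ℝ))
        + Real.exp (-θ * ((tau (u.take k) i : ℤ) : ℝ)))) ≤ 2 * Real.exp (n * (θ ^ 2 / 2)) := by
      intro i _
      rw [EL_add]
      have e1 := EL_take (S := S) (μ := μ) h1 n k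
        (fun u => Real.exp (θ * ((tau u i : ℤ) : ℝ))) hk'
      have e2 := EL_take (S := S) (μ := μ) h1 n k
        (fun u => Real.exp (-θ * ((tau u i : ℤ) : ℝ))) hk'
      rw [e1, e2]
      have e3 := EL_exp_tau_le (S := S) (μ := μ) h1 θ i k
      have e4 := EL_exp_tau_le (S := S) (μ := μ) h1 (-θ) i k
      rw [neg_sq] at e4
      have e5 : Real.exp (k * (θ ^ 2 / 2)) ≤ Real.exp (n * (θ ^ 2 / 2)) := by
        refine Real.exp_le_exp.2 ?_
        have : (k : ℝ) ≤ n := by exact_mod_cast hk'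
        exact mul_le_mul_of_nonneg_right this (by positivity)
      linarith
    refine (Finset.sum_le_sum h4).trans ?_
    rw [Finset.sum_const, Finset.card_univ, Fintype.card_fin]
    simp only [nsmul_eq_mul]
    push_cast
    linarith
  refine (Finset.sum_le_sum h3).trans ?_
  rw [Finset.sum_const, Finset.card_range, nsmul_eq_mul]
  push_cast
  linarith

/-- The logarithmic correction. -/
noncomputable def Lg (n : ℕ) : ℝ := Real.log (8 * (n + 1)) + 1 / 2

theorem EL_mx_le (hμ : ∀ g, 0 ≤ μ g) (h1 : ∑ g ∈ S, μ g = 1) (n : ℕ) (hn : 1 ≤ n) :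
    EL S μ n (fun u => (mx u : ℝ)) ≤ Real.sqrt n * Lg n := by
  have hn0 : (0 : ℝ) < n := by exact_mod_cast hn
  have hs : 0 < Real.sqrt n := Real.sqrt_pos.2 hn0
  set θ := (Real.sqrt n)⁻¹ with hθ
  have hθn : (n : ℝ) * (θ ^ 2 / 2) = 1 / 2 := by
    rw [hθ, inv_pow, Real.sq_sqrt hn0.le]
    field_simp
  set c := Lg n with hc
  have hpt : ∀ u : List (Lt A), (mx u : ℝ) ≤ Real.sqrt n * (c - 1)
      + (Real.sqrt n * Real.exp (-c)) * Real.exp (θ * mx u) := by
    intro u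
    have h2 := Real.add_one_le_exp (θ * mx u - c)
    have h3 : Real.exp (θ * mx u - c) = Real.exp (-c) * Real.exp (θ * mx u) := by
      rw [← Real.exp_add]; congr 1; ring
    rw [h3] at h2
    have h4 : θ * mx u ≤ (c - 1) + Real.exp (-c) * Real.exp (θ * mx u) := by linarith
    have h5 := mul_le_mul_of_nonneg_left h4 hs.le
    have h6 : Real.sqrt n * (θ * mx u) = mx u := by
      rw [hθ, ← mul_assoc, mul_inv_cancel₀ hs.ne', one_mul]
    rw [h6] at h5
    linarith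
  have h2 := EL_mono (S := S) hμ n _ _ (fun u _ => hpt u)
  rw [EL_add, EL_const h1, EL_smul] at h2
  have h3 := EL_exp_mx hμ h1 θ n
  rw [hθn] at h3
  have h4 : Real.exp (-c) * (8 * (n + 1) * Real.exp (1 / 2)) = 1 := by
    have h5 : (8 : ℝ) * (n + 1) = Real.exp (Real.log (8 * (n + 1))) :=
      (Real.exp_log (by positivity)).symm
    rw [h5, ← Real.exp_add, ← Real.exp_add, hc, Lg]
    rw [show -(Real.log (8 * ((n : ℝ) + 1)) + 1 / 2) + (Real.log (8 * ((n : ℝ) + 1)) + 1 / 2) = 0 by ring,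
      Real.exp_zero]
  have h5 : (Real.sqrt n * Real.exp (-c)) * EL S μ n (fun u => Real.exp (θ * mx u))
      ≤ Real.sqrt n := by
    calc (Real.sqrt n * Real.exp (-c)) * EL S μ n (fun u => Real.exp (θ * mx u))
        ≤ (Real.sqrt n * Real.exp (-c)) * (8 * (n + 1) * Real.exp (1 / 2)) :=
          mul_le_mul_of_nonneg_left h3 (by positivity)
      _ = Real.sqrt n * (Real.exp (-c) * (8 * (n + 1) * Real.exp (1 / 2))) := by ring
      _ = Real.sqrt n := by rw [h4, mul_one]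
  linarith

/-- The finite ball that contains every lamp of a word of length `n`. -/
noncomputable def BF (n : ℕ) : Finset X := (ballL (n + 1)).toFinset

theorem cnt_eq_zero_of_notMem {n : ℕ} {p : X} (hp : p ∉ BF n) (u : List (Lt A))
    (hu : u.length = n) : cnt u p = 0 := by
  by_contra h
  refine hp ?_
  unfold BF
  rw [List.mem_toFinset, mem_ballL]
  rcases p with _ | ⟨i, k⟩
  · exact Or.inl rfl
  · have h1 := cnt_ball h
    have h2 := mx_le_length u
    exact Or.inr ⟨i, k, by omega, rfl⟩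

theorem V_eq_zero (hμ : ∀ g, 0 ≤ μ g) {n : ℕ} {p : X} (hp : p ∉ BF n) (ψ : ℕ → ℝ)
    (h0 : ψ 0 = 0) : V S μ n ψ p = 0 := by
  refine le_antisymm ?_ ?_
  · have := EL_mono (S := S) hμ n (fun u => ψ (cnt u p)) (fun _ => 0) (by
      intro u hu
      show ψ (cnt u p) ≤ 0
      rw [cnt_eq_zero_of_notMem hp u hu, h0])
    rwa [EL_zero'] at this
  · have := EL_mono (S := S) hμ n (fun _ => 0) (fun u => ψ (cnt u p)) (by
      intro u hu
      show 0 ≤ ψ (cnt u p)
      rw [cnt_eq_zero_of_notMem hp u hu, h0])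
    rwa [EL_zero'] at this

/-- Total over the ball. -/
noncomputable def Tt (S : Finset A) (μ : A → ℝ) (n : ℕ) (ψ : ℕ → ℝ) : ℝ :=
  ∑ p ∈ BF n, V S μ n ψ p

theorem Tt_eq_tsum (hμ : ∀ g, 0 ≤ μ g) (n : ℕ) (ψ : ℕ → ℝ) (h0 : ψ 0 = 0) :
    Tt S μ n ψ = ∑' p, V S μ n ψ p :=
  (tsum_eq_sum (fun _ hp => V_eq_zero hμ hp ψ h0)).symm

theorem Tt_id (hμ : ∀ g, 0 ≤ μ g) (h1 : ∑ g ∈ S, μ g = 1) (n : ℕ) :
    Tt S μ n (fun j => (j : ℝ)) = n / 2 := by
  rw [Tt_eq_tsum hμ n _ (by simp)]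
  exact (hasSum_gn h1 n).tsum_eq

theorem Tt_sq (hμ : ∀ g, 0 ≤ μ g) (h1 : ∑ g ∈ S, μ g = 1) (n M : ℕ) (hM : 1 ≤ M)
    (hn : n ≤ M * M) : Tt S μ n (fun j => (j : ℝ) ^ 2) ≤ 42 * n * M := by
  rw [Tt_eq_tsum hμ n _ (by simp)]
  exact (tsum_sq_le hμ h1 n M hM hn).2

theorem Tt_mono (hμ : ∀ g, 0 ≤ μ g) (n : ℕ) (ψ χ : ℕ → ℝ) (h : ∀ j, ψ j ≤ χ j) :
    Tt S μ n ψ ≤ Tt S μ n χ :=
  Finset.sum_le_sum (fun p _ => V_mono hμ n ψ χ h p)

theorem Tt_add (n : ℕ) (ψ χ : ℕ → ℝ) :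
    Tt S μ n (fun j => ψ j + χ j) = Tt S μ n ψ + Tt S μ n χ := by
  unfold Tt
  rw [← Finset.sum_add_distrib]
  exact Finset.sum_congr rfl (fun p _ => V_add n ψ χ p)

theorem Tt_smul (n : ℕ) (c : ℝ) (ψ : ℕ → ℝ) :
    Tt S μ n (fun j => c * ψ j) = c * Tt S μ n ψ := by
  unfold Tt
  rw [Finset.mul_sum]
  exact Finset.sum_congr rfl (fun p _ => V_smul n c ψ p)

theorem Tt_eq_EL (n : ℕ) (ψ : ℕ → ℝ) :
    Tt S μ n ψ = EL S μ n (fun u => ∑ p ∈ BF n, ψ (cnt u p)) := by
  unfold Tt V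
  rw [EL_finsum]

/-- The expected number of visited points. -/
theorem Tt_ind (hμ : ∀ g, 0 ≤ μ g) (h1 : ∑ g ∈ S, μ g = 1) (n : ℕ) (hn : 1 ≤ n) :
    Tt S μ n (fun j => if j = 0 then 0 else 1) ≤ 4 * (Real.sqrt n * Lg n) + 5 := by
  classical
  rw [Tt_eq_EL]
  have hpt : ∀ u : List (Lt A), (∑ p ∈ BF n, (if cnt u p = 0 then (0 : ℝ) else 1))
      ≤ 4 * (mx u : ℝ) + 5 := by
    intro u
    have h2 : (∑ p ∈ BF n, (if cnt u p = 0 then (0 : ℝ) else 1))
        = (((BF n).filter (fun p => ¬ cnt u p = 0)).card : ℝ) := by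
      rw [Finset.card_filter]
      push_cast
      refine Finset.sum_congr rfl ?_
      intro p _
      by_cases h : cnt u p = 0 <;> simp [h]
    rw [h2]
    have h3 : ((BF n).filter (fun p => ¬ cnt u p = 0)).card ≤ (ballL (mx u + 1)).length := by
      refine le_trans (Finset.card_le_card ?_) (List.toFinset_card_le (ballL (mx u + 1)))
      intro p hp
      rw [Finset.mem_filter] at hp
      rw [List.mem_toFinset, mem_ballL]
      rcases p with _ | ⟨i, k⟩
      · exact Or.inl rfl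
      · exact Or.inr ⟨i, k, by have := cnt_ball hp.2; omega, rfl⟩
    rw [length_ballL] at h3
    have h4 : (((BF n).filter (fun p => ¬ cnt u p = 0)).card : ℝ) ≤ ((4 * (mx u + 1) + 1 : ℕ) : ℝ) := by
      exact_mod_cast h3
    push_cast at h4
    linarith
  have h5 := EL_mono (S := S) hμ n _ _ (fun u _ => hpt u)
  rw [EL_add, EL_const h1, EL_smul] at h5
  have h6 := EL_mx_le hμ h1 n hn
  linarith

end

end Pool.SpeedFP
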