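import Pool.Agent.SpeedFP.Present
import Pool.Agent.SpeedFP.Max

/-!
The step distribution on the finitely presented group and the two-sided bound for the expected
word length.
-/

set_option autoImplicit false
set_option linter.unusedSectionVars false

namespace Pool.SpeedFP

open scoped Classical in
/-- Push-forward weight. -/
noncomputable def muG {n : ℕ} {rels : Finset (FreeGroup (Fin n))} (S : Finset (LA n rels))
    (μ : LA n rels → ℝ) (g : Gam n rels) : ℝ :=
  1 / 2 * ∑ x ∈ S, μ x * (if aG x = g then 1 else 0)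
    + 1 / 40 * ∑ c : Sym, (if ev (tG n rels) (sG n rels) c = g then 1 else 0)

open scoped Classical in
/-- Support of the step distribution. -/
noncomputable def SG {n : ℕ} {rels : Finset (FreeGroup (Fin n))} (S : Finset (LA n rels)) :
    Finset (Gam n rels) :=
  S.image aG ∪ Finset.univ.image (ev (tG n rels) (sG n rels))

section
variable {n : ℕ} {rels : Finset (FreeGroup (Fin n))} {S : Finset (LA n rels)} {μ : LA n rels → ℝ}

theorem muG_nonneg (hμ : ∀ g, 0 ≤ μ g) (g : Gam n rels) : 0 ≤ muG S μ g := by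
  classical
  unfold muG
  have h1 : 0 ≤ ∑ x ∈ S, μ x * (if aG x = g then (1 : ℝ) else 0) :=
    Finset.sum_nonneg (fun x _ => mul_nonneg (hμ x) (by split_ifs <;> norm_num))
  have h2 : 0 ≤ ∑ c : Sym, (if ev (tG n rels) (sG n rels) c = g then (1 : ℝ) else 0) :=
    Finset.sum_nonneg (fun c _ => by split_ifs <;> norm_num)
  linarith

theorem muG_zero {g : Gam n rels} (hg : g ∉ SG S) : muG S μ g = 0 := by
  classical
  unfold SG at hg
  rw [Finset.mem_union, not_or] at hg
  unfold muG
  have h1 : ∑ x ∈ S, μ x * (if aG x = g then (1 : ℝ) else 0) = 0 := by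
    refine Finset.sum_eq_zero ?_
    intro x hx
    rw [if_neg, mul_zero]
    rintro rfl
    exact hg.1 (Finset.mem_image_of_mem _ hx)
  have h2 : ∑ c : Sym, (if ev (tG n rels) (sG n rels) c = g then (1 : ℝ) else 0) = 0 := by
    refine Finset.sum_eq_zero ?_
    intro c _
    rw [if_neg]
    rintro rfl
    exact hg.2 (Finset.mem_image_of_mem _ (Finset.mem_univ c))
  rw [h1, h2]; ring

theorem sum_muG (F : Gam n rels → ℝ) : ∑ g ∈ SG S, muG S μ g * F g
    = 1 / 2 * ∑ x ∈ S, μ x * F (aG x)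
      + 1 / 40 * ∑ c : Sym, F (ev (tG n rels) (sG n rels) c) := by
  classical
  have e : ∀ g, muG S μ g * F g = 1 / 2 * ∑ x ∈ S, (if aG x = g then μ x * F g else 0)
      + 1 / 40 * ∑ c : Sym, (if ev (tG n rels) (sG n rels) c = g then F g else 0) := by
    intro g
    unfold muG
    rw [add_mul, mul_assoc, mul_assoc, Finset.sum_mul, Finset.sum_mul]
    congr 2
    · refine Finset.sum_congr rfl ?_
      intro x _
      split_ifs <;> ring
    · refine Finset.sum_congr rfl ?_
      intro c _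
      split_ifs <;> ring
  simp only [e]
  rw [Finset.sum_add_distrib, ← Finset.mul_sum, ← Finset.mul_sum, Finset.sum_comm,
    Finset.sum_comm (s := SG S) (t := (Finset.univ : Finset Sym))]
  congr 2
  · refine Finset.sum_congr rfl ?_
    intro x hx
    rw [Finset.sum_ite_eq, if_pos]
    unfold SG
    exact Finset.mem_union_left _ (Finset.mem_image_of_mem _ hx)
  · refine Finset.sum_congr rfl ?_
    intro c _
    rw [Finset.sum_ite_eq, if_pos]
    unfold SG
    exact Finset.mem_union_right _ (Finset.mem_image_of_mem _ (Finset.mem_univ c))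

theorem sum_muG_one (h1 : ∑ g ∈ S, μ g = 1) : ∑ g ∈ SG S, muG S μ g = 1 := by
  have := sum_muG (S := S) (μ := μ) (fun _ => 1)
  simp only [mul_one] at this
  rw [this, h1, Finset.sum_const, Finset.card_univ, card_sym]
  norm_num

/-- Inverse of a letter. -/
def symInv : Sym ≃ Sym where
  toFun c := match c with
    | Sum.inl p => Sum.inl (p.2, p.1)
    | Sum.inr i => Sum.inr i
  invFun c := match c with
    | Sum.inl p => Sum.inl (p.2, p.1)
    | Sum.inr i => Sum.inr i
  left_inv c := by rcases c with ⟨i, j⟩ | i <;> rfl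
  right_inv c := by rcases c with ⟨i, j⟩ | i <;> rfl

theorem ev_symInv (c : Sym) :
    ev (tG n rels) (sG n rels) (symInv c) = (ev (tG n rels) (sG n rels) c)⁻¹ := by
  rcases c with ⟨i, j⟩ | i
  · exact (hrel_gam (rels := rels)).tinv i j
  · show sG n rels i = (sG n rels i)⁻¹
    rw [eq_comm, inv_eq_iff_mul_eq_one]
    exact (hrel_gam (rels := rels)).s1 i

theorem sum_symm {B : Type*} [Group B] (S : Finset B) (μ : B → ℝ) (h0 : ∀ g, g ∉ S → μ g = 0)
    (hs : ∀ g, μ g⁻¹ = μ g) (F : B → ℝ) : ∑ x ∈ S, μ x * F x = ∑ x ∈ S, μ x * F x⁻¹ := by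
  classical
  have e1 : ∀ K : B → ℝ, ∑ x ∈ S, μ x * K x = ∑ x ∈ S ∪ S.image (fun x => x⁻¹), μ x * K x := by
    intro K
    refine Finset.sum_subset Finset.subset_union_left ?_
    intro x _ hx
    rw [h0 x hx, zero_mul]
  rw [e1 F, e1 (fun x => F x⁻¹)]
  refine Finset.sum_nbij' (fun x => x⁻¹) (fun x => x⁻¹) ?_ ?_ ?_ ?_ ?_
  · intro x hx
    rw [Finset.mem_union, Finset.mem_image] at hx ⊢
    rcases hx with hx | ⟨y, hy, rfl⟩
    · exact Or.inr ⟨x, hx, rfl⟩
    · exact Or.inl (by rwa [inv_inv])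
  · intro x hx
    rw [Finset.mem_union, Finset.mem_image] at hx ⊢
    rcases hx with hx | ⟨y, hy, rfl⟩
    · exact Or.inr ⟨x, hx, rfl⟩
    · exact Or.inl (by rwa [inv_inv])
  · intro x _; exact inv_inv x
  · intro x _; exact inv_inv x
  · intro x _
    rw [hs, inv_inv]

theorem muG_inv (h0 : ∀ g, g ∉ S → μ g = 0) (hs : ∀ g, μ g⁻¹ = μ g) (g : Gam n rels) :
    muG S μ g⁻¹ = muG S μ g := by
  classical
  unfold muG
  congr 2
  · rw [sum_symm S μ h0 hs]
    refine Finset.sum_congr rfl ?_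
    intro x _
    congr 1
    rw [map_inv]
    by_cases h : aG x = g
    · rw [if_pos (by rw [h]), if_pos h]
    · rw [if_neg (by rwa [inv_inj]), if_neg h]
  · rw [← symInv.sum_comp]
    refine Finset.sum_congr rfl ?_
    intro c _
    rw [ev_symInv]
    by_cases h : ev (tG n rels) (sG n rels) c = g
    · rw [if_pos (by rw [h]), if_pos h]
    · rw [if_neg (by rwa [inv_inj]), if_neg h]

theorem muG_pos_ev (hμ : ∀ g, 0 ≤ μ g) (c : Sym) :
    0 < muG S μ (ev (tG n rels) (sG n rels) c) := by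
  classical
  unfold muG
  have h1 : 0 ≤ ∑ x ∈ S, μ x * (if aG x = ev (tG n rels) (sG n rels) c then (1 : ℝ) else 0) :=
    Finset.sum_nonneg (fun x _ => mul_nonneg (hμ x) (by split_ifs <;> norm_num))
  have h2 : (1 : ℝ) ≤ ∑ d : Sym, (if ev (tG n rels) (sG n rels) d
      = ev (tG n rels) (sG n rels) c then (1 : ℝ) else 0) := by
    have := Finset.single_le_sum (f := fun d : Sym => (if ev (tG n rels) (sG n rels) d
      = ev (tG n rels) (sG n rels) c then (1 : ℝ) else 0))
      (fun d _ => by split_ifs <;> norm_num) (Finset.mem_univ c)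
    simpa using this
  linarith

theorem muG_pos_a (hμ : ∀ g, 0 ≤ μ g) (h0 : ∀ g, g ∉ S → μ g = 0) {x : LA n rels}
    (hx : 0 < μ x) : 0 < muG S μ (aG x) := by
  classical
  have hxS : x ∈ S := by
    by_contra h
    rw [h0 x h] at hx
    exact lt_irrefl _ hx
  unfold muG
  have h1 : μ x ≤ ∑ y ∈ S, μ y * (if aG y = aG x then (1 : ℝ) else 0) := by
    have := Finset.single_le_sum (f := fun y => μ y * (if aG y = aG x then (1 : ℝ) else 0))
      (fun y _ => mul_nonneg (hμ y) (by split_ifs <;> norm_num)) hxS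
    simpa using this
  have h2 : 0 ≤ ∑ c : Sym, (if ev (tG n rels) (sG n rels) c = aG x then (1 : ℝ) else 0) :=
    Finset.sum_nonneg (fun c _ => by split_ifs <;> norm_num)
  linarith

theorem muG_closure (hμ : ∀ g, 0 ≤ μ g) (h0 : ∀ g, g ∉ S → μ g = 0)
    (hcl : Subgroup.closure {g : LA n rels | 0 < μ g} = ⊤) :
    Subgroup.closure {g : Gam n rels | 0 < muG S μ g} = ⊤ := by
  rw [eq_top_iff]
  intro g _
  refine PresentedGroup.generated_by _ _ ?_ g
  intro y
  obtain ⟨z, rfl⟩ := (ee n).surjective y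
  rcases z with k | c
  · have h1 : (⊤ : Subgroup (LA n rels)) ≤
        Subgroup.comap aG (Subgroup.closure {g : Gam n rels | 0 < muG S μ g}) := by
      rw [← hcl, Subgroup.closure_le]
      intro x hx
      exact Subgroup.subset_closure (muG_pos_a hμ h0 hx)
    have h2 := h1 (Subgroup.mem_top (PresentedGroup.of k : LA n rels))
    rw [Subgroup.mem_comap, aG_of] at h2
    exact h2
  · have h2 := muG_pos_ev (S := S) hμ c
    rcases c with ⟨i, j⟩ | i
    · exact Subgroup.subset_closure h2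
    · exact Subgroup.subset_closure h2

/-- The walk on the finitely presented group in terms of random words. -/
theorem Eg_gam (m : ℕ) : ∀ F : Gam n rels → ℝ,
    Eg (SG S) (muG S μ) m F = EL S μ m (fun u => F (W (tG n rels) (sG n rels) aG u)) := by
  induction m with
  | zero => intro F; rfl
  | succ m ih =>
    intro F
    show ∑ g ∈ SG S, muG S μ g * Eg (SG S) (muG S μ) m (fun h => F (g * h)) = _
    rw [sum_muG, EL_succ]
    simp only [ih]
    congr 1

/-- Word length in the lamp group. -/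
noncomputable def wA (g : LA n rels) : ℕ := wl (PresentedGroup.mk (rels : Set (FreeGroup (Fin n)))) g

/-- Word length in the finitely presented group. -/
noncomputable def wG (g : Gam n rels) : ℕ := wl (mkG n rels) g

theorem surjA : Function.Surjective (PresentedGroup.mk (rels : Set (FreeGroup (Fin n)))) :=
  PresentedGroup.mk_surjective _

theorem surjG : Function.Surjective (mkG n rels) := PresentedGroup.mk_surjective _

theorem wG_t (i j : Fin 4) : wG (tG n rels i j) ≤ 1 := wl_of_le (φ := mkG n rels) _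

theorem wG_s (i : Fin 4) : wG (sG n rels i) ≤ 1 := wl_of_le (φ := mkG n rels) _

theorem wG_a (x : LA n rels) : wG (aG x) ≤ wA x := by
  refine wl_map_le surjA surjG aG ?_ x
  intro k
  have h1 : aG (PresentedGroup.mk (rels : Set (FreeGroup (Fin n))) (FreeGroup.of k))
      = mkG n rels (gA n k) := aG_of k
  rw [h1]
  exact wl_of_le (φ := mkG n rels) _

theorem lenFn_wG : LenFn (wG (n := n) (rels := rels)) where
  one := wl_one
  mul := wl_mul_le surjG
  inv := wl_inv_le surjG

theorem PhiG_W (u : List (Lt (LA n rels))) :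
    (PhiG (W (tG n rels) (sG n rels) aG u)).left = cfg u := by
  rw [W_map PhiG PhiG_t PhiG_s PhiG_a, W_left]

theorem wG_lower (u : List (Lt (LA n rels))) (B : Finset X) :
    ∑ q ∈ B, wA (cfg u q) ≤ wG (W (tG n rels) (sG n rels) aG u) := by
  have := lower (A := LA n rels) (surjG (n := n) (rels := rels)) PhiG (lA := wA) wl_one
    (wl_mul_le surjA) (wl_inv_le surjA) (by
      intro y
      obtain ⟨z, rfl⟩ := (ee n).surjective y
      rcases z with k | ⟨i, j⟩ | i
      · refine Or.inl ⟨PresentedGroup.of k, wl_of_le (φ := PresentedGroup.mk _) k, ?_⟩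
        show PhiG (mkG n rels (gA n k)) = _
        rw [← aG_of, PhiG_a]
      · exact Or.inr ⟨T i j, PhiG_t i j⟩
      · exact Or.inr ⟨Sw i, PhiG_s i⟩) (W (tG n rels) (sG n rels) aG u) B
  rw [PhiG_W] at this
  exact this

theorem lg_mono {a b : ℕ} (h : a ≤ b) : lg a ≤ lg b := by
  unfold lg
  have := Nat.clog_mono_right 2 (show 100 * a + 8 ≤ 100 * b + 8 by omega)
  omega

theorem sum_ball_le {m : ℕ} (u : List (Lt (LA n rels))) (hu : u.length = m) :
    ((ballL (mx u + 1)).map (fun q => wA (cfg u q))).sum ≤ ∑ q ∈ BF m, wA (cfg u q) := by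
  classical
  rw [← List.sum_toFinset _ (nodup_ballL _)]
  refine Finset.sum_le_sum_of_subset ?_
  intro p hp
  unfold BF
  rw [List.mem_toFinset, mem_ballL] at hp ⊢
  have h2 := mx_le_length u
  rcases hp with h | ⟨i, k, hk, h⟩
  · exact Or.inl h
  · exact Or.inr ⟨i, k, by omega, h⟩

theorem wG_upper {m : ℕ} (u : List (Lt (LA n rels))) (hu : u.length = m) :
    (wG (W (tG n rels) (sG n rels) aG u) : ℝ)
      ≤ ∑ q ∈ BF m, (wA (cfg u q) : ℝ) + (2016 * (lg (2 * m + 1) : ℝ)) * ((mx u : ℝ) + 1) := by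
  have h1 := len_W (a := aG) hrel_gam lrel_gam (std_gam (n := n) (rels := rels)) lenFn_wG
    wG_t wG_s (lA := wA) wG_a u
  have h2 := sum_ball_le u hu
  have h3 : lg (2 * mx u + 1) ≤ lg (2 * m + 1) := by
    have := mx_le_length u
    exact lg_mono (by omega)
  have h4 : 1 ≤ lg (2 * m + 1) := by unfold lg; omega
  have h5 : wG (W (tG n rels) (sG n rels) aG u)
      ≤ ∑ q ∈ BF m, wA (cfg u q) + (2016 * lg (2 * m + 1)) * (mx u + 1) := by
    have h6 : 1000 * (2 * mx u + 1 + 1) * lg (2 * mx u + 1)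
        ≤ 1000 * (2 * mx u + 1 + 1) * lg (2 * m + 1) := Nat.mul_le_mul_left _ h3
    nlinarith
  have h7 : (wG (W (tG n rels) (sG n rels) aG u) : ℝ)
      ≤ ((∑ q ∈ BF m, wA (cfg u q) + (2016 * lg (2 * m + 1)) * (mx u + 1) : ℕ) : ℝ) := by
    exact_mod_cast h5
  push_cast at h7
  exact h7

/-- Expected word length of the lamp walk. -/
noncomputable def eA (S : Finset (LA n rels)) (μ : LA n rels → ℝ) (j : ℕ) : ℝ :=
  Eg S μ j (fun g => (wA g : ℝ))

/-- Expected word length of the walk on the finitely presented group. -/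
noncomputable def eG (S : Finset (LA n rels)) (μ : LA n rels → ℝ) (m : ℕ) : ℝ :=
  Eg (SG S) (muG S μ) m (fun g => (wG g : ℝ))

theorem EL_sum_cfg (h1 : ∑ g ∈ S, μ g = 1) (m : ℕ) :
    EL S μ m (fun u => ∑ q ∈ BF m, (wA (cfg u q) : ℝ)) = Tt S μ m (eA S μ) := by
  rw [EL_finsum]
  unfold Tt
  refine Finset.sum_congr rfl ?_
  intro q _
  exact EL_cfg h1 m (fun g => (wA g : ℝ)) q

theorem eG_lower (hμ : ∀ g, 0 ≤ μ g) (h1 : ∑ g ∈ S, μ g = 1) (m : ℕ) :
    Tt S μ m (eA S μ) ≤ eG S μ m := by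
  unfold eG
  rw [Eg_gam, ← EL_sum_cfg h1]
  refine EL_mono hμ m _ _ ?_
  intro u _
  exact_mod_cast wG_lower u (BF m)

theorem eG_upper (hμ : ∀ g, 0 ≤ μ g) (h1 : ∑ g ∈ S, μ g = 1) (m : ℕ) (hm : 1 ≤ m) :
    eG S μ m ≤ Tt S μ m (eA S μ)
      + (2016 * (lg (2 * m + 1) : ℝ)) * (Real.sqrt m * Lg m + 1) := by
  unfold eG
  rw [Eg_gam]
  refine (EL_mono hμ m _ _ (fun u hu => wG_upper u hu)).trans ?_
  rw [EL_add, EL_sum_cfg h1, EL_smul, EL_add, EL_const h1]
  have h2 := EL_mx_le hμ h1 m hm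
  have h3 : (0 : ℝ) ≤ 2016 * (lg (2 * m + 1) : ℝ) := by positivity
  have h4 := mul_le_mul_of_nonneg_left (add_le_add_left h2 1) h3
  linarith

end

end Pool.SpeedFP
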