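import Mathlib

/-!
The permutations of the four-ray set `Option (Fin 4 × ℕ)` used throughout: `T i j` moves ray `i`
one step towards the centre and ray `j` one step outwards (the head of ray `i` becomes the head of
ray `j`); `Sw i` swaps the centre `none` with the head of ray `i`.
-/

set_option autoImplicit false

namespace Pool.SpeedFP

/-- The four-ray set without its centre. -/
abbrev Y : Type := Fin 4 × ℕ

/-- The four-ray set with its centre `none`. -/
abbrev X : Type := Option (Fin 4 × ℕ)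

/-- The action of `t i j` on the rays. -/
def Yf (i j : Fin 4) (x : Y) : Y :=
  if i = j then x
  else if x.1 = i then (if x.2 = 0 then (j, 0) else (i, x.2 - 1))
  else if x.1 = j then (j, x.2 + 1) else x

theorem Yf_self (i : Fin 4) (x : Y) : Yf i i x = x := by simp [Yf]

theorem Yf_src_zero {i j : Fin 4} (h : i ≠ j) : Yf i j (i, 0) = (j, 0) := by simp [Yf, h]

theorem Yf_src_succ {i j : Fin 4} (h : i ≠ j) (k : ℕ) : Yf i j (i, k + 1) = (i, k) := by
  simp [Yf, h]

theorem Yf_tgt {i j : Fin 4} (h : i ≠ j) (k : ℕ) : Yf i j (j, k) = (j, k + 1) := by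
  simp [Yf, h, h.symm]

theorem Yf_other {i j a : Fin 4} (h1 : a ≠ i) (h2 : a ≠ j) (k : ℕ) : Yf i j (a, k) = (a, k) := by
  by_cases h : i = j <;> simp [Yf, h, h1, h2]

theorem Yf_Yf (i j : Fin 4) (x : Y) : Yf j i (Yf i j x) = x := by
  by_cases h : i = j
  · subst h; simp [Yf_self]
  obtain ⟨a, k⟩ := x
  by_cases ha : a = i
  · subst ha
    cases k with
    | zero => rw [Yf_src_zero h, Yf_src_zero (Ne.symm h)]
    | succ k => rw [Yf_src_succ h, Yf_tgt (Ne.symm h)]
  · by_cases hb : a = j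
    · subst hb
      rw [Yf_tgt h, Yf_src_succ (Ne.symm h)]
    · rw [Yf_other ha hb, Yf_other hb ha]

/-- The permutation `t i j` of the rays. -/
def YT (i j : Fin 4) : Equiv.Perm Y where
  toFun := Yf i j
  invFun := Yf j i
  left_inv := Yf_Yf i j
  right_inv := Yf_Yf j i

/-- The permutation `t i j` of the four-ray set. -/
def T (i j : Fin 4) : Equiv.Perm X := Equiv.optionCongr (YT i j)

/-- The permutation that swaps the centre with the head of ray `i`. -/
def Sw (i : Fin 4) : Equiv.Perm X := Equiv.swap none (some (i, 0))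

@[simp] theorem T_none (i j : Fin 4) : T i j none = none := rfl

@[simp] theorem T_some (i j : Fin 4) (x : Y) : T i j (some x) = some (Yf i j x) := rfl

theorem T_self (i : Fin 4) : T i i = 1 := by
  ext x
  rcases x with _ | x
  · rfl
  · simp [Yf_self]

theorem T_inv (i j : Fin 4) : T j i = (T i j)⁻¹ := by
  rw [eq_inv_iff_mul_eq_one]
  ext x
  rcases x with _ | x
  · rfl
  · simp [Yf_Yf]

theorem Sw_mul_self (i : Fin 4) : Sw i * Sw i = 1 := by
  simp [Sw]

theorem Sw_inv (i : Fin 4) : (Sw i)⁻¹ = Sw i := by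
  rw [inv_eq_iff_mul_eq_one, Sw_mul_self]

theorem Sw_none (i : Fin 4) : Sw i none = some (i, 0) := by simp [Sw]

theorem Sw_head (i : Fin 4) : Sw i (some (i, 0)) = none := by simp [Sw]

theorem Sw_other {i : Fin 4} {x : Y} (h : x ≠ (i, 0)) : Sw i (some x) = some x := by
  unfold Sw
  rw [Equiv.swap_apply_of_ne_of_ne (by simp) (by simpa using h)]

/-- Relation (C). -/
theorem T_C {i j m : Fin 4} (hij : i ≠ j) (him : i ≠ m) (hjm : j ≠ m) :
    T i j * T m i = T m j := by
  ext x
  rcases x with _ | ⟨a, k⟩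
  · rfl
  simp only [Equiv.Perm.coe_mul, Function.comp_apply, T_some]
  by_cases ha : a = m
  · subst ha
    cases k with
    | zero => rw [Yf_src_zero (Ne.symm him), Yf_src_zero hij, Yf_src_zero (Ne.symm hjm)]
    | succ k =>
      rw [Yf_src_succ (Ne.symm him), Yf_src_succ (Ne.symm hjm), Yf_other (Ne.symm him) (Ne.symm hjm)]
  · by_cases hb : a = i
    · subst hb
      rw [Yf_tgt (Ne.symm him), Yf_src_succ hij, Yf_other him hij]
    · by_cases hc : a = j
      · subst hc
        rw [Yf_other hjm (Ne.symm hij), Yf_tgt hij, Yf_tgt (Ne.symm hjm)]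
      · rw [Yf_other ha hb, Yf_other hb hc, Yf_other ha hc]

/-- Relation (D). -/
theorem T_D {i j m l : Fin 4} (h1 : i ≠ m) (h2 : i ≠ l) (h3 : j ≠ m) (h4 : j ≠ l) :
    T i j * T m l = T m l * T i j := by
  ext x
  rcases x with _ | ⟨a, k⟩
  · rfl
  simp only [Equiv.Perm.coe_mul, Function.comp_apply, T_some]
  by_cases hij : i = j
  · subst hij; simp [Yf_self]
  by_cases hml : m = l
  · subst hml; simp [Yf_self]
  by_cases ha : a = i
  · subst ha
    rw [Yf_other h1 h2]
    cases k with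
    | zero => rw [Yf_src_zero hij, Yf_other h3 h4]
    | succ k => rw [Yf_src_succ hij, Yf_other h1 h2]
  by_cases hb : a = j
  · subst hb
    rw [Yf_other h3 h4, Yf_tgt hij, Yf_other h3 h4]
  by_cases hc : a = m
  · subst hc
    rw [Yf_other ha hb]
    cases k with
    | zero => rw [Yf_src_zero hml, Yf_other (Ne.symm h2) (Ne.symm h4)]
    | succ k => rw [Yf_src_succ hml, Yf_other ha hb]
  by_cases hd : a = l
  · subst hd
    rw [Yf_other ha hb, Yf_tgt hml, Yf_other ha hb]
  rw [Yf_other hc hd, Yf_other ha hb, Yf_other hc hd]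

/-- Relation (E). -/
theorem T_E (i j : Fin 4) : T i j * Sw i * (T i j)⁻¹ = Sw j := by
  by_cases hij : i = j
  · subst hij; simp [T_self]
  unfold Sw
  rw [← Equiv.swap_apply_apply, T_none, T_some, Yf_src_zero hij]

/-- Relation (F). -/
theorem T_F {i m l : Fin 4} (h1 : i ≠ m) (h2 : i ≠ l) : T m l * Sw i = Sw i * T m l := by
  rw [← mul_inv_eq_iff_eq_mul]
  unfold Sw
  rw [← Equiv.swap_apply_apply, T_none, T_some, Yf_other h1 h2]

theorem Sw_S2 {i j : Fin 4} (h : i ≠ j) : Sw i * Sw j * Sw i = Sw j * Sw i * Sw j := by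
  have e1 : Sw i * Sw j * (Sw i)⁻¹ = Equiv.swap (some (i, 0)) (some (j, 0)) := by
    conv_lhs => rw [show Sw j = Equiv.swap none (some (j, 0)) from rfl]
    rw [← Equiv.swap_apply_apply, Sw_none, Sw_other (by simp [Ne.symm h])]
  have e2 : Sw j * Sw i * (Sw j)⁻¹ = Equiv.swap (some (j, 0)) (some (i, 0)) := by
    conv_lhs => rw [show Sw i = Equiv.swap none (some (i, 0)) from rfl]
    rw [← Equiv.swap_apply_apply, Sw_none, Sw_other (by simp [h])]
  rw [Sw_inv] at e1 e2
  rw [e1, e2, Equiv.swap_comm]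

theorem Sw_conj {i j : Fin 4} (h : i ≠ j) :
    Sw i * Sw j * Sw i = Equiv.swap (some (i, 0)) (some (j, 0)) := by
  have e1 : Sw i * Sw j * (Sw i)⁻¹ = Equiv.swap (some (i, 0)) (some (j, 0)) := by
    conv_lhs => rw [show Sw j = Equiv.swap none (some (j, 0)) from rfl]
    rw [← Equiv.swap_apply_apply, Sw_none, Sw_other (by simp [Ne.symm h])]
  rwa [Sw_inv] at e1

theorem Sw_S3 {i j m : Fin 4} (hij : i ≠ j) (him : i ≠ m) (hjm : j ≠ m) :
    (Sw i * Sw j * Sw i) * Sw m = Sw m * (Sw i * Sw j * Sw i) := by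
  rw [Sw_conj hij, ← mul_inv_eq_iff_eq_mul]
  conv_lhs => rw [show Sw m = Equiv.swap none (some (m, 0)) from rfl]
  rw [← Equiv.swap_apply_apply, Equiv.swap_apply_of_ne_of_ne (by simp) (by simp),
    Equiv.swap_apply_of_ne_of_ne (by simp [Ne.symm him]) (by simp [Ne.symm hjm])]
  rfl

/-- Relation (K). -/
theorem T_K {i j m : Fin 4} (hij : i ≠ j) (him : i ≠ m) (hjm : j ≠ m) :
    T i j * T i m = (Sw j * Sw m * Sw j) * T i m * T i j := by
  rw [Sw_conj hjm]
  ext x
  rcases x with _ | ⟨a, k⟩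
  · simp only [Equiv.Perm.coe_mul, Function.comp_apply, T_none]
    rw [Equiv.swap_apply_of_ne_of_ne (by simp) (by simp)]
  simp only [Equiv.Perm.coe_mul, Function.comp_apply, T_some]
  by_cases ha : a = i
  · subst ha
    rcases k with _ | _ | k
    · rw [Yf_src_zero him, Yf_src_zero hij, Yf_other (Ne.symm him) (Ne.symm hjm),
        Yf_other (Ne.symm hij) hjm, Equiv.swap_apply_left]
    · rw [Yf_src_succ him, Yf_src_succ hij, Yf_src_zero hij, Yf_src_zero him,
        Equiv.swap_apply_right]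
    · rw [Yf_src_succ him, Yf_src_succ hij, Yf_src_succ hij, Yf_src_succ him,
        Equiv.swap_apply_of_ne_of_ne (by simp [hij]) (by simp [him])]
  by_cases hb : a = j
  · subst hb
    rw [Yf_other ha hjm, Yf_tgt hij, Yf_other ha hjm,
      Equiv.swap_apply_of_ne_of_ne (by simp) (by simp)]
  by_cases hc : a = m
  · subst hc
    rw [Yf_tgt him, Yf_other ha hb, Yf_other ha hb, Yf_tgt him,
      Equiv.swap_apply_of_ne_of_ne (by simp) (by simp)]
  rw [Yf_other ha hc, Yf_other ha hb, Yf_other ha hc,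
    Equiv.swap_apply_of_ne_of_ne (by simp [hb]) (by simp [hc])]

end Pool.SpeedFP
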