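import Pool.Agent.SpeedFP.Ambient

/-!
The finitely presented group attached to a finite presentation `(n, rels)`: generators are the
generators of the lamp group, the `t i j` and the `s i`.
-/

set_option autoImplicit false

namespace Pool.SpeedFP

section
variable (n : ℕ)

/-- Generators. -/
abbrev Gi : Type := Fin n ⊕ Sym

/-- Number of generators. -/
def NN : ℕ := Fintype.card (Gi n)

/-- Numbering of the generators. -/
noncomputable def ee : Gi n ≃ Fin (NN n) := Fintype.equivFin _

/-- Lamp generator. -/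
noncomputable def gA (k : Fin n) : FreeGroup (Fin (NN n)) := FreeGroup.of (ee n (Sum.inl k))

/-- Generator `t i j`. -/
noncomputable def gt (i j : Fin 4) : FreeGroup (Fin (NN n)) :=
  FreeGroup.of (ee n (Sum.inr (Sum.inl (i, j))))

/-- Generator `s i`. -/
noncomputable def gs (i : Fin 4) : FreeGroup (Fin (NN n)) :=
  FreeGroup.of (ee n (Sum.inr (Sum.inr i)))

/-- The defining relations, as pairs `(x, y)` standing for `x = y`. -/
noncomputable def relPairs : Set (FreeGroup (Fin (NN n)) × FreeGroup (Fin (NN n))) :=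
  ((fun i : Fin 4 => (gt n i i, 1)) '' Set.univ) ∪
  ((fun x : Fin 4 × Fin 4 => (gt n x.2 x.1, (gt n x.1 x.2)⁻¹)) '' Set.univ) ∪
  ((fun x : Fin 4 × Fin 4 × Fin 4 => (gt n x.1 x.2.1 * gt n x.2.2 x.1, gt n x.2.2 x.2.1)) ''
    {x | x.1 ≠ x.2.1 ∧ x.1 ≠ x.2.2 ∧ x.2.1 ≠ x.2.2}) ∪
  ((fun x : Fin 4 × Fin 4 × Fin 4 × Fin 4 =>
      (gt n x.1 x.2.1 * gt n x.2.2.1 x.2.2.2, gt n x.2.2.1 x.2.2.2 * gt n x.1 x.2.1)) ''
    {x | x.1 ≠ x.2.2.1 ∧ x.1 ≠ x.2.2.2 ∧ x.2.1 ≠ x.2.2.1 ∧ x.2.1 ≠ x.2.2.2}) ∪
  ((fun x : Fin 4 × Fin 4 => (gt n x.1 x.2 * gs n x.1 * (gt n x.1 x.2)⁻¹, gs n x.2)) ''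
    Set.univ) ∪
  ((fun x : Fin 4 × Fin 4 × Fin 4 =>
      (gt n x.2.1 x.2.2 * gs n x.1, gs n x.1 * gt n x.2.1 x.2.2)) ''
    {x | x.1 ≠ x.2.1 ∧ x.1 ≠ x.2.2}) ∪
  ((fun i : Fin 4 => (gs n i * gs n i, 1)) '' Set.univ) ∪
  ((fun x : Fin 4 × Fin 4 => (gs n x.1 * gs n x.2 * gs n x.1, gs n x.2 * gs n x.1 * gs n x.2)) ''
    {x | x.1 ≠ x.2}) ∪
  ((fun x : Fin 4 × Fin 4 × Fin 4 =>
      ((gs n x.1 * gs n x.2.1 * gs n x.1) * gs n x.2.2,
        gs n x.2.2 * (gs n x.1 * gs n x.2.1 * gs n x.1))) ''
    {x | x.1 ≠ x.2.1 ∧ x.1 ≠ x.2.2 ∧ x.2.1 ≠ x.2.2}) ∪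
  ((fun x : Fin 4 × Fin 4 × Fin 4 =>
      (gt n x.1 x.2.1 * gt n x.1 x.2.2,
        (gs n x.2.1 * gs n x.2.2 * gs n x.2.1) * gt n x.1 x.2.2 * gt n x.1 x.2.1)) ''
    {x | x.1 ≠ x.2.1 ∧ x.1 ≠ x.2.2 ∧ x.2.1 ≠ x.2.2}) ∪
  ((fun x : Fin n × Fin 4 × Fin 4 =>
      (gt n x.2.1 x.2.2 * gA n x.1, gA n x.1 * gt n x.2.1 x.2.2)) '' Set.univ) ∪
  ((fun x : Fin n × Fin 4 × Fin 4 =>
      ((gs n x.2.1 * gs n x.2.2 * gs n x.2.1) * gA n x.1,
        gA n x.1 * (gs n x.2.1 * gs n x.2.2 * gs n x.2.1))) '' {x | x.2.1 ≠ x.2.2}) ∪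
  ((fun x : Fin n × Fin n × Fin 4 =>
      ((gs n x.2.2 * gA n x.2.1 * gs n x.2.2) * gA n x.1,
        gA n x.1 * (gs n x.2.2 * gA n x.2.1 * gs n x.2.2))) '' Set.univ)

theorem relPairs_finite : (relPairs n).Finite := by
  unfold relPairs
  simp only [Set.finite_union]
  refine ⟨⟨⟨⟨⟨⟨⟨⟨⟨⟨⟨⟨?_, ?_⟩, ?_⟩, ?_⟩, ?_⟩, ?_⟩, ?_⟩, ?_⟩, ?_⟩, ?_⟩, ?_⟩, ?_⟩, ?_⟩ <;>
    exact (Set.toFinite _).image _

variable (rels : Finset (FreeGroup (Fin n)))

/-- The set of relators. -/
noncomputable def relSet : Set (FreeGroup (Fin (NN n))) :=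
  ((FreeGroup.map (fun k => ee n (Sum.inl k))) '' (rels : Set (FreeGroup (Fin n)))) ∪
  ((fun p : FreeGroup (Fin (NN n)) × FreeGroup (Fin (NN n)) => p.1 * p.2⁻¹) '' relPairs n)

theorem relSet_finite : (relSet n rels).Finite :=
  (rels.finite_toSet.image _).union ((relPairs_finite n).image _)

/-- The relators as a finite set. -/
noncomputable def relFin : Finset (FreeGroup (Fin (NN n))) := (relSet_finite n rels).toFinset

/-- The lamp group. -/
abbrev LA : Type := PresentedGroup (rels : Set (FreeGroup (Fin n)))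

/-- The finitely presented group. -/
abbrev Gam : Type := PresentedGroup ((relFin n rels : Finset (FreeGroup (Fin (NN n)))) :
  Set (FreeGroup (Fin (NN n))))

/-- `t i j` in the finitely presented group. -/
noncomputable def tG (i j : Fin 4) : Gam n rels :=
  PresentedGroup.of (ee n (Sum.inr (Sum.inl (i, j))))

/-- `s i` in the finitely presented group. -/
noncomputable def sG (i : Fin 4) : Gam n rels := PresentedGroup.of (ee n (Sum.inr (Sum.inr i)))

/-- The quotient map. -/
noncomputable def mkG : FreeGroup (Fin (NN n)) →* Gam n rels := PresentedGroup.mk _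

end

section
variable {n : ℕ} {rels : Finset (FreeGroup (Fin n))}

theorem mk_gt (i j : Fin 4) : mkG n rels (gt n i j) = tG n rels i j := rfl

theorem mk_gs (i : Fin 4) : mkG n rels (gs n i) = sG n rels i := rfl

theorem mk_pair {x y : FreeGroup (Fin (NN n))} (h : (x, y) ∈ relPairs n) :
    mkG n rels x = mkG n rels y := by
  refine PresentedGroup.mk_eq_mk_of_mul_inv_mem ?_
  unfold relFin
  rw [Set.Finite.coe_toFinset]
  exact Or.inr ⟨(x, y), h, rfl⟩

theorem hrel_gam : HRel (tG n rels) (sG n rels) where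
  tii := fun i => by
    have := mk_pair (rels := rels) (x := gt n i i) (y := 1) (by
      unfold relPairs
      simp only [Set.mem_union]
      iterate 12 left
      exact ⟨i, trivial, rfl⟩)
    simpa only [map_mul, map_inv, map_one, mk_gt, mk_gs] using this
  tinv := fun i j => by
    have := mk_pair (rels := rels) (x := gt n j i) (y := (gt n i j)⁻¹) (by
      unfold relPairs
      simp only [Set.mem_union]
      iterate 11 left
      right
      exact ⟨(i, j), trivial, rfl⟩)
    simpa only [map_mul, map_inv, map_one, mk_gt, mk_gs] using this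
  tC := fun i j m h1 h2 h3 => by
    have := mk_pair (rels := rels) (x := gt n i j * gt n m i) (y := gt n m j) (by
      unfold relPairs
      simp only [Set.mem_union]
      iterate 10 left
      right
      exact ⟨(i, j, m), ⟨h1, h2, h3⟩, rfl⟩)
    simpa only [map_mul, map_inv, map_one, mk_gt, mk_gs] using this
  tD := fun i j m l h1 h2 h3 h4 => by
    have := mk_pair (rels := rels) (x := gt n i j * gt n m l) (y := gt n m l * gt n i j) (by
      unfold relPairs
      simp only [Set.mem_union]
      iterate 9 left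
      right
      exact ⟨(i, j, m, l), ⟨h1, h2, h3, h4⟩, rfl⟩)
    simpa only [map_mul, map_inv, map_one, mk_gt, mk_gs] using this
  tE := fun i j => by
    have := mk_pair (rels := rels) (x := gt n i j * gs n i * (gt n i j)⁻¹) (y := gs n j) (by
      unfold relPairs
      simp only [Set.mem_union]
      iterate 8 left
      right
      exact ⟨(i, j), trivial, rfl⟩)
    simpa only [map_mul, map_inv, map_one, mk_gt, mk_gs] using this
  tF := fun i m l h1 h2 => by
    have := mk_pair (rels := rels) (x := gt n m l * gs n i) (y := gs n i * gt n m l) (by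
      unfold relPairs
      simp only [Set.mem_union]
      iterate 7 left
      right
      exact ⟨(i, m, l), ⟨h1, h2⟩, rfl⟩)
    simpa only [map_mul, map_inv, map_one, mk_gt, mk_gs] using this
  s1 := fun i => by
    have := mk_pair (rels := rels) (x := gs n i * gs n i) (y := 1) (by
      unfold relPairs
      simp only [Set.mem_union]
      iterate 6 left
      right
      exact ⟨i, trivial, rfl⟩)
    simpa only [map_mul, map_inv, map_one, mk_gt, mk_gs] using this
  s2 := fun i j hij => by
    have := mk_pair (rels := rels) (x := gs n i * gs n j * gs n i)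
      (y := gs n j * gs n i * gs n j) (by
      unfold relPairs
      simp only [Set.mem_union]
      iterate 5 left
      right
      exact ⟨(i, j), hij, rfl⟩)
    simpa only [map_mul, map_inv, map_one, mk_gt, mk_gs] using this
  s3 := fun i j m h1 h2 h3 => by
    have := mk_pair (rels := rels) (x := (gs n i * gs n j * gs n i) * gs n m)
      (y := gs n m * (gs n i * gs n j * gs n i)) (by
      unfold relPairs
      simp only [Set.mem_union]
      iterate 4 left
      right
      exact ⟨(i, j, m), ⟨h1, h2, h3⟩, rfl⟩)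
    simpa only [map_mul, map_inv, map_one, mk_gt, mk_gs] using this
  tK := fun i j m h1 h2 h3 => by
    have := mk_pair (rels := rels) (x := gt n i j * gt n i m)
      (y := (gs n j * gs n m * gs n j) * gt n i m * gt n i j) (by
      unfold relPairs
      simp only [Set.mem_union]
      iterate 3 left
      right
      exact ⟨(i, j, m), ⟨h1, h2, h3⟩, rfl⟩)
    simpa only [map_mul, map_inv, map_one, mk_gt, mk_gs] using this

/-- The lamp homomorphism into the finitely presented group. -/
noncomputable def aG : LA n rels →* Gam n rels :=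
  PresentedGroup.toGroup (f := fun k => (PresentedGroup.of (ee n (Sum.inl k)) : Gam n rels)) (by
    intro r hr
    have h1 : FreeGroup.lift (fun k => (PresentedGroup.of (ee n (Sum.inl k)) : Gam n rels))
        = (mkG n rels).comp (FreeGroup.map (fun k => ee n (Sum.inl k))) := by
      ext k
      rw [FreeGroup.lift_apply_of, MonoidHom.comp_apply, FreeGroup.map.of]
      rfl
    rw [h1, MonoidHom.comp_apply]
    refine PresentedGroup.one_of_mem ?_
    unfold relFin
    rw [Set.Finite.coe_toFinset]
    exact Or.inl ⟨r, hr, rfl⟩)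

theorem aG_of (k : Fin n) : aG (rels := rels) (PresentedGroup.of k) = mkG n rels (gA n k) :=
  PresentedGroup.toGroup.of _

theorem mk_gA (k : Fin n) : mkG n rels (gA n k) = aG (rels := rels) (PresentedGroup.of k) :=
  (aG_of k).symm

theorem lrel_gam : LRel (tG n rels) (sG n rels) (aG (rels := rels)) where
  L1 := fun x i j => by
    have hx : x ∈ Subgroup.comap (aG (rels := rels)) (Subgroup.centralizer {tG n rels i j}) := by
      refine PresentedGroup.generated_by _ _ ?_ x
      intro k
      rw [Subgroup.mem_comap, Subgroup.mem_centralizer_singleton_iff]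
      have := mk_pair (rels := rels) (x := gt n i j * gA n k) (y := gA n k * gt n i j) (by
        unfold relPairs
        simp only [Set.mem_union]
        iterate 2 left
        right
        exact ⟨(k, i, j), trivial, rfl⟩)
      simpa only [map_mul, mk_gt, mk_gA] using this.symm
    rw [Subgroup.mem_comap, Subgroup.mem_centralizer_singleton_iff] at hx
    exact hx.symm
  L2 := fun x i j hij => by
    have hx : x ∈ Subgroup.comap (aG (rels := rels))
        (Subgroup.centralizer {sG n rels i * sG n rels j * sG n rels i}) := by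
      refine PresentedGroup.generated_by _ _ ?_ x
      intro k
      rw [Subgroup.mem_comap, Subgroup.mem_centralizer_singleton_iff]
      have := mk_pair (rels := rels) (x := (gs n i * gs n j * gs n i) * gA n k)
        (y := gA n k * (gs n i * gs n j * gs n i)) (by
        unfold relPairs
        simp only [Set.mem_union]
        left
        right
        exact ⟨(k, i, j), hij, rfl⟩)
      simpa only [map_mul, mk_gs, mk_gA] using this.symm
    rw [Subgroup.mem_comap, Subgroup.mem_centralizer_singleton_iff] at hx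
    exact hx.symm
  L3 := fun x y i => by
    have hgen : ∀ k l : Fin n, (sG n rels i * aG (rels := rels) (PresentedGroup.of l) * sG n rels i)
        * aG (rels := rels) (PresentedGroup.of k) = aG (rels := rels) (PresentedGroup.of k)
          * (sG n rels i * aG (rels := rels) (PresentedGroup.of l) * sG n rels i) := by
      intro k l
      have := mk_pair (rels := rels) (x := (gs n i * gA n l * gs n i) * gA n k)
        (y := gA n k * (gs n i * gA n l * gs n i)) (by
        unfold relPairs
        simp only [Set.mem_union]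
        right
        exact ⟨(k, l, i), trivial, rfl⟩)
      simpa only [map_mul, mk_gs, mk_gA] using this
    have h1 : ∀ l : Fin n,
        (sG n rels i * aG (rels := rels) (PresentedGroup.of l) * sG n rels i)
        * aG (rels := rels) x = aG (rels := rels) x
          * (sG n rels i * aG (rels := rels) (PresentedGroup.of l) * sG n rels i) := by
      intro l
      have hx : x ∈ Subgroup.comap (aG (rels := rels)) (Subgroup.centralizer
          {sG n rels i * aG (rels := rels) (PresentedGroup.of l) * sG n rels i}) := by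
        refine PresentedGroup.generated_by _ _ ?_ x
        intro k
        rw [Subgroup.mem_comap, Subgroup.mem_centralizer_singleton_iff]
        exact (hgen k l).symm
      rw [Subgroup.mem_comap, Subgroup.mem_centralizer_singleton_iff] at hx
      exact hx.symm
    have hss : (sG n rels i)⁻¹ = sG n rels i := by
      rw [inv_eq_iff_mul_eq_one]
      exact hrel_gam.s1 i
    have hy : y ∈ Subgroup.comap (((MulAut.conj (sG n rels i)).toMonoidHom).comp
        (aG (rels := rels))) (Subgroup.centralizer {aG (rels := rels) x}) := by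
      refine PresentedGroup.generated_by _ _ ?_ y
      intro l
      rw [Subgroup.mem_comap, Subgroup.mem_centralizer_singleton_iff]
      show (sG n rels i * aG (rels := rels) (PresentedGroup.of l) * (sG n rels i)⁻¹) * _ = _ *
        (sG n rels i * aG (rels := rels) (PresentedGroup.of l) * (sG n rels i)⁻¹)
      rw [hss]
      exact h1 l
    rw [Subgroup.mem_comap, Subgroup.mem_centralizer_singleton_iff] at hy
    have hy' : (sG n rels i * aG (rels := rels) y * (sG n rels i)⁻¹) * aG (rels := rels) x
        = aG (rels := rels) x * (sG n rels i * aG (rels := rels) y * (sG n rels i)⁻¹) := hy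
    rwa [hss] at hy'

/-- Values of the generators in the ambient group. -/
noncomputable def fAmb : Fin (NN n) → Amb (LA n rels) := fun x =>
  match (ee n).symm x with
  | Sum.inl k => aA (LA n rels) (PresentedGroup.of k)
  | Sum.inr (Sum.inl p) => tA (LA n rels) p.1 p.2
  | Sum.inr (Sum.inr i) => sA (LA n rels) i

theorem lift_gA (k : Fin n) : FreeGroup.lift (fAmb (rels := rels)) (gA n k)
    = aA (LA n rels) (PresentedGroup.of k) := by
  unfold gA
  rw [FreeGroup.lift_apply_of]
  unfold fAmb
  rw [Equiv.symm_apply_apply]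

theorem lift_gt (i j : Fin 4) : FreeGroup.lift (fAmb (rels := rels)) (gt n i j)
    = tA (LA n rels) i j := by
  unfold gt
  rw [FreeGroup.lift_apply_of]
  unfold fAmb
  rw [Equiv.symm_apply_apply]

theorem lift_gs (i : Fin 4) : FreeGroup.lift (fAmb (rels := rels)) (gs n i)
    = sA (LA n rels) i := by
  unfold gs
  rw [FreeGroup.lift_apply_of]
  unfold fAmb
  rw [Equiv.symm_apply_apply]

/-- The homomorphism to the ambient group. -/
noncomputable def PhiG : Gam n rels →* Amb (LA n rels) :=
  PresentedGroup.toGroup (f := fAmb (rels := rels)) (by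
    intro r hr
    unfold relFin at hr
    rw [Set.Finite.coe_toFinset] at hr
    rcases hr with ⟨r, hr, rfl⟩ | ⟨⟨x, y⟩, hp, rfl⟩
    · have h1 : (FreeGroup.lift (fAmb (rels := rels))).comp (FreeGroup.map (fun k => ee n (Sum.inl k)))
          = (aA (LA n rels)).comp (PresentedGroup.mk (rels : Set (FreeGroup (Fin n)))) := by
        ext k : 1
        rw [MonoidHom.comp_apply, FreeGroup.map.of]
        exact lift_gA k
      have h2 := DFunLike.congr_fun h1 r
      rw [MonoidHom.comp_apply, MonoidHom.comp_apply, PresentedGroup.one_of_mem hr, map_one] at h2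
      exact h2
    · simp only [map_mul, map_inv]
      rw [mul_inv_eq_one]
      have hH := hrel_amb (A := LA n rels)
      have hLr := lrel_amb (A := LA n rels)
      unfold relPairs at hp
      simp only [Set.mem_union] at hp
      rcases hp with ((((((((((((hp | hp) | hp) | hp) | hp) | hp) | hp) | hp) | hp) | hp) | hp) | hp)
        | hp)
      · obtain ⟨i, -, e⟩ := hp
        obtain ⟨rfl, rfl⟩ := Prod.mk.inj e
        rw [lift_gt, map_one]; exact hH.tii i
      · obtain ⟨⟨i, j⟩, -, e⟩ := hp
        obtain ⟨rfl, rfl⟩ := Prod.mk.inj e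
        rw [map_inv, lift_gt, lift_gt]; exact hH.tinv i j
      · obtain ⟨⟨i, j, m⟩, ⟨h1, h2, h3⟩, e⟩ := hp
        obtain ⟨rfl, rfl⟩ := Prod.mk.inj e
        simp only [map_mul, lift_gt]; exact hH.tC i j m h1 h2 h3
      · obtain ⟨⟨i, j, m, l⟩, ⟨h1, h2, h3, h4⟩, e⟩ := hp
        obtain ⟨rfl, rfl⟩ := Prod.mk.inj e
        simp only [map_mul, lift_gt]; exact hH.tD i j m l h1 h2 h3 h4
      · obtain ⟨⟨i, j⟩, -, e⟩ := hp
        obtain ⟨rfl, rfl⟩ := Prod.mk.inj e
        simp only [map_mul, map_inv, lift_gt, lift_gs]; exact hH.tE i j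
      · obtain ⟨⟨i, m, l⟩, ⟨h1, h2⟩, e⟩ := hp
        obtain ⟨rfl, rfl⟩ := Prod.mk.inj e
        simp only [map_mul, lift_gt, lift_gs]; exact hH.tF i m l h1 h2
      · obtain ⟨i, -, e⟩ := hp
        obtain ⟨rfl, rfl⟩ := Prod.mk.inj e
        rw [map_mul, lift_gs, map_one]; exact hH.s1 i
      · obtain ⟨⟨i, j⟩, h1, e⟩ := hp
        obtain ⟨rfl, rfl⟩ := Prod.mk.inj e
        simp only [map_mul, lift_gs]; exact hH.s2 i j h1
      · obtain ⟨⟨i, j, m⟩, ⟨h1, h2, h3⟩, e⟩ := hp
        obtain ⟨rfl, rfl⟩ := Prod.mk.inj e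
        simp only [map_mul, lift_gs]; exact hH.s3 i j m h1 h2 h3
      · obtain ⟨⟨i, j, m⟩, ⟨h1, h2, h3⟩, e⟩ := hp
        obtain ⟨rfl, rfl⟩ := Prod.mk.inj e
        simp only [map_mul, lift_gt, lift_gs]; exact hH.tK i j m h1 h2 h3
      · obtain ⟨⟨k, i, j⟩, -, e⟩ := hp
        obtain ⟨rfl, rfl⟩ := Prod.mk.inj e
        simp only [map_mul, lift_gt, lift_gA]; exact hLr.L1 _ i j
      · obtain ⟨⟨k, i, j⟩, h1, e⟩ := hp
        obtain ⟨rfl, rfl⟩ := Prod.mk.inj e
        simp only [map_mul, lift_gs, lift_gA]; exact hLr.L2 _ i j h1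
      · obtain ⟨⟨k, l, i⟩, -, e⟩ := hp
        obtain ⟨rfl, rfl⟩ := Prod.mk.inj e
        simp only [map_mul, lift_gs, lift_gA]; exact hLr.L3 _ _ i)

theorem PhiG_t (i j : Fin 4) : PhiG (tG n rels i j) = tA (LA n rels) i j := by
  have : PhiG (tG n rels i j) = fAmb (rels := rels) (ee n (Sum.inr (Sum.inl (i, j)))) :=
    PresentedGroup.toGroup.of _
  rw [this]
  unfold fAmb
  rw [Equiv.symm_apply_apply]

theorem PhiG_s (i : Fin 4) : PhiG (sG n rels i) = sA (LA n rels) i := by
  have : PhiG (sG n rels i) = fAmb (rels := rels) (ee n (Sum.inr (Sum.inr i))) :=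
    PresentedGroup.toGroup.of _
  rw [this]
  unfold fAmb
  rw [Equiv.symm_apply_apply]

theorem PhiG_a (x : LA n rels) : PhiG (aG x) = aA (LA n rels) x := by
  have h : (PhiG (n := n) (rels := rels)).comp aG = aA (LA n rels) := by
    refine PresentedGroup.ext ?_
    intro k
    rw [MonoidHom.comp_apply, aG_of]
    have : PhiG (mkG n rels (gA n k)) = fAmb (rels := rels) (ee n (Sum.inl k)) :=
      PresentedGroup.toGroup.of _
    rw [this]
    unfold fAmb
    rw [Equiv.symm_apply_apply]
  exact DFunLike.congr_fun h x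

/-- The action of the finitely presented group on the four-ray set. -/
noncomputable def rhoG : Gam n rels →* Equiv.Perm X := SemidirectProduct.rightHom.comp PhiG

theorem std_gam : Std (tG n rels) (sG n rels) (rhoG (n := n) (rels := rels)) where
  t := fun i j => by
    show SemidirectProduct.rightHom (PhiG (tG n rels i j)) = _
    rw [PhiG_t]; exact SemidirectProduct.rightHom_inr _
  s := fun i => by
    show SemidirectProduct.rightHom (PhiG (sG n rels i)) = _
    rw [PhiG_s]; exact SemidirectProduct.rightHom_inr _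

end

end Pool.SpeedFP
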