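import Pool.Agent.SpeedFP.Transl

/-!
Short words for permutations: every permutation of the four-ray set that is a translation (with
zero-sum translation vector) from height `M` on is a product of `O(M log M)` letters.  The
algorithm is a recursive partition sort on stacks.
-/

set_option autoImplicit false

namespace Pool.SpeedFP

theorem app_inv (σ : Equiv.Perm X) (x : X) : σ (σ⁻¹ x) = x := σ.apply_symm_apply x

theorem inv_app (σ : Equiv.Perm X) (x : X) : σ⁻¹ (σ x) = x := σ.symm_apply_apply x

/-- Letters: `Sum.inl (i, j)` stands for `t i j`, `Sum.inr i` stands for `s i`. -/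
abbrev Sym : Type := (Fin 4 × Fin 4) ⊕ Fin 4

/-- The group element denoted by a letter. -/
def ev {G : Type*} (t : Fin 4 → Fin 4 → G) (s : Fin 4 → G) : Sym → G
  | Sum.inl p => t p.1 p.2
  | Sum.inr i => s i

/-- `σ` is a product of at most `m` letters. -/
def LenX (m : ℕ) (σ : Equiv.Perm X) : Prop :=
  ∃ l : List Sym, l.length ≤ m ∧ (l.map (ev T Sw)).prod = σ

theorem LenX.one : LenX 0 1 := ⟨[], by simp, by simp⟩

theorem LenX.mono {m m' : ℕ} {σ : Equiv.Perm X} (h : LenX m σ) (hm : m ≤ m') : LenX m' σ := by
  obtain ⟨l, h1, h2⟩ := h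
  exact ⟨l, h1.trans hm, h2⟩

theorem LenX.mul {m m' : ℕ} {σ σ' : Equiv.Perm X} (h : LenX m σ) (h' : LenX m' σ') :
    LenX (m + m') (σ * σ') := by
  obtain ⟨l, h1, h2⟩ := h
  obtain ⟨l', h3, h4⟩ := h'
  exact ⟨l ++ l', by rw [List.length_append]; omega, by rw [List.map_append, List.prod_append, h2, h4]⟩

theorem LenX.T (i j : Fin 4) : LenX 1 (T i j) := ⟨[Sum.inl (i, j)], by simp, by simp [ev]⟩

theorem LenX.Sw (i : Fin 4) : LenX 1 (Sw i) := ⟨[Sum.inr i], by simp, by simp [ev]⟩

theorem LenX.inv {m : ℕ} {σ : Equiv.Perm X} (h : LenX m σ) : LenX m σ⁻¹ := by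
  obtain ⟨l, h1, rfl⟩ := h
  refine LenX.mono ?_ h1
  clear h1
  induction l with
  | nil => simpa using LenX.one
  | cons x l ih =>
    rw [List.map_cons, List.prod_cons, mul_inv_rev, List.length_cons]
    refine ih.mul ?_
    rcases x with ⟨i, j⟩ | i
    · show LenX 1 (SpeedFP.T i j)⁻¹
      rw [← T_inv]; exact LenX.T _ _
    · show LenX 1 (SpeedFP.Sw i)⁻¹
      rw [Sw_inv]; exact LenX.Sw _

theorem LenX.pow (i j : Fin 4) (a : ℕ) : LenX a (SpeedFP.T i j ^ a) := by
  induction a with
  | zero => simpa using LenX.one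
  | succ a ih => rw [pow_succ]; exact ih.mul (LenX.T _ _)

theorem LenX.zpow (i j : Fin 4) (a : ℤ) : LenX a.natAbs (SpeedFP.T i j ^ a) := by
  rw [T_zpow]
  split_ifs with h
  · exact (LenX.pow _ _ _).mono (by omega)
  · exact (LenX.pow _ _ _).mono (by omega)

/-- One pass of the partition: pop `L` items off ray `0`, pushing them on ray `1` or ray `2`. -/
theorem pass (b : ℕ → Bool) (L : ℕ) : ∃ σ : Equiv.Perm X, LenX L σ ∧ ∃ c1 c2 : ℕ, c1 + c2 = L ∧
    c1 = ((Finset.range L).filter (fun k => b k = false)).card ∧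
    (∀ k, σ (some (0, k + L)) = some (0, k)) ∧
    (∀ k, σ (some (1, k)) = some (1, k + c1)) ∧
    (∀ k, σ (some (2, k)) = some (2, k + c2)) ∧
    (∀ k, σ (some (3, k)) = some (3, k)) ∧
    σ none = none ∧
    (∀ k < L, b k = false → ∃ j < c1, σ (some (0, k)) = some (1, j)) ∧
    (∀ k < L, b k = true → ∃ j < c2, σ (some (0, k)) = some (2, j)) := by
  induction L with
  | zero =>
    refine ⟨1, LenX.one, 0, 0, rfl, by simp, fun k => rfl, fun k => rfl, fun k => rfl,
      fun k => rfl, rfl, fun k hk => by omega, fun k hk => by omega⟩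
  | succ L ih =>
    obtain ⟨σ, hlen, c1, c2, hc, hc1, h0, h1, h2, h3, hn, hf, ht⟩ := ih
    cases hb : b L with
    | false =>
      have hpop : (T 0 1 * σ) (some (0, L)) = some (1, 0) := by
        have := h0 0
        rw [zero_add] at this
        rw [Equiv.Perm.mul_apply, this, T_some, Yf_src_zero (by decide)]
      refine ⟨T 0 1 * σ, ((LenX.T 0 1).mul hlen).mono (by omega), c1 + 1, c2, by omega, ?_, ?_, ?_,
        ?_, ?_, ?_, ?_, ?_⟩
      · rw [Finset.range_add_one, Finset.filter_insert, if_pos hb,
          Finset.card_insert_of_notMem (by simp), hc1]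
      · intro k
        rw [Equiv.Perm.mul_apply, show k + (L + 1) = (k + 1) + L by ring, h0, T_some,
          Yf_src_succ (by decide)]
      · intro k
        rw [Equiv.Perm.mul_apply, h1, T_some, Yf_tgt (by decide), add_assoc]
      · intro k
        rw [Equiv.Perm.mul_apply, h2, T_some, Yf_other (by decide) (by decide)]
      · intro k
        rw [Equiv.Perm.mul_apply, h3, T_some, Yf_other (by decide) (by decide)]
      · rw [Equiv.Perm.mul_apply, hn, T_none]
      · intro k hk hbk
        rcases Nat.lt_succ_iff_lt_or_eq.1 hk with h | h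
        · obtain ⟨j, hj, e⟩ := hf k h hbk
          exact ⟨j + 1, by omega, by rw [Equiv.Perm.mul_apply, e, T_some, Yf_tgt (by decide)]⟩
        · subst h
          exact ⟨0, by omega, hpop⟩
      · intro k hk hbk
        rcases Nat.lt_succ_iff_lt_or_eq.1 hk with h | h
        · obtain ⟨j, hj, e⟩ := ht k h hbk
          exact ⟨j, hj, by
            rw [Equiv.Perm.mul_apply, e, T_some, Yf_other (by decide) (by decide)]⟩
        · subst h
          rw [hb] at hbk
          exact absurd hbk (by decide)
    | true =>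
      have hpop : (T 0 2 * σ) (some (0, L)) = some (2, 0) := by
        have := h0 0
        rw [zero_add] at this
        rw [Equiv.Perm.mul_apply, this, T_some, Yf_src_zero (by decide)]
      refine ⟨T 0 2 * σ, ((LenX.T 0 2).mul hlen).mono (by omega), c1, c2 + 1, by omega, ?_, ?_, ?_,
        ?_, ?_, ?_, ?_, ?_⟩
      · rw [Finset.range_add_one, Finset.filter_insert, if_neg (by rw [hb]; decide), hc1]
      · intro k
        rw [Equiv.Perm.mul_apply, show k + (L + 1) = (k + 1) + L by ring, h0, T_some,
          Yf_src_succ (by decide)]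
      · intro k
        rw [Equiv.Perm.mul_apply, h1, T_some, Yf_other (by decide) (by decide)]
      · intro k
        rw [Equiv.Perm.mul_apply, h2, T_some, Yf_tgt (by decide), add_assoc]
      · intro k
        rw [Equiv.Perm.mul_apply, h3, T_some, Yf_other (by decide) (by decide)]
      · rw [Equiv.Perm.mul_apply, hn, T_none]
      · intro k hk hbk
        rcases Nat.lt_succ_iff_lt_or_eq.1 hk with h | h
        · obtain ⟨j, hj, e⟩ := hf k h hbk
          exact ⟨j, hj, by
            rw [Equiv.Perm.mul_apply, e, T_some, Yf_other (by decide) (by decide)]⟩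
        · subst h
          rw [hb] at hbk
          exact absurd hbk (by decide)
      · intro k hk hbk
        rcases Nat.lt_succ_iff_lt_or_eq.1 hk with h | h
        · obtain ⟨j, hj, e⟩ := ht k h hbk
          exact ⟨j + 1, by omega, by rw [Equiv.Perm.mul_apply, e, T_some, Yf_tgt (by decide)]⟩
        · subst h
          exact ⟨0, by omega, hpop⟩

/-- The partition permutation: it moves the items with bit `false` to the lowest positions. -/
theorem partition (b : ℕ → Bool) (L : ℕ) : ∃ σ : Equiv.Perm X, LenX (2 * L) σ ∧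
    (∀ x, (∀ k < L, x ≠ some (0, k)) → σ x = x) ∧
    (∀ k < L, b k = false → ∃ j < ((Finset.range L).filter (fun k => b k = false)).card,
      σ (some (0, k)) = some (0, j)) ∧
    (∀ k < L, b k = true → ∃ j < L, ((Finset.range L).filter (fun k => b k = false)).card ≤ j ∧
      σ (some (0, k)) = some (0, j)) := by
  obtain ⟨σ, hlen, c1, c2, hc, hc1, h0, h1, h2, h3, hn, hf, ht⟩ := pass b L
  refine ⟨T 1 0 ^ c1 * (T 2 0 ^ c2 * σ),
    ((LenX.pow 1 0 c1).mul ((LenX.pow 2 0 c2).mul hlen)).mono (by omega), ?_, ?_, ?_⟩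
  · rintro (_ | ⟨i, k⟩) hx
    · rw [Equiv.Perm.mul_apply, Equiv.Perm.mul_apply, hn, T_pow_none, T_pow_none]
    · fin_cases i
      · have hk : L ≤ k := by
          by_contra hk
          exact hx k (by omega) rfl
        obtain ⟨k, rfl⟩ := Nat.exists_eq_add_of_le' hk
        show (T 1 0 ^ c1 * (T 2 0 ^ c2 * σ)) (some (0, k + L)) = some (0, k + L)
        rw [Equiv.Perm.mul_apply, Equiv.Perm.mul_apply, h0, T_pow_tgt (by decide),
          T_pow_tgt (by decide)]
        congr 2; omega
      · show (T 1 0 ^ c1 * (T 2 0 ^ c2 * σ)) (some (1, k)) = some (1, k)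
        rw [Equiv.Perm.mul_apply, Equiv.Perm.mul_apply, h1, T_pow_other (by decide) (by decide),
          T_pow_src (by decide)]
      · show (T 1 0 ^ c1 * (T 2 0 ^ c2 * σ)) (some (2, k)) = some (2, k)
        rw [Equiv.Perm.mul_apply, Equiv.Perm.mul_apply, h2, T_pow_src (by decide),
          T_pow_other (by decide) (by decide)]
      · show (T 1 0 ^ c1 * (T 2 0 ^ c2 * σ)) (some (3, k)) = some (3, k)
        rw [Equiv.Perm.mul_apply, Equiv.Perm.mul_apply, h3, T_pow_other (by decide) (by decide),
          T_pow_other (by decide) (by decide)]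
  · intro k hk hb
    obtain ⟨j, hj, e⟩ := hf k hk hb
    refine ⟨c1 - 1 - j, by omega, ?_⟩
    rw [Equiv.Perm.mul_apply, Equiv.Perm.mul_apply, e, T_pow_other (by decide) (by decide),
      T_pow_src_lt (by decide) _ _ hj]
  · intro k hk hb
    obtain ⟨j, hj, e⟩ := ht k hk hb
    refine ⟨c2 - 1 - j + c1, by omega, by omega, ?_⟩
    rw [Equiv.Perm.mul_apply, Equiv.Perm.mul_apply, e, T_pow_src_lt (by decide) _ _ hj,
      T_pow_tgt (by decide)]

/-- The first `m` positions of ray `0`. -/
def lo (m : ℕ) : Set X := {x | ∃ k < m, x = some (0, k)}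

theorem perm_maps_compl {σ : Equiv.Perm X} {A : Set X} (hA : A.Finite)
    (h : ∀ x ∈ A, σ x ∈ A) : ∀ x, σ x ∈ A ↔ x ∈ A := by
  intro x
  refine ⟨fun hx => ?_, h x⟩
  have hs : Set.BijOn σ A A :=
    (hA.injOn_iff_bijOn_of_mapsTo (fun x hx => h x hx)).1 σ.injective.injOn
  obtain ⟨y, hy, e⟩ := hs.surjOn hx
  rwa [← σ.injective e]

theorem lo_finite (m : ℕ) : (lo m).Finite := by
  have : lo m = (fun k => (some (0, k) : X)) '' (Set.Iio m) := by
    ext x
    constructor
    · rintro ⟨k, hk, rfl⟩
      exact ⟨k, hk, rfl⟩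
    · rintro ⟨k, hk, rfl⟩
      exact ⟨k, hk, rfl⟩
  rw [this]
  exact (Set.finite_Iio m).image _

/-- Sorting: permutations supported on the first `2 ^ b` positions of ray `0`. -/
theorem sort (b : ℕ) : ∀ π : Equiv.Perm X, (∀ x, x ∉ lo (2 ^ b) → π x = x) →
    LenX (3 * b * 2 ^ b) π := by
  classical
  induction b with
  | zero =>
    intro π hπ
    have : π = 1 := by
      ext x
      by_cases hx : x ∈ lo (2 ^ 0)
      · obtain ⟨k, hk, rfl⟩ := hx
        have hk0 : k = 0 := by simpa using hk
        subst hk0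
        by_contra hne
        have h1 : π (some (0, 0)) ∉ lo (2 ^ 0) := by
          rintro ⟨k, hk, e⟩
          have hk0 : k = 0 := by simpa using hk
          subst hk0
          exact hne (by rw [e]; rfl)
        have h2 := hπ _ h1
        have h3 := π.injective h2
        exact hne (by rw [h3]; rfl)
      · rw [hπ x hx]; rfl
    rw [this]
    exact LenX.one.mono (by omega)
  | succ b ih =>
    intro π hπ
    set m := 2 ^ b with hm
    have hL : 2 ^ (b + 1) = 2 * m := by rw [pow_succ]; ring
    rw [hL] at hπ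
    -- `π` preserves `lo (2m)`
    have hπmap : ∀ x, π x ∈ lo (2 * m) ↔ x ∈ lo (2 * m) := by
      intro x
      constructor
      · intro hx
        by_contra hx'
        rw [hπ x hx'] at hx
        exact hx' hx
      · intro hx
        by_contra hx'
        have := hπ _ hx'
        rw [π.injective this] at hx'
        exact hx' hx
    let bb : ℕ → Bool := fun k => decide (π (some (0, k)) ∉ lo m)
    have hbf : ∀ k, bb k = false ↔ π (some (0, k)) ∈ lo m := by
      intro k; simp [bb]
    have hbt : ∀ k, bb k = true ↔ π (some (0, k)) ∉ lo m := by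
      intro k; simp [bb]
    -- exactly `m` items have bit `false`
    have hcard : ((Finset.range (2 * m)).filter (fun k => bb k = false)).card = m := by
      have : ((Finset.range (2 * m)).filter (fun k => bb k = false)).card
          = (Finset.range m).card := by
        refine Finset.card_bij'
          (fun k _ => match π (some (0, k)) with
            | some (_, j) => j
            | none => 0)
          (fun j _ => match π⁻¹ (some (0, j)) with
            | some (_, k) => k
            | none => 0) ?_ ?_ ?_ ?_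
        · intro k hk
          rw [Finset.mem_filter, hbf] at hk
          obtain ⟨_, j, hj, e⟩ := hk
          simp only [e, Finset.mem_range]
          exact hj
        · intro j hj
          rw [Finset.mem_range] at hj
          have h1 : (some (0, j) : X) ∈ lo (2 * m) := ⟨j, by omega, rfl⟩
          have h2 : π⁻¹ (some (0, j)) ∈ lo (2 * m) := by
            rw [← hπmap, app_inv]; exact h1
          obtain ⟨k, hk, e⟩ := h2
          simp only [e, Finset.mem_filter, Finset.mem_range, hbf]
          refine ⟨hk, ?_⟩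
          rw [← e, app_inv]
          exact ⟨j, hj, rfl⟩
        · intro k hk
          rw [Finset.mem_filter, hbf] at hk
          obtain ⟨_, j, hj, e⟩ := hk
          simp only [e]
          rw [← e, inv_app]
        · intro j hj
          rw [Finset.mem_range] at hj
          have h1 : (some (0, j) : X) ∈ lo (2 * m) := ⟨j, by omega, rfl⟩
          have h2 : π⁻¹ (some (0, j)) ∈ lo (2 * m) := by
            rw [← hπmap, app_inv]; exact h1
          obtain ⟨k, hk, e⟩ := h2
          simp only [e]
          rw [← e, app_inv]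
      rw [this, Finset.card_range]
    obtain ⟨u, hulen, hufix, huf, hut⟩ := partition bb (2 * m)
    rw [hcard] at huf hut
    have hufix' : ∀ x, x ∉ lo (2 * m) → u x = x := by
      intro x hx
      exact hufix x (fun k hk e => hx ⟨k, hk, e⟩)
    have humap : ∀ x ∈ lo (2 * m), u x ∈ lo (2 * m) := by
      rintro _ ⟨k, hk, rfl⟩
      cases hb : bb k with
      | false =>
        obtain ⟨j, hj, e⟩ := huf k hk hb
        exact ⟨j, by omega, e⟩
      | true =>
        obtain ⟨j, hj, _, e⟩ := hut k hk hb
        exact ⟨j, hj, e⟩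
    have humap' := perm_maps_compl (lo_finite _) humap
    -- `π * u⁻¹` preserves `lo m`
    set π' := π * u⁻¹ with hπ'
    have hpres : ∀ x ∈ lo m, π' x ∈ lo m := by
      rintro x hx
      have hx2 : x ∈ lo (2 * m) := by
        obtain ⟨k, hk, e⟩ := hx
        exact ⟨k, by omega, e⟩
      have h1 : u⁻¹ x ∈ lo (2 * m) := by
        rw [← humap', app_inv]; exact hx2
      obtain ⟨k, hk, e⟩ := h1
      have e' : u (some (0, k)) = x := by rw [← e, app_inv]
      rw [hπ', Equiv.Perm.mul_apply, e]
      cases hb : bb k with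
      | false => exact (hbf k).1 hb
      | true =>
        exfalso
        obtain ⟨j, _, hj, e2⟩ := hut k hk hb
        rw [e'] at e2
        obtain ⟨j', hj', e3⟩ := hx
        rw [e2] at e3
        have : j = j' := by simpa using e3
        omega
    have hpres' := perm_maps_compl (lo_finite _) hpres
    have hπ'fix : ∀ x, x ∉ lo (2 * m) → π' x = x := by
      intro x hx
      have h1 : u⁻¹ x = x := by rw [Equiv.Perm.inv_eq_iff_eq, hufix' x hx]
      rw [hπ', Equiv.Perm.mul_apply, h1, hπ x hx]
    -- split `π'`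
    let πlo : Equiv.Perm X := Equiv.Perm.ofSubtype
      (Equiv.Perm.subtypePerm π' (p := fun x => x ∈ lo m) (fun x => hpres' x))
    have hlo1 : ∀ x, x ∈ lo m → πlo x = π' x := by
      intro x hx
      show Equiv.Perm.ofSubtype _ x = _
      rw [Equiv.Perm.ofSubtype_apply_of_mem _ hx]
      rfl
    have hlo2 : ∀ x, x ∉ lo m → πlo x = x := by
      intro x hx
      exact Equiv.Perm.ofSubtype_apply_of_not_mem _ hx
    have hLlo := ih πlo hlo2
    set πup : Equiv.Perm X := πlo⁻¹ * π' with hπup
    have hup1 : ∀ x, x ∈ lo m → πup x = x := by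
      intro x hx
      rw [hπup, Equiv.Perm.mul_apply, Equiv.Perm.inv_eq_iff_eq, hlo1 x hx]
    have hup2 : ∀ x, x ∉ lo (2 * m) → πup x = x := by
      intro x hx
      rw [hπup, Equiv.Perm.mul_apply, Equiv.Perm.inv_eq_iff_eq, hπ'fix x hx, hlo2]
      rintro ⟨k, hk, rfl⟩
      exact hx ⟨k, by omega, rfl⟩
    have hconj : ∀ x, x ∉ lo m → (T 0 1 ^ m * πup * (T 0 1 ^ m)⁻¹) x = x := by
      intro x hx
      rw [Equiv.Perm.mul_apply, Equiv.Perm.mul_apply]
      have : πup ((T 0 1 ^ m)⁻¹ x) = (T 0 1 ^ m)⁻¹ x := by
        by_cases h1 : (T 0 1 ^ m)⁻¹ x ∈ lo m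
        · exact hup1 _ h1
        · by_cases h2 : (T 0 1 ^ m)⁻¹ x ∈ lo (2 * m)
          · exfalso
            obtain ⟨k, hk, e⟩ := h2
            have hk2 : m ≤ k := by
              by_contra hk2
              exact h1 ⟨k, by omega, e⟩
            obtain ⟨k, rfl⟩ := Nat.exists_eq_add_of_le' hk2
            rw [Equiv.Perm.inv_eq_iff_eq, T_pow_src (by decide)] at e
            exact hx ⟨k, by omega, e⟩
          · exact hup2 _ h2
      rw [this, app_inv]
    have hLup := ih _ hconj
    have e : π = πlo * ((T 0 1 ^ m)⁻¹ * (T 0 1 ^ m * πup * (T 0 1 ^ m)⁻¹) * T 0 1 ^ m) * u := by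
      rw [hπup, hπ']; group
    rw [e]
    refine ((hLlo.mul (((LenX.pow 0 1 m).inv.mul hLup).mul (LenX.pow 0 1 m))).mul hulen).mono ?_
    rw [hL]
    nlinarith

end Pool.SpeedFP
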