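import Pool.Agent.SpeedFP.Faithful

/-!
Permutations of the four-ray set that are eventually translations along the rays.
-/

set_option autoImplicit false

namespace Pool.SpeedFP

/-- `σ` translates ray `i` by `τ i` from height `M` on. -/
def Tr (σ : Equiv.Perm X) (τ : Fin 4 → ℤ) (M : ℕ) : Prop :=
  ∀ i k, M ≤ k → ∃ k' : ℕ, σ (some (i, k)) = some (i, k') ∧ (k' : ℤ) = k + τ i

theorem Tr.mono {σ : Equiv.Perm X} {τ : Fin 4 → ℤ} {M M' : ℕ} (h : Tr σ τ M) (hM : M ≤ M') :
    Tr σ τ M' := fun i k hk => h i k (hM.trans hk)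

theorem Tr.one : Tr 1 0 0 := fun i k _ => ⟨k, rfl, by simp⟩

theorem Tr.mul {σ σ' : Equiv.Perm X} {τ τ' : Fin 4 → ℤ} {M M' B : ℕ} (h : Tr σ τ M)
    (h' : Tr σ' τ' M') (hB : ∀ i, |τ' i| ≤ B) : Tr (σ * σ') (τ + τ') (M' + M + B) := by
  intro i k hk
  obtain ⟨k', h1, h2⟩ := h' i k (by omega)
  have hb := hB i
  rw [abs_le] at hb
  obtain ⟨k'', h3, h4⟩ := h i k' (by omega)
  refine ⟨k'', by rw [Equiv.Perm.mul_apply, h1, h3], ?_⟩
  rw [Pi.add_apply]
  omega

theorem Tr.inv {σ : Equiv.Perm X} {τ : Fin 4 → ℤ} {M B : ℕ} (h : Tr σ τ M)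
    (hB : ∀ i, |τ i| ≤ B) : Tr σ⁻¹ (-τ) (M + B) := by
  intro i k hk
  have hb := hB i
  rw [abs_le] at hb
  obtain ⟨k', h1, h2⟩ := h i (k - τ i).toNat (by omega)
  refine ⟨(k - τ i).toNat, ?_, ?_⟩
  · rw [Equiv.Perm.inv_eq_iff_eq, h1]
    congr 2
    omega
  · rw [Pi.neg_apply]
    omega

/-- The translation vector of `T i j`. -/
def dl (i j : Fin 4) : Fin 4 → ℤ := Pi.single j 1 - Pi.single i 1

theorem dl_self (i : Fin 4) : dl i i = 0 := by simp [dl]

theorem dl_src {i j : Fin 4} (h : i ≠ j) : dl i j i = -1 := by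
  simp [dl, h]

theorem dl_tgt {i j : Fin 4} (h : i ≠ j) : dl i j j = 1 := by
  simp [dl, Ne.symm h]

theorem dl_other {i j a : Fin 4} (h1 : a ≠ i) (h2 : a ≠ j) : dl i j a = 0 := by
  simp [dl, h1, h2]

theorem dl_abs (i j a : Fin 4) : |dl i j a| ≤ 1 := by
  by_cases hij : i = j
  · subst hij; simp [dl_self]
  by_cases ha : a = i
  · subst ha; rw [dl_src hij]; simp
  by_cases hb : a = j
  · subst hb; rw [dl_tgt hij]; simp
  · rw [dl_other ha hb]; simp

theorem sum_dl (i j : Fin 4) : ∑ a, dl i j a = 0 := by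
  simp [dl]

theorem Tr.T (i j : Fin 4) : Tr (T i j) (dl i j) 1 := by
  intro a k hk
  by_cases hij : i = j
  · subst hij
    exact ⟨k, by rw [T_some, Yf_self], by simp [dl_self]⟩
  by_cases ha : a = i
  · subst ha
    obtain ⟨k, rfl⟩ := Nat.exists_eq_add_of_le' hk
    exact ⟨k, by rw [T_some, Yf_src_succ hij], by rw [dl_src hij]; push_cast; ring⟩
  by_cases hb : a = j
  · subst hb
    exact ⟨k + 1, by rw [T_some, Yf_tgt hij], by rw [dl_tgt hij]; push_cast; ring⟩
  · exact ⟨k, by rw [T_some, Yf_other ha hb], by rw [dl_other ha hb]; simp⟩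

theorem Tr.Sw (i : Fin 4) : Tr (Sw i) 0 1 := by
  intro a k hk
  refine ⟨k, Sw_other ?_, by simp⟩
  intro e
  have := congrArg Prod.snd e
  simp only at this
  omega

theorem T_pow_src {i j : Fin 4} (h : i ≠ j) (a k : ℕ) :
    (T i j ^ a) (some (i, k + a)) = some (i, k) := by
  induction a with
  | zero => rfl
  | succ a ih =>
    rw [pow_succ, Equiv.Perm.mul_apply, T_some, ← add_assoc, Yf_src_succ h, ih]

theorem T_pow_src_lt {i j : Fin 4} (h : i ≠ j) (a k : ℕ) (hk : k < a) :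
    (T i j ^ a) (some (i, k)) = some (j, a - 1 - k) := by
  induction a with
  | zero => omega
  | succ a ih =>
    rw [pow_succ', Equiv.Perm.mul_apply]
    rcases Nat.lt_or_ge k a with h1 | h1
    · rw [ih h1, T_some, Yf_tgt h]
      congr 2; omega
    · have : k = 0 + a := by omega
      rw [this, T_pow_src h, T_some, Yf_src_zero h]
      congr 2; omega

theorem T_pow_tgt {i j : Fin 4} (h : i ≠ j) (a k : ℕ) :
    (T i j ^ a) (some (j, k)) = some (j, k + a) := by
  induction a with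
  | zero => rfl
  | succ a ih =>
    rw [pow_succ', Equiv.Perm.mul_apply, ih, T_some, Yf_tgt h, add_assoc]

theorem T_pow_other {i j c : Fin 4} (h1 : c ≠ i) (h2 : c ≠ j) (a k : ℕ) :
    (T i j ^ a) (some (c, k)) = some (c, k) := by
  induction a with
  | zero => rfl
  | succ a ih =>
    rw [pow_succ', Equiv.Perm.mul_apply, ih, T_some, Yf_other h1 h2]

theorem T_pow_none (i j : Fin 4) (a : ℕ) : (T i j ^ a) none = none := by
  induction a with
  | zero => rfl
  | succ a ih => rw [pow_succ', Equiv.Perm.mul_apply, ih, T_none]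

theorem Tr.T_pow (i j : Fin 4) (a : ℕ) : Tr (SpeedFP.T i j ^ a) ((a : ℤ) • dl i j) a := by
  intro c k hk
  by_cases hij : i = j
  · subst hij
    exact ⟨k, by rw [T_self, one_pow]; rfl, by simp [dl_self]⟩
  by_cases ha : c = i
  · subst ha
    obtain ⟨k, rfl⟩ := Nat.exists_eq_add_of_le' hk
    exact ⟨k, T_pow_src hij a k, by rw [Pi.smul_apply, dl_src hij]; push_cast; simp⟩
  by_cases hb : c = j
  · subst hb
    exact ⟨k + a, T_pow_tgt hij a k, by rw [Pi.smul_apply, dl_tgt hij]; push_cast; simp⟩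
  · exact ⟨k, T_pow_other ha hb a k, by rw [Pi.smul_apply, dl_other ha hb]; simp⟩

theorem T_zpow (i j : Fin 4) (a : ℤ) :
    SpeedFP.T i j ^ a = if 0 ≤ a then SpeedFP.T i j ^ a.toNat else SpeedFP.T j i ^ (-a).toNat := by
  split_ifs with h
  · conv_lhs => rw [← Int.toNat_of_nonneg h]
    rw [zpow_natCast]
  · have h' : 0 ≤ -a := by omega
    conv_lhs => rw [show a = -(((-a).toNat : ℕ) : ℤ) by rw [Int.toNat_of_nonneg h']; ring]
    rw [zpow_neg, zpow_natCast, T_inv i j, inv_pow]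

theorem dl_swap (i j : Fin 4) : dl j i = -dl i j := by simp [dl]

theorem Tr.T_zpow (i j : Fin 4) (a : ℤ) : Tr (SpeedFP.T i j ^ a) (a • dl i j) a.natAbs := by
  rw [SpeedFP.T_zpow]
  split_ifs with h
  · have := Tr.T_pow i j a.toNat
    rw [Int.toNat_of_nonneg h] at this
    exact this.mono (by omega)
  · have := Tr.T_pow j i (-a).toNat
    rw [Int.toNat_of_nonneg (by omega), dl_swap, neg_smul_neg] at this
    exact this.mono (by omega)

theorem T_zpow_none (i j : Fin 4) (a : ℤ) : (SpeedFP.T i j ^ a) none = none := by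
  rw [T_zpow]
  split_ifs
  · exact T_pow_none _ _ _
  · exact T_pow_none _ _ _

theorem Tr.unique {σ : Equiv.Perm X} {τ τ' : Fin 4 → ℤ} {M M' : ℕ} (h : Tr σ τ M)
    (h' : Tr σ τ' M') : τ = τ' := by
  funext i
  obtain ⟨k, h1, h2⟩ := h i (max M M') (le_max_left _ _)
  obtain ⟨k', h3, h4⟩ := h' i (max M M') (le_max_right _ _)
  rw [h1] at h3
  have : k = k' := by simpa using h3
  omega

section
variable {G : Type*} [Group G] {t : Fin 4 → Fin 4 → G} {s : Fin 4 → G}

/-- Faithfulness. -/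
theorem faithful (h : HRel t s) {ρ : G →* Equiv.Perm X} (hρ : Std t s ρ) {g : G}
    (hg : g ∈ Subgroup.closure (Set.range (fun p : Fin 4 × Fin 4 => t p.1 p.2) ∪ Set.range s))
    (h1 : ρ g = 1) : g = 1 := by
  obtain ⟨u, hu, a, b, c, rfl⟩ := normal_form h hg
  obtain ⟨R, hR⟩ := FF_far hρ hu
  have hTu : Tr (ρ u) 0 R := fun i k hk => ⟨k, hR i k hk, by simp⟩
  have hab : ∀ (a : ℤ) (i j c : Fin 4), |(a • dl i j) c| ≤ (a.natAbs : ℕ) := by
    intro a i j c
    rw [Pi.smul_apply, smul_eq_mul, abs_mul, Int.natCast_natAbs]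
    nlinarith [dl_abs i j c, abs_nonneg a]
  have hT := hTu.mul (((Tr.T_zpow 0 1 a).mul (Tr.T_zpow 0 2 b) (hab b 0 2)).mul
    (Tr.T_zpow 0 3 c) (hab c 0 3)) (B := a.natAbs + b.natAbs + c.natAbs) (by
      intro i
      have e1 := hab a 0 1 i
      have e2 := hab b 0 2 i
      have e3 := hab c 0 3 i
      simp only [Pi.add_apply]
      push_cast at e1 e2 e3 ⊢
      refine (abs_add_le _ _).trans ?_
      have := abs_add_le ((a • dl 0 1) i) ((b • dl 0 2) i)
      linarith)
  have e : ρ u * (SpeedFP.T 0 1 ^ a * SpeedFP.T 0 2 ^ b * SpeedFP.T 0 3 ^ c) = 1 := by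
    rw [← h1]
    simp only [map_mul, map_zpow, hρ.t]
  rw [e] at hT
  have hz := hT.unique Tr.one
  have ha : a = 0 := by
    have := congrFun hz 1
    simpa [dl] using this
  have hb : b = 0 := by
    have := congrFun hz 2
    simpa [dl] using this
  have hc : c = 0 := by
    have := congrFun hz 3
    simpa [dl] using this
  subst ha; subst hb; subst hc
  simp only [zpow_zero, mul_one] at h1 ⊢
  exact FF_inj h hρ hu h1

theorem faithful_eq (h : HRel t s) {ρ : G →* Equiv.Perm X} (hρ : Std t s ρ) {g g' : G}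
    (hg : g ∈ Subgroup.closure (Set.range (fun p : Fin 4 × Fin 4 => t p.1 p.2) ∪ Set.range s))
    (hg' : g' ∈ Subgroup.closure (Set.range (fun p : Fin 4 × Fin 4 => t p.1 p.2) ∪ Set.range s))
    (h1 : ρ g = ρ g') : g = g' := by
  have := faithful h hρ (mul_mem hg (inv_mem hg')) (by rw [map_mul, map_inv, h1, mul_inv_cancel])
  rwa [mul_inv_eq_one] at this

end

end Pool.SpeedFP
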