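import Pool.Agent.SpeedFP.Lamps

/-!
Deterministic upper bound for the length of a word in terms of its maximal translation and its
lamp configuration.
-/

set_option autoImplicit false

namespace Pool.SpeedFP

section
variable {A : Type*}

/-- Translation vector of a letter. -/
def tl : Lt A → Fin 4 → ℤ
  | Sum.inl _ => 0
  | Sum.inr (Sum.inl p) => dl p.1 p.2
  | Sum.inr (Sum.inr _) => 0

/-- Translation vector of a word. -/
def tau : List (Lt A) → Fin 4 → ℤ
  | [] => 0
  | w :: u => tl w + tau u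

/-- Permutation of a word. -/
def prm : List (Lt A) → Equiv.Perm X
  | [] => 1
  | Sum.inl _ :: u => prm u
  | Sum.inr c :: u => evX c * prm u

theorem evX_inv_far (c : Sym) (i : Fin 4) (k : ℕ) (hk : 1 ≤ k) :
    ∃ k' : ℕ, (evX c)⁻¹ (some (i, k)) = some (i, k') ∧ (k' : ℤ) = k - tl (A := A) (Sum.inr c) i := by
  rcases c with ⟨i', j'⟩ | i'
  · obtain ⟨k', h1, h2⟩ := Tr.T j' i' i k hk
    refine ⟨k', ?_, ?_⟩
    · show (T i' j')⁻¹ (some (i, k)) = _
      rw [← T_inv, h1]
    · rw [h2]
      show (k : ℤ) + dl j' i' i = k - dl i' j' i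
      rw [dl_swap i' j']
      simp only [Pi.neg_apply]
      ring
  · obtain ⟨k', h1, h2⟩ := Tr.Sw i' i k hk
    refine ⟨k', ?_, ?_⟩
    · show (Sw i')⁻¹ (some (i, k)) = _
      rw [Sw_inv, h1]
    · rw [h2]
      show (k : ℤ) + 0 = k - (0 : Fin 4 → ℤ) i
      simp

theorem cnt_far (u : List (Lt A)) : ∀ (i : Fin 4) (k : ℕ),
    (∀ v, v <+: u → (1 : ℤ) ≤ k - tau v i) → cnt u (some (i, k)) = 0 := by
  induction u with
  | nil => intro i k _; rfl
  | cons w u ih =>
    intro i k h
    rcases w with x | c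
    · simp only [cnt, reduceCtorEq, if_false]
      refine ih i k ?_
      intro v hv
      have := h (Sum.inl x :: v) (by simpa using hv)
      simpa [tau, tl] using this
    · simp only [cnt]
      have h1 : 1 ≤ k := by
        have := h [] (List.nil_prefix)
        simp only [tau, Pi.zero_apply, sub_zero] at this
        exact_mod_cast this
      obtain ⟨k', e1, e2⟩ := evX_inv_far (A := A) c i k h1
      rw [e1]
      refine ih i k' ?_
      intro v hv
      have := h (Sum.inr c :: v) (by simpa using hv)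
      simp only [tau, Pi.add_apply] at this
      rw [e2]
      linarith

theorem prm_far (u : List (Lt A)) : ∀ (i : Fin 4) (k : ℕ),
    (∀ v, v <+: u → (1 : ℤ) ≤ k - tau v i) →
      ∃ k' : ℕ, (prm u)⁻¹ (some (i, k)) = some (i, k') ∧ (k' : ℤ) = k - tau u i := by
  induction u with
  | nil => intro i k _; exact ⟨k, rfl, by simp [tau]⟩
  | cons w u ih =>
    intro i k h
    rcases w with x | c
    · obtain ⟨k', e1, e2⟩ := ih i k (by
        intro v hv
        have := h (Sum.inl x :: v) (by simpa using hv)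
        simpa [tau, tl] using this)
      refine ⟨k', e1, ?_⟩
      simpa [tau, tl] using e2
    · have h1 : 1 ≤ k := by
        have := h [] (List.nil_prefix)
        simp only [tau, Pi.zero_apply, sub_zero] at this
        exact_mod_cast this
      obtain ⟨k', e1, e2⟩ := evX_inv_far (A := A) c i k h1
      obtain ⟨k'', e3, e4⟩ := ih i k' (by
        intro v hv
        have := h (Sum.inr c :: v) (by simpa using hv)
        simp only [tau, Pi.add_apply] at this
        rw [e2]
        linarith)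
      refine ⟨k'', ?_, ?_⟩
      · show (evX c * prm u)⁻¹ (some (i, k)) = _
        rw [mul_inv_rev, Equiv.Perm.mul_apply, e1, e3]
      · rw [e4, e2]
        simp only [tau, Pi.add_apply]
        ring

/-- The maximal translation along the prefixes of a word. -/
def mx (u : List (Lt A)) : ℕ :=
  (Finset.range (u.length + 1)).sup (fun k => Finset.univ.sup (fun i => (tau (u.take k) i).natAbs))

theorem le_mx {u v : List (Lt A)} (h : v <+: u) (i : Fin 4) : (tau v i).natAbs ≤ mx u := by
  have e : v = u.take v.length := List.prefix_iff_eq_take.1 h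
  have hl : v.length ≤ u.length := h.length_le
  have h1 : Finset.univ.sup (fun i => (tau (u.take v.length) i).natAbs) ≤ mx u :=
    Finset.le_sup (f := fun k => Finset.univ.sup (fun i => (tau (u.take k) i).natAbs))
      (Finset.mem_range.2 (by omega))
  have h2 : (tau (u.take v.length) i).natAbs
      ≤ Finset.univ.sup (fun i => (tau (u.take v.length) i).natAbs) :=
    Finset.le_sup (f := fun i => (tau (u.take v.length) i).natAbs) (Finset.mem_univ i)
  rw [← e] at h2 h1
  exact h2.trans h1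

theorem abs_tau_le {u v : List (Lt A)} (h : v <+: u) (i : Fin 4) : |tau v i| ≤ mx u := by
  rw [Int.abs_eq_natAbs]
  exact_mod_cast le_mx h i

theorem cnt_ball {u : List (Lt A)} {i : Fin 4} {k : ℕ} (h : cnt u (some (i, k)) ≠ 0) :
    k ≤ mx u := by
  by_contra hk
  refine h (cnt_far u i k ?_)
  intro v hv
  have := abs_tau_le hv i
  rw [abs_le] at this
  push Not at hk
  have : (mx u : ℤ) < k := by exact_mod_cast hk
  omega

theorem prm_inv_tr (u : List (Lt A)) : Tr (prm u)⁻¹ (-tau u) (mx u + 1) := by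
  intro i k hk
  obtain ⟨k', h1, h2⟩ := prm_far u i k (by
    intro v hv
    have := abs_tau_le hv i
    rw [abs_le] at this
    have : ((mx u + 1 : ℕ) : ℤ) ≤ k := by exact_mod_cast hk
    push_cast at this
    omega)
  exact ⟨k', h1, by rw [h2, Pi.neg_apply]; ring⟩

theorem prm_tr (u : List (Lt A)) : Tr (prm u) (tau u) (2 * mx u + 1) := by
  have := (prm_inv_tr u).inv (B := mx u) (by
    intro i
    rw [Pi.neg_apply, abs_neg]
    exact abs_tau_le List.prefix_rfl i)
  rw [inv_inv, neg_neg] at this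
  exact this.mono (by omega)

theorem prm_none {u : List (Lt A)} {i : Fin 4} {k : ℕ} (h : prm u none = some (i, k)) :
    k ≤ mx u := by
  by_contra hk
  obtain ⟨k', h1, -⟩ := prm_inv_tr u i k (by omega)
  rw [← h, inv_app] at h1
  exact absurd h1 (by simp)

theorem sum_tau (u : List (Lt A)) : ∑ i, tau u i = 0 := by
  induction u with
  | nil => simp [tau]
  | cons w u ih =>
    simp only [tau, Pi.add_apply, Finset.sum_add_distrib, ih, add_zero]
    rcases w with x | ⟨i, j⟩ | i
    · simp [tl]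
    · exact sum_dl i j
    · simp [tl]

/-- The logarithmic factor. -/
def lg (R : ℕ) : ℕ := Nat.clog 2 (100 * R + 8) + 1

theorem prm_len (u : List (Lt A)) :
    LenX (1000 * (2 * mx u + 1 + 1) * lg (2 * mx u + 1)) (prm u) := by
  refine len_bound (2 * mx u + 1) (prm u) (tau u) (prm_tr u) ?_ (sum_tau u) ?_
  · intro i
    refine (abs_tau_le List.prefix_rfl i).trans ?_
    push_cast
    linarith [Int.natCast_nonneg (mx u)]
  · intro i k h
    have := prm_none h
    omega

/-- The first `R` points of ray `i`. -/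
def rayL (i : Fin 4) (R : ℕ) : List X := (List.range R).map (fun k => some (i, k))

/-- The list of points of the ball of radius `R`. -/
def ballL (R : ℕ) : List X := none :: (rayL 0 R ++ (rayL 1 R ++ (rayL 2 R ++ rayL 3 R)))

theorem mem_rayL {i : Fin 4} {R : ℕ} {p : X} : p ∈ rayL i R ↔ ∃ k < R, p = some (i, k) := by
  unfold rayL
  rw [List.mem_map]
  constructor
  · rintro ⟨k, hk, rfl⟩
    exact ⟨k, List.mem_range.1 hk, rfl⟩
  · rintro ⟨k, hk, rfl⟩
    exact ⟨k, List.mem_range.2 hk, rfl⟩

theorem nodup_rayL (i : Fin 4) (R : ℕ) : (rayL i R).Nodup := by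
  refine List.Nodup.map ?_ List.nodup_range
  intro k l hkl
  simpa using hkl

theorem mem_ballL {R : ℕ} {p : X} : p ∈ ballL R ↔ p = none ∨ ∃ i, ∃ k < R, p = some (i, k) := by
  unfold ballL
  simp only [List.mem_cons, List.mem_append, mem_rayL]
  constructor
  · rintro (h | ⟨k, hk, h⟩ | ⟨k, hk, h⟩ | ⟨k, hk, h⟩ | ⟨k, hk, h⟩)
    · exact Or.inl h
    · exact Or.inr ⟨_, k, hk, h⟩
    · exact Or.inr ⟨_, k, hk, h⟩
    · exact Or.inr ⟨_, k, hk, h⟩
    · exact Or.inr ⟨_, k, hk, h⟩
  · rintro (h | ⟨i, k, hk, h⟩)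
    · exact Or.inl h
    · fin_cases i
      · exact Or.inr (Or.inl ⟨k, hk, h⟩)
      · exact Or.inr (Or.inr (Or.inl ⟨k, hk, h⟩))
      · exact Or.inr (Or.inr (Or.inr (Or.inl ⟨k, hk, h⟩)))
      · exact Or.inr (Or.inr (Or.inr (Or.inr ⟨k, hk, h⟩)))

theorem nodup_ballL (R : ℕ) : (ballL R).Nodup := by
  have disj : ∀ i j : Fin 4, i ≠ j → ∀ p, p ∈ rayL i R → p ∉ rayL j R := by
    intro i j hij p hp hq
    obtain ⟨k, _, rfl⟩ := mem_rayL.1 hp
    obtain ⟨l, _, e⟩ := mem_rayL.1 hq
    have := congrArg (fun o : X => o.map Prod.fst) e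
    simp only [Option.map_some, Option.some.injEq] at this
    exact hij this
  unfold ballL
  rw [List.nodup_cons]
  refine ⟨?_, ?_⟩
  · intro hmem
    simp only [List.mem_append, mem_rayL] at hmem
    rcases hmem with ⟨k, _, h⟩ | ⟨k, _, h⟩ | ⟨k, _, h⟩ | ⟨k, _, h⟩ <;> exact absurd h (by simp)
  · refine List.Nodup.append (nodup_rayL 0 R) (List.Nodup.append (nodup_rayL 1 R)
      (List.Nodup.append (nodup_rayL 2 R) (nodup_rayL 3 R) ?_) ?_) ?_
    · intro p hp hq
      exact disj 2 3 (by decide) p hp hq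
    · intro p hp hq
      rw [List.mem_append] at hq
      rcases hq with hq | hq
      · exact disj 1 2 (by decide) p hp hq
      · exact disj 1 3 (by decide) p hp hq
    · intro p hp hq
      simp only [List.mem_append] at hq
      rcases hq with hq | hq | hq
      · exact disj 0 1 (by decide) p hp hq
      · exact disj 0 2 (by decide) p hp hq
      · exact disj 0 3 (by decide) p hp hq

theorem length_ballL (R : ℕ) : (ballL R).length = 4 * R + 1 := by
  simp [ballL, rayL]; ring

end

section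
variable {G : Type*} [Group G] {t : Fin 4 → Fin 4 → G} {s : Fin 4 → G}
variable {A : Type*} [Group A] {a : A →* G}

omit [Group A] in
theorem Hm_mem (u : List (Lt A)) : Hm t s u ∈
    Subgroup.closure (Set.range (fun p : Fin 4 × Fin 4 => t p.1 p.2) ∪ Set.range s) := by
  induction u with
  | nil => exact one_mem _
  | cons w u ih =>
    rcases w with x | ⟨i, j⟩ | i
    · exact ih
    · exact mul_mem (Subgroup.subset_closure (Or.inl ⟨(i, j), rfl⟩)) ih
    · exact mul_mem (Subgroup.subset_closure (Or.inr ⟨i, rfl⟩)) ih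

theorem rho_ev {ρ : G →* Equiv.Perm X} (hρ : Std t s ρ) (c : Sym) : ρ (ev t s c) = evX c := by
  rcases c with ⟨i, j⟩ | i
  · exact hρ.t i j
  · exact hρ.s i

omit [Group A] in
theorem rho_Hm {ρ : G →* Equiv.Perm X} (hρ : Std t s ρ) (u : List (Lt A)) :
    ρ (Hm t s u) = prm u := by
  induction u with
  | nil => exact map_one ρ
  | cons w u ih =>
    rcases w with x | c
    · exact ih
    · show ρ (ev t s c * Hm t s u) = evX c * prm u
      rw [map_mul, rho_ev hρ, ih]

omit [Group A] in
theorem Hm_word (h : HRel t s) {ρ : G →* Equiv.Perm X} (hρ : Std t s ρ) (u : List (Lt A)) (m : ℕ)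
    (hm : LenX m (prm u)) : ∃ l : List Sym, l.length ≤ m ∧ Hm t s u = (l.map (ev t s)).prod := by
  obtain ⟨l, h1, h2⟩ := hm
  refine ⟨l, h1, faithful_eq h hρ (Hm_mem u) ?_ ?_⟩
  · refine list_prod_mem ?_
    intro x hx
    obtain ⟨c, _, rfl⟩ := List.mem_map.1 hx
    rcases c with ⟨i, j⟩ | i
    · exact Subgroup.subset_closure (Or.inl ⟨(i, j), rfl⟩)
    · exact Subgroup.subset_closure (Or.inr ⟨i, rfl⟩)
  · rw [rho_Hm hρ, ← h2, map_list_prod, List.map_map]
    congr 1
    refine List.map_congr_left ?_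
    intro c _
    exact (rho_ev hρ c).symm

/-- Length functions. -/
structure LenFn (len : G → ℕ) : Prop where
  one : len 1 = 0
  mul : ∀ g h, len (g * h) ≤ len g + len h
  inv : ∀ g, len g⁻¹ ≤ len g

theorem LenFn.prod {len : G → ℕ} (hl : LenFn len) (l : List G) (hx : ∀ x ∈ l, len x ≤ 1) :
    len l.prod ≤ l.length := by
  induction l with
  | nil => simp [hl.one]
  | cons x l ih =>
    rw [List.prod_cons, List.length_cons]
    have h1 := hl.mul x l.prod
    have h2 := hx x List.mem_cons_self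
    have h3 := ih (fun y hy => hx y (List.mem_cons_of_mem _ hy))
    omega

theorem LenFn.pow {len : G → ℕ} (hl : LenFn len) (g : G) (hg : len g ≤ 1) (k : ℕ) :
    len (g ^ k) ≤ k := by
  induction k with
  | zero => simp [hl.one]
  | succ k ih =>
    rw [pow_succ]
    have h1 := hl.mul (g ^ k) g
    omega

theorem al_ray (h : HRel t s) (hL : LRel t s a) (x : A) (i : Fin 4) (k : ℕ) :
    al t s a x (some (i, k)) = (t i (i + 1) ^ k)⁻¹ * al t s a x (some (i, 0)) * t i (i + 1) ^ k := by
  induction k with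
  | zero => simp
  | succ k ih =>
    have e := al_conj_t h hL x i (i + 1) (some (i, k + 1))
    rw [T_some, Yf_src_succ (add_one_ne i), ih] at e
    have : al t s a x (some (i, k + 1)) = (t i (i + 1))⁻¹
        * ((t i (i + 1) ^ k)⁻¹ * al t s a x (some (i, 0)) * t i (i + 1) ^ k) * t i (i + 1) := by
      rw [← e]; group
    rw [this, pow_succ]
    group

theorem len_al {len : G → ℕ} (hl : LenFn len) (hs : ∀ i, len (s i) ≤ 1) {lA : A → ℕ}
    (hlA : ∀ x, len (a x) ≤ lA x) (x : A) (i : Fin 4) :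
    len (al t s a x (some (i, 0))) ≤ lA x + 2 := by
  show len (s i * a x * s i) ≤ lA x + 2
  have h1 := hl.mul (s i * a x) (s i)
  have h2 := hl.mul (s i) (a x)
  have h3 := hs i
  have h4 := hlA x
  omega

theorem len_ray_aux (h : HRel t s) (hL : LRel t s a) {len : G → ℕ} (hl : LenFn len)
    (ht : ∀ i j, len (t i j) ≤ 1) (hs : ∀ i, len (s i) ≤ 1) {lA : A → ℕ}
    (hlA : ∀ x, len (a x) ≤ lA x) (f : X → A) (i : Fin 4) (R : ℕ) :
    len (Pr t s a (rayL i R) f * (t i (i + 1) ^ R)⁻¹)
      ≤ 3 * R + ((rayL i R).map (fun q => lA (f q))).sum := by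
  induction R with
  | zero => simp [rayL, Pr, hl.one]
  | succ R ih =>
    have e1 : rayL i (R + 1) = rayL i R ++ [some (i, R)] := by
      simp [rayL, List.range_succ]
    have e2 : Pr t s a (rayL i (R + 1)) f * (t i (i + 1) ^ (R + 1))⁻¹
        = (Pr t s a (rayL i R) f * (t i (i + 1) ^ R)⁻¹)
          * al t s a (f (some (i, R))) (some (i, 0)) * (t i (i + 1))⁻¹ := by
      unfold Pr
      rw [e1, List.map_append, List.prod_append, List.map_singleton, List.prod_singleton,
        al_ray h hL _ i R, pow_succ']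
      group
    rw [e2, e1, List.map_append, List.sum_append, List.map_singleton, List.sum_singleton]
    have h1 := hl.mul ((Pr t s a (rayL i R) f * (t i (i + 1) ^ R)⁻¹)
          * al t s a (f (some (i, R))) (some (i, 0))) (t i (i + 1))⁻¹
    have h2 := hl.mul (Pr t s a (rayL i R) f * (t i (i + 1) ^ R)⁻¹)
      (al t s a (f (some (i, R))) (some (i, 0)))
    have h3 := len_al (t := t) hl hs hlA (f (some (i, R))) i
    have h4 := hl.inv (t i (i + 1))
    have h5 := ht i (i + 1)
    omega

theorem len_ray (h : HRel t s) (hL : LRel t s a) {len : G → ℕ} (hl : LenFn len)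
    (ht : ∀ i j, len (t i j) ≤ 1) (hs : ∀ i, len (s i) ≤ 1) {lA : A → ℕ}
    (hlA : ∀ x, len (a x) ≤ lA x) (f : X → A) (i : Fin 4) (R : ℕ) :
    len (Pr t s a (rayL i R) f) ≤ 4 * R + ((rayL i R).map (fun q => lA (f q))).sum := by
  have h1 := len_ray_aux h hL hl ht hs hlA f i R
  have h2 := hl.mul (Pr t s a (rayL i R) f * (t i (i + 1) ^ R)⁻¹) (t i (i + 1) ^ R)
  have h3 := hl.pow (t i (i + 1)) (ht _ _) R
  rw [inv_mul_cancel_right] at h2
  omega

theorem len_ball (h : HRel t s) (hL : LRel t s a) {len : G → ℕ} (hl : LenFn len)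
    (ht : ∀ i j, len (t i j) ≤ 1) (hs : ∀ i, len (s i) ≤ 1) {lA : A → ℕ}
    (hlA : ∀ x, len (a x) ≤ lA x) (f : X → A) (R : ℕ) :
    len (Pr t s a (ballL R) f) ≤ 16 * R + ((ballL R).map (fun q => lA (f q))).sum := by
  have e : Pr t s a (ballL R) f = a (f none) * (Pr t s a (rayL 0 R) f * (Pr t s a (rayL 1 R) f
      * (Pr t s a (rayL 2 R) f * Pr t s a (rayL 3 R) f))) := by
    simp only [Pr, ballL, List.map_cons, List.map_append, List.prod_cons, List.prod_append]
    rfl
  rw [e]
  simp only [ballL, List.map_cons, List.map_append, List.sum_cons, List.sum_append]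
  have h0 := hlA (f none)
  have h1 := len_ray h hL hl ht hs hlA f 0 R
  have h2 := len_ray h hL hl ht hs hlA f 1 R
  have h3 := len_ray h hL hl ht hs hlA f 2 R
  have h4 := len_ray h hL hl ht hs hlA f 3 R
  have m1 := hl.mul (a (f none)) (Pr t s a (rayL 0 R) f * (Pr t s a (rayL 1 R) f
      * (Pr t s a (rayL 2 R) f * Pr t s a (rayL 3 R) f)))
  have m2 := hl.mul (Pr t s a (rayL 0 R) f) (Pr t s a (rayL 1 R) f
      * (Pr t s a (rayL 2 R) f * Pr t s a (rayL 3 R) f))
  have m3 := hl.mul (Pr t s a (rayL 1 R) f) (Pr t s a (rayL 2 R) f * Pr t s a (rayL 3 R) f)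
  have m4 := hl.mul (Pr t s a (rayL 2 R) f) (Pr t s a (rayL 3 R) f)
  omega

/-- Deterministic upper bound. -/
theorem len_W (h : HRel t s) (hL : LRel t s a) {ρ : G →* Equiv.Perm X} (hρ : Std t s ρ)
    {len : G → ℕ} (hl : LenFn len)
    (ht : ∀ i j, len (t i j) ≤ 1) (hs : ∀ i, len (s i) ≤ 1) {lA : A → ℕ}
    (hlA : ∀ x, len (a x) ≤ lA x) (u : List (Lt A)) :
    len (W t s a u) ≤ 16 * (mx u + 1) + ((ballL (mx u + 1)).map (fun q => lA (cfg u q))).sum
      + 1000 * (2 * mx u + 1 + 1) * lg (2 * mx u + 1) := by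
  rw [decomp h hL u (ballL (mx u + 1)) (nodup_ballL _) (by
    rintro (_ | ⟨i, k⟩) hp
    · exact mem_ballL.2 (Or.inl rfl)
    · exact mem_ballL.2 (Or.inr ⟨i, k, by have := cnt_ball hp; omega, rfl⟩))]
  have h1 := hl.mul (Pr t s a (ballL (mx u + 1)) (cfg u)) (Hm t s u)
  have h2 := len_ball h hL hl ht hs hlA (cfg u) (mx u + 1)
  obtain ⟨l, h3, h4⟩ := Hm_word h hρ u _ (prm_len u)
  have h5 : len (Hm t s u) ≤ l.length := by
    rw [h4]
    refine (hl.prod _ ?_).trans (by rw [List.length_map])
    intro x hx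
    obtain ⟨c, _, rfl⟩ := List.mem_map.1 hx
    rcases c with ⟨i, j⟩ | i
    · exact ht i j
    · exact hs i
  omega

end

end Pool.SpeedFP
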