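import Pool.Agent.SpeedFP.Upper

/-!
Expectations over random words.
-/

set_option autoImplicit false
set_option linter.unusedSectionVars false

namespace Pool.SpeedFP

section EgSec
variable {G : Type*} [Group G]

/-- Expectation of a function of the random walk at time `n`. -/
noncomputable def Eg (S : Finset G) (μ : G → ℝ) : ℕ → (G → ℝ) → ℝ
  | 0, F => F 1
  | n + 1, F => ∑ g ∈ S, μ g * Eg S μ n (fun h => F (g * h))

theorem Eg_eq (S : Finset G) (μ : G → ℝ) (n : ℕ) : ∀ F : G → ℝ,
    ∑ s : Fin n → S, (∏ i, μ (s i)) * F ((List.ofFn (fun i => ((s i : G)))).prod)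
      = Eg S μ n F := by
  induction n with
  | zero => intro F; simp [Eg]
  | succ n ih =>
    intro F
    rw [← (Fin.consEquiv (fun _ : Fin (n + 1) => (S : Type _))).sum_comp, Fintype.sum_prod_type]
    show _ = ∑ g ∈ S, μ g * Eg S μ n (fun h => F (g * h))
    rw [← Finset.sum_coe_sort S]
    refine Finset.sum_congr rfl ?_
    intro g _
    rw [← ih, Finset.mul_sum]
    refine Finset.sum_congr rfl ?_
    intro s _
    rw [Fin.prod_univ_succ, List.ofFn_succ, List.prod_cons]
    simp only [Fin.consEquiv_apply, Fin.cons_zero, Fin.cons_succ]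
    ring

theorem Eg_le_linear (S : Finset G) (μ : G → ℝ) (hμ : ∀ g, 0 ≤ μ g) (h1 : ∑ g ∈ S, μ g = 1)
    (len : G → ℕ) (hmul : ∀ g h, len (g * h) ≤ len g + len h)
    (C : ℕ) (hC : ∀ g ∈ S, len g ≤ C) (n : ℕ) :
    ∀ (F : G → ℝ) (b : ℝ), (∀ g, F g ≤ len g + b) → Eg S μ n F ≤ len 1 + C * n + b := by
  induction n with
  | zero => intro F b hF; simpa [Eg] using hF 1
  | succ n ih =>
    intro F b hF
    have : ∀ g ∈ S, μ g * Eg S μ n (fun h => F (g * h)) ≤ μ g * (len 1 + C * n + (C + b)) := by
      intro g hg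
      refine mul_le_mul_of_nonneg_left (ih _ _ ?_) (hμ g)
      intro h
      have e1 := hF (g * h)
      have e2 : (len (g * h) : ℝ) ≤ len g + len h := by exact_mod_cast hmul g h
      have e3 : (len g : ℝ) ≤ C := by exact_mod_cast hC g hg
      linarith
    show ∑ g ∈ S, μ g * Eg S μ n (fun h => F (g * h)) ≤ _
    refine (Finset.sum_le_sum this).trans ?_
    rw [← Finset.sum_mul, h1]
    push_cast
    linarith

theorem Eg_nonneg (S : Finset G) (μ : G → ℝ) (hμ : ∀ g, 0 ≤ μ g) (n : ℕ) :
    ∀ (F : G → ℝ), (∀ g, 0 ≤ F g) → 0 ≤ Eg S μ n F := by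
  induction n with
  | zero => intro F hF; exact hF 1
  | succ n ih =>
    intro F hF
    exact Finset.sum_nonneg (fun g _ => mul_nonneg (hμ g) (ih _ (fun h => hF _)))

end EgSec

section
variable {A : Type*} [Group A] (S : Finset A) (μ : A → ℝ)

/-- Expectation over random words of length `n`: each letter is a lamp letter with probability
`1/2` (distributed according to `μ`) and a uniform moving letter otherwise. -/
noncomputable def EL : ℕ → (List (Lt A) → ℝ) → ℝ
  | 0, F => F []
  | n + 1, F => 1 / 2 * ∑ x ∈ S, μ x * EL n (fun u => F (Sum.inl x :: u))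
      + 1 / 40 * ∑ c : Sym, EL n (fun u => F (Sum.inr c :: u))

variable {S μ}

theorem EL_succ (n : ℕ) (F : List (Lt A) → ℝ) :
    EL S μ (n + 1) F = 1 / 2 * ∑ x ∈ S, μ x * EL S μ n (fun u => F (Sum.inl x :: u))
      + 1 / 40 * ∑ c : Sym, EL S μ n (fun u => F (Sum.inr c :: u)) := rfl

theorem EL_add (n : ℕ) : ∀ F H : List (Lt A) → ℝ,
    EL S μ n (fun u => F u + H u) = EL S μ n F + EL S μ n H := by
  induction n with
  | zero => intro F H; rfl
  | succ n ih =>
    intro F H
    simp only [EL_succ]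
    have e1 : ∀ x, EL S μ n (fun u => F (Sum.inl x :: u) + H (Sum.inl x :: u))
        = EL S μ n (fun u => F (Sum.inl x :: u)) + EL S μ n (fun u => H (Sum.inl x :: u)) :=
      fun x => ih _ _
    have e2 : ∀ c, EL S μ n (fun u => F (Sum.inr c :: u) + H (Sum.inr c :: u))
        = EL S μ n (fun u => F (Sum.inr c :: u)) + EL S μ n (fun u => H (Sum.inr c :: u)) :=
      fun c => ih _ _
    simp only [e1, e2, mul_add, Finset.sum_add_distrib]
    ring

theorem EL_smul (n : ℕ) (c : ℝ) : ∀ F : List (Lt A) → ℝ,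
    EL S μ n (fun u => c * F u) = c * EL S μ n F := by
  induction n with
  | zero => intro F; rfl
  | succ n ih =>
    intro F
    simp only [EL_succ]
    have e1 : ∀ x, EL S μ n (fun u => c * F (Sum.inl x :: u))
        = c * EL S μ n (fun u => F (Sum.inl x :: u)) := fun x => ih _
    have e2 : ∀ d, EL S μ n (fun u => c * F (Sum.inr d :: u))
        = c * EL S μ n (fun u => F (Sum.inr d :: u)) := fun d => ih _
    simp only [e1, e2]
    rw [mul_add, ← Finset.mul_sum]
    have : ∑ x ∈ S, μ x * (c * EL S μ n (fun u => F (Sum.inl x :: u)))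
        = c * ∑ x ∈ S, μ x * EL S μ n (fun u => F (Sum.inl x :: u)) := by
      rw [Finset.mul_sum]
      exact Finset.sum_congr rfl (fun x _ => by ring)
    rw [this]
    ring

theorem EL_zero' (n : ℕ) : EL S μ n (fun _ => 0) = 0 := by
  have := EL_smul (S := S) (μ := μ) n 0 (fun _ => 0)
  simpa using this

theorem EL_finsum {κ : Type*} (n : ℕ) (K : Finset κ) (F : κ → List (Lt A) → ℝ) :
    EL S μ n (fun u => ∑ k ∈ K, F k u) = ∑ k ∈ K, EL S μ n (F k) := by
  classical
  induction K using Finset.induction_on with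
  | empty => simpa using EL_zero' n
  | insert k K hk ih =>
    simp only [Finset.sum_insert hk]
    rw [EL_add, ih]

theorem EL_mono (hμ : ∀ g, 0 ≤ μ g) (n : ℕ) : ∀ F H : List (Lt A) → ℝ,
    (∀ u, u.length = n → F u ≤ H u) → EL S μ n F ≤ EL S μ n H := by
  induction n with
  | zero => intro F H h; exact h [] rfl
  | succ n ih =>
    intro F H h
    simp only [EL_succ]
    have h1 : ∑ x ∈ S, μ x * EL S μ n (fun u => F (Sum.inl x :: u))
        ≤ ∑ x ∈ S, μ x * EL S μ n (fun u => H (Sum.inl x :: u)) :=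
      Finset.sum_le_sum (fun x _ => mul_le_mul_of_nonneg_left
        (ih _ _ (fun u hu => h _ (by simp [hu]))) (hμ x))
    have h2 : ∑ c : Sym, EL S μ n (fun u => F (Sum.inr c :: u))
        ≤ ∑ c : Sym, EL S μ n (fun u => H (Sum.inr c :: u)) :=
      Finset.sum_le_sum (fun c _ => ih _ _ (fun u hu => h _ (by simp [hu])))
    linarith

theorem card_sym : Fintype.card Sym = 20 := by decide

theorem EL_const (h1 : ∑ g ∈ S, μ g = 1) (n : ℕ) (c : ℝ) : EL S μ n (fun _ => c) = c := by
  induction n with
  | zero => rfl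
  | succ n ih =>
    rw [EL_succ]
    simp only [ih]
    rw [← Finset.sum_mul, h1, Finset.sum_const, Finset.card_univ, card_sym]
    norm_num
    ring

theorem EL_nonneg (hμ : ∀ g, 0 ≤ μ g) (n : ℕ) (F : List (Lt A) → ℝ)
    (h : ∀ u, 0 ≤ F u) : 0 ≤ EL S μ n F := by
  have := EL_mono (S := S) hμ n (fun _ => 0) F (fun u _ => h u)
  rwa [EL_zero'] at this

/-- Marginalisation. -/
theorem EL_take (h1 : ∑ g ∈ S, μ g = 1) (n : ℕ) : ∀ (k : ℕ) (F : List (Lt A) → ℝ), k ≤ n →
    EL S μ n (fun u => F (u.take k)) = EL S μ k F := by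
  induction n with
  | zero =>
    intro k F hk
    obtain rfl : k = 0 := by omega
    rfl
  | succ n ih =>
    intro k F hk
    rcases k with _ | k
    · simp only [List.take_zero]
      rw [EL_const h1]
      rfl
    · rw [EL_succ, EL_succ]
      simp only [List.take_succ_cons]
      have e1 : ∀ x, EL S μ n (fun u => F (Sum.inl x :: u.take k))
          = EL S μ k (fun u => F (Sum.inl x :: u)) :=
        fun x => ih k (fun u => F (Sum.inl x :: u)) (by omega)
      have e2 : ∀ c, EL S μ n (fun u => F (Sum.inr c :: u.take k))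
          = EL S μ k (fun u => F (Sum.inr c :: u)) :=
        fun c => ih k (fun u => F (Sum.inr c :: u)) (by omega)
      simp only [e1, e2]

/-- The law of the number of lamp letters acting at `p`. -/
noncomputable def V (S : Finset A) (μ : A → ℝ) (n : ℕ) (ψ : ℕ → ℝ) (p : X) : ℝ :=
  EL S μ n (fun u => ψ (cnt u p))

theorem V_zero (ψ : ℕ → ℝ) (p : X) : V S μ 0 ψ p = ψ 0 := rfl

theorem V_succ (h1 : ∑ g ∈ S, μ g = 1) (n : ℕ) (ψ : ℕ → ℝ) (p : X) :
    V S μ (n + 1) ψ p = 1 / 2 * (if p = none then V S μ n (fun j => ψ (j + 1)) p else V S μ n ψ p)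
      + 1 / 40 * ∑ c : Sym, V S μ n ψ ((evX c)⁻¹ p) := by
  unfold V
  rw [EL_succ]
  simp only [cnt]
  congr 1
  by_cases hp : p = none
  · simp only [hp, if_true]
    rw [← Finset.sum_mul, h1, one_mul]
  · simp only [hp, if_false]
    rw [← Finset.sum_mul, h1, one_mul]

/-- The lamp at a point is an independent walk run for the number of lamp letters at that
point. -/
theorem EL_cfg (h1 : ∑ g ∈ S, μ g = 1) (n : ℕ) : ∀ (F : A → ℝ) (p : X),
    EL S μ n (fun u => F (cfg u p)) = V S μ n (fun j => Eg S μ j F) p := by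
  induction n with
  | zero => intro F p; rfl
  | succ n ih =>
    intro F p
    rw [V_succ h1, EL_succ]
    simp only [cfg]
    have e2 : ∀ c, EL S μ n (fun u => F (cfg u ((ev T Sw c : Equiv.Perm X)⁻¹ p)))
        = V S μ n (fun j => Eg S μ j F) ((evX c)⁻¹ p) := fun c => ih F _
    simp only [e2]
    congr 1
    by_cases hp : p = none
    · simp only [hp, if_true]
      have e1 : ∀ x, EL S μ n (fun u => F (x * cfg u none))
          = V S μ n (fun j => Eg S μ j (fun h => F (x * h))) none :=
        fun x => ih (fun h => F (x * h)) none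
      simp only [e1]
      congr 1
      unfold V
      have e3 : ∀ u : List (Lt A), Eg S μ (cnt u none + 1) F
          = ∑ x ∈ S, μ x * Eg S μ (cnt u none) (fun h => F (x * h)) := fun u => rfl
      simp only [e3]
      rw [EL_finsum]
      refine Finset.sum_congr rfl ?_
      intro x _
      rw [EL_smul]
    · simp only [hp, if_false]
      rw [← Finset.sum_mul, h1, one_mul, ih]

end

end Pool.SpeedFP
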